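import Pool.Agent.Helper84.LD.Loc
import Pool.Agent.Helper53.GP.TieDefs

/-!
# Dilations of polycubes (project TIE, MP_409f7f_co)

`dil k Q` consists of the unit cubes whose block of side `k` belongs to `Q`.
-/

set_option autoImplicit false

namespace Pool.Agent.Helper84.LD

open Pool.Agent.Helper17.UF Pool.Agent.Helper16.LD Pool.Agent.Helper53.GP Relation

/-- The block of a cube. -/
def fl (k : ℤ) (v : Cube) : Cube := (v.1 / k, v.2.1 / k, v.2.2 / k)

/-- The dilation of a polycube. -/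
noncomputable def dil (k : ℤ) (Q : Finset Cube) : Finset Cube :=
  Q.biUnion (fun q => Finset.Ico (k * q.1) (k * q.1 + k) ×ˢ
    (Finset.Ico (k * q.2.1) (k * q.2.1 + k) ×ˢ Finset.Ico (k * q.2.2) (k * q.2.2 + k)))

theorem mem_Ico_div {k a q : ℤ} (hk : 0 < k) : a ∈ Finset.Ico (k * q) (k * q + k) ↔ a / k = q := by
  rw [Finset.mem_Ico, Int.ediv_eq_iff_of_pos hk]
  constructor
  · rintro ⟨h1, h2⟩
    exact ⟨by linarith [mul_comm k q], by linarith [mul_comm k q]⟩
  · rintro ⟨h1, h2⟩
    exact ⟨by linarith [mul_comm k q], by linarith [mul_comm k q]⟩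

theorem mem_dil {k : ℤ} (hk : 0 < k) {Q : Finset Cube} {v : Cube} :
    v ∈ dil k Q ↔ fl k v ∈ Q := by
  unfold dil fl
  rw [Finset.mem_biUnion]
  constructor
  · rintro ⟨q, hq, h⟩
    rw [Finset.mem_product, Finset.mem_product, mem_Ico_div hk, mem_Ico_div hk,
      mem_Ico_div hk] at h
    obtain ⟨h1, h2, h3⟩ := h
    rw [h1, h2, h3]
    exact hq
  · intro h
    refine ⟨_, h, ?_⟩
    rw [Finset.mem_product, Finset.mem_product, mem_Ico_div hk, mem_Ico_div hk, mem_Ico_div hk]
    exact ⟨rfl, rfl, rfl⟩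

/-- The octant of the block vertex that contains the octant `o` of `v`. -/
def mo (k : ℤ) (v : Cube) (o : Oct) : Oct :=
  (if v.1 % k = 0 then o.1 else true, if v.2.1 % k = 0 then o.2.1 else true,
    if v.2.2 % k = 0 then o.2.2 else true)

theorem div_off {k a : ℤ} (hk : 0 < k) (b : Bool) :
    (a + (if b then 0 else -1)) / k =
      a / k + (if (if a % k = 0 then b else true) = true then 0 else -1) := by
  have h1 := Int.mul_ediv_add_emod a k
  have h2 := Int.emod_nonneg a hk.ne'
  have h3 := Int.emod_lt_of_pos a hk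
  cases b with
  | true => simp
  | false =>
    simp only [Bool.false_eq_true, if_false]
    by_cases h : a % k = 0
    · rw [if_pos h, if_neg (by decide)]
      rw [Int.ediv_eq_iff_of_pos hk]
      rw [h] at h1
      constructor
      · nlinarith [mul_comm k (a / k)]
      · nlinarith [mul_comm k (a / k)]
    · rw [if_neg h, if_pos rfl, Int.ediv_eq_iff_of_pos hk]
      have h4 : 1 ≤ a % k := by omega
      constructor
      · nlinarith [mul_comm k (a / k)]
      · nlinarith [mul_comm k (a / k)]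

theorem fl_off {k : ℤ} (hk : 0 < k) (v : Cube) (o : Oct) :
    fl k (v + off o) = fl k v + off (mo k v o) := by
  obtain ⟨a, b, c⟩ := v
  obtain ⟨x, y, z⟩ := o
  unfold fl off mo
  simp only [Prod.mk_add_mk, Prod.mk.injEq]
  exact ⟨div_off hk x, div_off hk y, div_off hk z⟩

/-- The pattern of a lattice point of the dilation. -/
theorem pat_dil {k : ℤ} (hk : 0 < k) (Q : Finset Cube) (v : Cube) (o : Oct) :
    pat (dil k Q) v o = pat Q (fl k v) (mo k v o) := by
  unfold pat
  rw [decide_eq_decide, mem_dil hk, fl_off hk]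

/-- The edge condition at a vertex, for patterns. -/
def ManP (p : Oct → Bool) : Prop := ∀ (o : Oct) (a b : Fin 3), a ≠ b → p o = true →
  p (flp o a) = false → p (flp o b) = false → p (flp (flp o a) b) = false

instance (p : Oct → Bool) : Decidable (ManP p) := by unfold ManP; infer_instance

theorem off_flp2 : ∀ (o : Oct) (a b : Fin 3), a ≠ b →
    off o + (inw o a).vec + (inw o b).vec = off (flp (flp o a) b) ∧
    Dir.perp (inw o a) (inw o b) = true := by decide

theorem manP_pat {P : Finset Cube} (h : Man P) (v : Cube) : ManP (pat P v) := by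
  intro o a b hab h1 h2 h3
  obtain ⟨k1, k2⟩ := off_flp2 o a b hab
  unfold pat at h1 h2 h3 ⊢
  rw [decide_eq_true_eq] at h1
  rw [decide_eq_false_iff_not, ← off_inw, ← add_assoc] at h2 h3
  rw [decide_eq_false_iff_not, ← k1, ← add_assoc, ← add_assoc]
  exact h _ h1 _ _ k2 h2 h3

/-- Patterns as numbers. -/
def patN (n : ℕ) (o : Oct) : Bool :=
  n.testBit (o.1.toNat + 2 * o.2.1.toNat + 4 * o.2.2.toNat)

theorem exists_patN (p : Oct → Bool) : ∃ n < 256, p = patN n := by
  have key : ∀ b0 b1 b2 b3 b4 b5 b6 b7 : Bool, ∃ n < 256,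
      patN n (false, false, false) = b0 ∧ patN n (true, false, false) = b1 ∧
      patN n (false, true, false) = b2 ∧ patN n (true, true, false) = b3 ∧
      patN n (false, false, true) = b4 ∧ patN n (true, false, true) = b5 ∧
      patN n (false, true, true) = b6 ∧ patN n (true, true, true) = b7 := by
    intro b0 b1 b2 b3 b4 b5 b6 b7
    refine ⟨b0.toNat + 2 * b1.toNat + 4 * b2.toNat + 8 * b3.toNat + 16 * b4.toNat +
      32 * b5.toNat + 64 * b6.toNat + 128 * b7.toNat, ?_⟩
    revert b0 b1 b2 b3 b4 b5 b6 b7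
    decide +kernel
  obtain ⟨n, hn, h0, h1, h2, h3, h4, h5, h6, h7⟩ := key (p (false, false, false))
    (p (true, false, false)) (p (false, true, false)) (p (true, true, false))
    (p (false, false, true)) (p (true, false, true)) (p (false, true, true))
    (p (true, true, true))
  refine ⟨n, hn, ?_⟩
  funext o
  obtain ⟨x, y, z⟩ := o
  cases x <;> cases y <;> cases z
  · exact h0.symm
  · exact h4.symm
  · exact h2.symm
  · exact h6.symm
  · exact h1.symm
  · exact h5.symm
  · exact h3.symm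
  · exact h7.symm

/-- Patterns that do not depend on one of the axes contribute nothing. -/
theorem loc_edge (p : Oct → Bool) (hm : ManP p) (a : Fin 3) (ha : ∀ o, p (flp o a) = p o) :
    loc p = 0 := by
  have key : ∀ n < 256, ∀ a : Fin 3, (∀ o, patN n (flp o a) = patN n o) → ManP (patN n) →
      loc (patN n) = 0 := by decide +kernel
  obtain ⟨n, hn, rfl⟩ := exists_patN p
  exact key n hn a ha hm

/-- Coordinates. -/
def cd (v : Cube) (a : Fin 3) : ℤ := if a = 0 then v.1 else if a = 1 then v.2.1 else v.2.2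

/-- The plane through `v` orthogonal to the axis `a` is a boundary plane of the blocks. -/
def Dv (k : ℤ) (v : Cube) (a : Fin 3) : Prop := cd v a % k = 0

theorem mo_flp {k : ℤ} {v : Cube} {o : Oct} {a : Fin 3} (h : Dv k v a) :
    mo k v (flp o a) = flp (mo k v o) a := by
  unfold Dv cd at h
  obtain ⟨x, y, z⟩ := o
  fin_cases a
  · simp only [Fin.zero_eta, if_true] at h
    unfold mo flp
    simp [h]
  · simp only [Fin.mk_one, Fin.isValue, one_ne_zero, if_false, if_true] at h
    unfold mo flp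
    simp [h]
  · have e0 : ((2 : Fin 3) = 0) = False := by simp
    have e1 : ((2 : Fin 3) = 1) = False := by simp
    simp only [Fin.reduceFinMk, e0, e1, if_false] at h
    unfold mo flp
    simp [h]

theorem mo_flp' {k : ℤ} {v : Cube} {o : Oct} {a : Fin 3} (h : ¬ Dv k v a) :
    mo k v (flp o a) = mo k v o := by
  unfold Dv cd at h
  obtain ⟨x, y, z⟩ := o
  fin_cases a
  · simp only [Fin.zero_eta, if_true] at h
    unfold mo flp
    simp [h]
  · simp only [Fin.mk_one, Fin.isValue, one_ne_zero, if_false, if_true] at h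
    unfold mo flp
    simp [h]
  · have e0 : ((2 : Fin 3) = 0) = False := by simp
    have e1 : ((2 : Fin 3) = 1) = False := by simp
    simp only [Fin.reduceFinMk, e0, e1, if_false] at h
    unfold mo flp
    simp [h]

/-- An edge-manifold polycube, by patterns. -/
theorem man_of_manP {P : Finset Cube} (h : ∀ v, ManP (pat P v)) : Man P := by
  intro y hy u w huw h1 h2
  have key : ∀ u w : Dir, Dir.perp u w = true → ∃ o : Oct, inw o u.axis = u ∧ inw o w.axis = w ∧
      u.axis ≠ w.axis := by decide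
  obtain ⟨o, k1, k2, k3⟩ := key u w huw
  have e : y = (y - off o) + off o := by abel
  have f1 : y + u.vec = (y - off o) + off (flp o u.axis) := by
    rw [← off_inw, k1]; abel
  have f2 : y + w.vec = (y - off o) + off (flp o w.axis) := by
    rw [← off_inw, k2]; abel
  have f3 : y + u.vec + w.vec = (y - off o) + off (flp (flp o u.axis) w.axis) := by
    rw [← (off_flp2 o _ _ k3).1, k1, k2]; abel
  have h4 := h (y - off o) o u.axis w.axis k3
  unfold pat at h4
  rw [← e, ← f1, ← f2, ← f3, decide_eq_true_eq, decide_eq_false_iff_not,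
    decide_eq_false_iff_not, decide_eq_false_iff_not] at h4
  exact h4 hy h1 h2

theorem manP_dil {k : ℤ} (hk : 0 < k) {Q : Finset Cube} (h : Man Q) (v : Cube) :
    ManP (pat (dil k Q) v) := by
  intro o a b hab h1 h2 h3
  rw [pat_dil hk] at h1 h2 h3 ⊢
  by_cases ha : Dv k v a
  · by_cases hb : Dv k v b
    · rw [mo_flp ha] at h2
      rw [mo_flp hb] at h3
      rw [mo_flp hb, mo_flp ha]
      exact manP_pat h _ _ a b hab h1 h2 h3
    · rw [mo_flp' hb, h1] at h3
      exact Bool.noConfusion h3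
  · rw [mo_flp' ha, h1] at h2
    exact Bool.noConfusion h2

/-- Dilations of edge-manifold polycubes are edge-manifold. -/
theorem man_dil {k : ℤ} (hk : 0 < k) {Q : Finset Cube} (h : Man Q) : Man (dil k Q) :=
  man_of_manP (manP_dil hk h)

/-- The scaled lattice point. -/
def sc (k : ℤ) (v : Cube) : Cube := (k * v.1, k * v.2.1, k * v.2.2)

theorem fl_sc {k : ℤ} (hk : 0 < k) (v : Cube) : fl k (sc k v) = v := by
  unfold fl sc
  simp only [Int.mul_ediv_cancel_left _ hk.ne']

theorem mo_sc (k : ℤ) (v : Cube) (o : Oct) : mo k (sc k v) o = o := by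
  unfold mo sc
  simp only [Int.mul_emod_right, if_true]

theorem pat_sc {k : ℤ} (hk : 0 < k) (Q : Finset Cube) (v : Cube) :
    pat (dil k Q) (sc k v) = pat Q v := by
  funext o
  rw [pat_dil hk, fl_sc hk, mo_sc]

theorem sc_fl {k : ℤ} {v : Cube} (h : ∀ a, Dv k v a) : sc k (fl k v) = v := by
  obtain ⟨x, y, z⟩ := v
  have h0 : x % k = 0 := h 0
  have h1 : y % k = 0 := h 1
  have h2 : z % k = 0 := h 2
  unfold sc fl
  simp only
  rw [Int.mul_ediv_cancel_of_emod_eq_zero h0, Int.mul_ediv_cancel_of_emod_eq_zero h1,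
    Int.mul_ediv_cancel_of_emod_eq_zero h2]

/-- `V - F` does not change under dilation. -/
theorem euler_dil {k : ℤ} (hk : 0 < k) {Q : Finset Cube} (h : Man Q) :
    ((vertF (dil k Q)).card : ℤ) - (faceF (dil k Q)).card = (vertF Q).card - (faceF Q).card := by
  classical
  have h1 := sum_loc (P := dil k Q) (S := vertF (dil k Q) ∪ (vertF Q).image (sc k))
    Finset.subset_union_left
  have h2 := sum_loc (P := Q) (S := vertF Q) (Finset.Subset.refl _)
  have h3 : ∑ v ∈ (vertF Q).image (sc k), loc (pat (dil k Q) v) =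
      ∑ v ∈ vertF (dil k Q) ∪ (vertF Q).image (sc k), loc (pat (dil k Q) v) := by
    refine Finset.sum_subset Finset.subset_union_right (fun v _ hv => ?_)
    by_cases hd : ∀ a, Dv k v a
    · have h4 : fl k v ∉ vertF Q := fun h5 => hv (Finset.mem_image.2 ⟨_, h5, sc_fl hd⟩)
      rw [← sc_fl hd, pat_sc hk]
      rw [mem_vertF_iff, not_not] at h4
      unfold loc
      rw [if_pos h4]
    · rw [not_forall] at hd
      obtain ⟨a, ha⟩ := hd
      refine loc_edge _ (manP_dil hk h v) a (fun o => ?_)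
      rw [pat_dil hk, pat_dil hk, mo_flp' ha]
  have h4 : ∑ v ∈ (vertF Q).image (sc k), loc (pat (dil k Q) v) =
      ∑ v ∈ vertF Q, loc (pat Q v) := by
    rw [Finset.sum_image]
    · exact Finset.sum_congr rfl (fun v _ => by rw [pat_sc hk])
    · intro v _ w _ hvw
      rw [← fl_sc hk v, ← fl_sc hk w, hvw]
  rw [← h3, h4, h2] at h1
  linarith

/-- The Euler characteristic of the dilation. -/
theorem euler2_dil {k : ℤ} (hk : 0 < k) {Q : Finset Cube} (h : Man Q)
    (he : (vertF Q).card + (faceF Q).card = (edgeF Q).card + 2) :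
    (vertF (dil k Q)).card + (faceF (dil k Q)).card = (edgeF (dil k Q)).card + 2 := by
  have h1 := euler_dil hk h
  have h2 := card_edgeF h
  have h3 := card_edgeF (man_dil hk h)
  omega

section conn

/-- The step from `v` in the direction leaves the block of `v`. -/
def crs (k : ℤ) (v : Cube) : Dir → Prop
  | Dir.px => k ∣ v.1 + 1 | Dir.nx => k ∣ v.1
  | Dir.py => k ∣ v.2.1 + 1 | Dir.ny => k ∣ v.2.1
  | Dir.pz => k ∣ v.2.2 + 1 | Dir.nz => k ∣ v.2.2

/-- Number of steps inside the block. -/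
def msr (k : ℤ) (v : Cube) : Dir → ℤ
  | Dir.px => (-(v.1 + 1)) % k | Dir.nx => v.1 % k
  | Dir.py => (-(v.2.1 + 1)) % k | Dir.ny => v.2.1 % k
  | Dir.pz => (-(v.2.2 + 1)) % k | Dir.nz => v.2.2 % k

theorem div_succ_dvd {k a : ℤ} (hk : 0 < k) (h : k ∣ a + 1) : (a + 1) / k = a / k + 1 := by
  obtain ⟨m, hm⟩ := h
  have h1 : (a + 1) / k = m := by rw [hm]; exact Int.mul_ediv_cancel_left _ hk.ne'
  have h2 : a / k = m - 1 := by
    rw [Int.ediv_eq_iff_of_pos hk]
    constructor <;> nlinarith [mul_comm k m]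
  rw [h1, h2]; ring

theorem div_succ_ndvd {k a : ℤ} (hk : 0 < k) (h : ¬ k ∣ a + 1) : (a + 1) / k = a / k := by
  have h1 := Int.mul_ediv_add_emod a k
  have h2 := Int.emod_nonneg a hk.ne'
  have h3 := Int.emod_lt_of_pos a hk
  have h4 : a % k + 1 ≠ k := by
    intro h5
    apply h
    refine ⟨a / k + 1, ?_⟩
    linarith [mul_add k (a / k) 1]
  rw [Int.ediv_eq_iff_of_pos hk]
  have h5 : a % k + 1 < k := by omega
  constructor <;> nlinarith [mul_comm k (a / k)]

theorem div_pred_dvd {k a : ℤ} (hk : 0 < k) (h : k ∣ a) : (a + -1) / k = a / k + -1 := by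
  have := div_succ_dvd (a := a + -1) hk (by rw [neg_add_cancel_right]; exact h)
  rw [neg_add_cancel_right] at this
  linarith

theorem div_pred_ndvd {k a : ℤ} (hk : 0 < k) (h : ¬ k ∣ a) : (a + -1) / k = a / k := by
  have := div_succ_ndvd (a := a + -1) hk (by rw [neg_add_cancel_right]; exact h)
  rw [neg_add_cancel_right] at this
  exact this.symm

theorem fl_crs {k : ℤ} (hk : 0 < k) {v : Cube} {d : Dir} (h : crs k v d) :
    fl k (v + d.vec) = fl k v + d.vec := by
  obtain ⟨x, y, z⟩ := v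
  cases d <;> simp only [crs] at h <;>
    simp only [fl, Dir.vec, Prod.mk_add_mk, add_zero, Prod.mk.injEq, true_and, and_true]
  · exact div_succ_dvd hk h
  · exact div_pred_dvd hk h
  · exact div_succ_dvd hk h
  · exact div_pred_dvd hk h
  · exact div_succ_dvd hk h
  · exact div_pred_dvd hk h

theorem fl_ncrs {k : ℤ} (hk : 0 < k) {v : Cube} {d : Dir} (h : ¬ crs k v d) :
    fl k (v + d.vec) = fl k v := by
  obtain ⟨x, y, z⟩ := v
  cases d <;> simp only [crs] at h <;>
    simp only [fl, Dir.vec, Prod.mk_add_mk, add_zero, Prod.mk.injEq, true_and, and_true]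
  · exact div_succ_ndvd hk h
  · exact div_pred_ndvd hk h
  · exact div_succ_ndvd hk h
  · exact div_pred_ndvd hk h
  · exact div_succ_ndvd hk h
  · exact div_pred_ndvd hk h

theorem crs_perp {k : ℤ} {v : Cube} {d t : Dir} (h : Dir.perp d t = true) :
    crs k (v + t.vec) d ↔ crs k v d := by
  obtain ⟨x, y, z⟩ := v
  cases d <;> cases t <;> first | (exact absurd h (by decide)) | skip
  all_goals simp [crs, Dir.vec]

theorem emod_pred {k b : ℤ} (hk : 0 < k) (h : b % k ≠ 0) : (b + -1) % k = b % k - 1 := by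
  have h1 := Int.mul_ediv_add_emod b k
  have h2 := Int.emod_nonneg b hk.ne'
  have h3 := Int.emod_lt_of_pos b hk
  have e : b + -1 = (b % k - 1) + k * (b / k) := by linarith
  rw [e, Int.add_mul_emod_self_left]
  exact Int.emod_eq_of_lt (by omega) (by omega)

theorem msr_nonneg {k : ℤ} (hk : 0 < k) (v : Cube) (t : Dir) : 0 ≤ msr k v t := by
  cases t <;> exact Int.emod_nonneg _ hk.ne'

theorem crs_iff {k : ℤ} (v : Cube) (t : Dir) : crs k v t ↔ msr k v t = 0 := by
  cases t <;> simp only [crs, msr]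
  · rw [← Int.dvd_iff_emod_eq_zero, dvd_neg]
  · rw [← Int.dvd_iff_emod_eq_zero]
  · rw [← Int.dvd_iff_emod_eq_zero, dvd_neg]
  · rw [← Int.dvd_iff_emod_eq_zero]
  · rw [← Int.dvd_iff_emod_eq_zero, dvd_neg]
  · rw [← Int.dvd_iff_emod_eq_zero]

theorem msr_step {k : ℤ} (hk : 0 < k) {v : Cube} {t : Dir} (h : ¬ crs k v t) :
    msr k (v + t.vec) t = msr k v t - 1 := by
  rw [crs_iff] at h
  obtain ⟨x, y, z⟩ := v
  cases t <;> simp only [msr, Dir.vec, Prod.mk_add_mk] at h ⊢
  · rw [← emod_pred hk h]; congr 1; ring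
  · exact emod_pred hk h
  · rw [← emod_pred hk h]; congr 1; ring
  · exact emod_pred hk h
  · rw [← emod_pred hk h]; congr 1; ring
  · exact emod_pred hk h

theorem isFace_dil {k : ℤ} (hk : 0 < k) {Q : Finset Cube} {v : Cube} {d : Dir} :
    IsFace (dil k Q) (v, d) ↔ crs k v d ∧ IsFace Q (fl k v, d) := by
  unfold IsFace
  simp only
  rw [mem_dil hk, mem_dil hk]
  constructor
  · rintro ⟨h1, h2⟩
    by_cases hc : crs k v d
    · rw [fl_crs hk hc] at h2
      exact ⟨hc, h1, h2⟩
    · rw [fl_ncrs hk hc] at h2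
      exact absurd h1 h2
  · rintro ⟨hc, h1, h2⟩
    refine ⟨h1, ?_⟩
    rw [fl_crs hk hc]
    exact h2

/-- The block face of a face. -/
def pf (k : ℤ) (A : Face) : Face := (fl k A.1, A.2)

theorem nbr_dil_in {k : ℤ} (hk : 0 < k) {Q : Finset Cube} {v : Cube} {d t : Dir}
    (hF : IsFace (dil k Q) (v, d)) (ht : Dir.perp d t = true) (hc : ¬ crs k v t) :
    nbr (dil k Q) (v, d) t = ((v + t.vec, d), t.neg) := by
  obtain ⟨h1, h2, h3⟩ := (isFace_dil hk).1 hF
  simp only at h2 h3
  have e1 : v + t.vec + d.vec ∉ dil k Q := by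
    rw [mem_dil hk, fl_crs hk ((crs_perp ht).2 h1), fl_ncrs hk hc]
    exact h3
  have e2 : v + t.vec ∈ dil k Q := by
    rw [mem_dil hk, fl_ncrs hk hc]
    exact h2
  unfold nbr
  simp only
  rw [if_neg e1, if_pos e2]

theorem nbr_dil_out {k : ℤ} (hk : 0 < k) {Q : Finset Cube} {v : Cube} {d t : Dir}
    (hF : IsFace (dil k Q) (v, d)) (ht : Dir.perp d t = true) (hc : crs k v t) :
    pf k (nbr (dil k Q) (v, d) t).1 = (nbr Q (fl k v, d) t).1 := by
  obtain ⟨h1, h2, h3⟩ := (isFace_dil hk).1 hF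
  have f1 : fl k (v + t.vec + d.vec) = fl k v + t.vec + d.vec := by
    rw [fl_crs hk ((crs_perp ht).2 h1), fl_crs hk hc]
  have f2 : fl k (v + t.vec) = fl k v + t.vec := fl_crs hk hc
  have e1 : v + t.vec + d.vec ∈ dil k Q ↔ fl k v + t.vec + d.vec ∈ Q := by
    rw [mem_dil hk, f1]
  have e2 : v + t.vec ∈ dil k Q ↔ fl k v + t.vec ∈ Q := by
    rw [mem_dil hk, f2]
  unfold nbr pf
  simp only
  by_cases g1 : v + t.vec + d.vec ∈ dil k Q
  · rw [if_pos g1, if_pos (e1.1 g1)]
    simp only
    rw [f1]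
  · rw [if_neg g1, if_neg (fun h => g1 (e1.2 h))]
    by_cases g2 : v + t.vec ∈ dil k Q
    · rw [if_pos g2, if_pos (e2.1 g2)]
      simp only
      rw [f2]
    · rw [if_neg g2, if_neg (fun h => g2 (e2.2 h))]

/-- One step on the surface. -/
def St (P : Finset Cube) (C D : Face) : Prop :=
  ∃ t, Dir.perp C.2 t = true ∧ D = (nbr P C t).1

theorem St.face {P : Finset Cube} {C D : Face} (h : St P C D) (hC : IsFace P C) :
    IsFace P D := by
  obtain ⟨t, -, rfl⟩ := h
  exact isFace_nbr hC

theorem St.symm {P : Finset Cube} {C D : Face} (h : St P C D) (hC : IsFace P C) : St P D C := by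
  obtain ⟨t, ht, rfl⟩ := h
  have h1 := Pool.Agent.Helper84.LD.nbr_nbr hC ht
  refine ⟨(nbr P C t).2, perp_nbr (v := C.1) (d := C.2) ht, ?_⟩
  rw [h1]

theorem rtg_face {P : Finset Cube} {C D : Face} (h : ReflTransGen (St P) C D)
    (hC : IsFace P C) : IsFace P D := by
  induction h with
  | refl => exact hC
  | tail _ h2 ih => exact h2.face ih

theorem rtg_symm {P : Finset Cube} {C D : Face} (h : ReflTransGen (St P) C D)
    (hC : IsFace P C) : ReflTransGen (St P) D C := by
  induction h with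
  | refl => exact ReflTransGen.refl
  | tail h1 h2 ih => exact ReflTransGen.head (h2.symm (rtg_face h1 hC)) ih

/-- Moving inside the block to its end. -/
theorem move {k : ℤ} (hk : 0 < k) {Q : Finset Cube} {d t : Dir} (ht : Dir.perp d t = true) :
    ∀ (n : ℕ) (v : Cube), msr k v t = n → IsFace (dil k Q) (v, d) →
    ∃ j : ℕ, IsFace (dil k Q) (v + j • t.vec, d) ∧ crs k (v + j • t.vec) t ∧
      fl k (v + j • t.vec) = fl k v ∧
      ReflTransGen (St (dil k Q)) (v, d) (v + j • t.vec, d) := by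
  intro n
  induction n with
  | zero =>
    intro v hv hF
    refine ⟨0, ?_, ?_, ?_, ?_⟩
    · rw [zero_smul, add_zero]; exact hF
    · rw [zero_smul, add_zero, crs_iff]; exact_mod_cast hv
    · rw [zero_smul, add_zero]
    · rw [zero_smul, add_zero]
  | succ n ih =>
    intro v hv hF
    have hc : ¬ crs k v t := by
      rw [crs_iff, hv]
      intro h
      have : ((n : ℤ) + 1) = 0 := by exact_mod_cast h
      omega
    have h1 := nbr_dil_in hk hF ht hc
    have h2 : IsFace (dil k Q) (v + t.vec, d) := by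
      have : IsFace (dil k Q) (nbr (dil k Q) (v, d) t).1 := isFace_nbr hF
      rw [h1] at this
      exact this
    obtain ⟨j, k1, k2, k3, k4⟩ := ih (v + t.vec) (by
      rw [msr_step hk hc, hv]; push_cast; ring) h2
    have e : v + t.vec + j • t.vec = v + (j + 1) • t.vec := by
      rw [add_smul, one_smul]; abel
    rw [e] at k1 k2 k3 k4
    refine ⟨j + 1, k1, k2, k3.trans (fl_ncrs hk hc), ReflTransGen.head ⟨t, ht, ?_⟩ k4⟩
    rw [h1]

theorem crs_perp_smul {k : ℤ} {v : Cube} {d t : Dir} (h : Dir.perp d t = true) (j : ℕ) :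
    crs k (v + j • t.vec) d ↔ crs k v d := by
  induction j with
  | zero => rw [zero_smul, add_zero]
  | succ j ih =>
    rw [add_smul, one_smul, ← add_assoc, crs_perp h, ih]

theorem eq_of_dvd_succ {k a b : ℤ} (hk : 0 < k) (ha : k ∣ a + 1) (hb : k ∣ b + 1)
    (h : a / k = b / k) : a = b := by
  have h1 := div_succ_dvd hk ha
  have h2 := div_succ_dvd hk hb
  have h3 := Int.mul_ediv_cancel' ha
  have h4 := Int.mul_ediv_cancel' hb
  rw [h1] at h3
  rw [h2] at h4
  rw [h] at h3
  linarith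

theorem eq_of_dvd {k a b : ℤ} (ha : k ∣ a) (hb : k ∣ b) (h : a / k = b / k) : a = b := by
  rw [← Int.mul_ediv_cancel' ha, ← Int.mul_ediv_cancel' hb, h]

theorem crs_cd {k : ℤ} (hk : 0 < k) {v w : Cube} {d : Dir} (hv : crs k v d) (hw : crs k w d)
    (h : fl k v = fl k w) : cd v d.axis = cd w d.axis := by
  obtain ⟨x, y, z⟩ := v
  obtain ⟨x', y', z'⟩ := w
  unfold fl at h
  simp only [Prod.mk.injEq] at h
  obtain ⟨h1, h2, h3⟩ := h
  cases d <;> simp only [crs] at hv hw
  · exact eq_of_dvd_succ hk hv hw h1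
  · exact eq_of_dvd hv hw h1
  · exact eq_of_dvd_succ hk hv hw h2
  · exact eq_of_dvd hv hw h2
  · exact eq_of_dvd_succ hk hv hw h3
  · exact eq_of_dvd hv hw h3

theorem cd_ext {v w : Cube} (h : ∀ a, cd v a = cd w a) : v = w :=
  Prod.ext (h 0) (Prod.ext (h 1) (h 2))

/-- Faces in the same block face are connected. -/
theorem fibre {k : ℤ} (hk : 0 < k) {Q : Finset Cube} {C D : Face} (hC : IsFace (dil k Q) C)
    (hD : IsFace (dil k Q) D) (h : pf k C = pf k D) : ReflTransGen (St (dil k Q)) C D := by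
  obtain ⟨v, d⟩ := C
  obtain ⟨w, d'⟩ := D
  unfold pf at h
  simp only [Prod.mk.injEq] at h
  obtain ⟨h1, rfl⟩ := h
  have key : ∀ d : Dir, ∃ t u : Dir, Dir.perp d t = true ∧ Dir.perp d u = true ∧
      Dir.perp t u = true ∧ ∀ a : Fin 3, a = d.axis ∨ a = t.axis ∨ a = u.axis := by decide
  obtain ⟨t, u, k1, k2, k3, k4⟩ := key d
  have go : ∀ v : Cube, IsFace (dil k Q) (v, d) → ∃ w : Cube, IsFace (dil k Q) (w, d) ∧
      crs k w t ∧ crs k w u ∧ fl k w = fl k v ∧ ReflTransGen (St (dil k Q)) (v, d) (w, d) := by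
    intro v hv
    obtain ⟨m, hm⟩ := Int.eq_ofNat_of_zero_le (msr_nonneg hk v t)
    obtain ⟨j, a1, a2, a3, a4⟩ := move hk k1 m v hm hv
    obtain ⟨m', hm'⟩ := Int.eq_ofNat_of_zero_le (msr_nonneg hk (v + j • t.vec) u)
    obtain ⟨i, b1, b2, b3, b4⟩ := move hk k2 m' _ hm' a1
    exact ⟨_, b1, (crs_perp_smul k3 i).2 a2, b2, b3.trans a3, a4.trans b4⟩
  obtain ⟨v', a1, a2, a3, a4, a5⟩ := go v hC
  obtain ⟨w', b1, b2, b3, b4, b5⟩ := go w hD
  have hfl : fl k v' = fl k w' := by rw [a4, b4, h1]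
  have he : v' = w' := by
    refine cd_ext (fun a => ?_)
    rcases k4 a with rfl | rfl | rfl
    · exact crs_cd hk ((isFace_dil hk).1 a1).1 ((isFace_dil hk).1 b1).1 hfl
    · exact crs_cd hk a2 b2 hfl
    · exact crs_cd hk a3 b3 hfl
  rw [← he] at b5
  exact a5.trans (rtg_symm b5 hD)

/-- The surface of the dilation is connected. -/
theorem surfConn_dil {k : ℤ} (hk : 0 < k) {Q : Finset Cube} (h : SurfConn Q) :
    SurfConn (dil k Q) := by
  have hproj : ∀ A, IsFace (dil k Q) A → IsFace Q (pf k A) := fun A hA =>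
    ((isFace_dil (v := A.1) (d := A.2) hk).1 hA).2
  intro C D hC hD
  have key : ∀ B, ReflTransGen (St Q) (pf k C) B →
      (∃ E, IsFace (dil k Q) E ∧ pf k E = B ∧ ReflTransGen (St (dil k Q)) C E) := by
    intro B hB
    induction hB with
    | refl => exact ⟨C, hC, rfl, ReflTransGen.refl⟩
    | @tail B B' _ h2 ih =>
      obtain ⟨⟨v, d⟩, hE, hEB, hCE⟩ := ih
      obtain ⟨t, ht, rfl⟩ := h2
      have hd : d = B.2 := congrArg Prod.snd hEB
      have hfv : fl k v = B.1 := congrArg Prod.fst hEB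
      rw [← hd] at ht
      obtain ⟨m, hm⟩ := Int.eq_ofNat_of_zero_le (msr_nonneg hk v t)
      obtain ⟨j, a1, a2, a3, a4⟩ := move hk ht m v hm hE
      have h3 := nbr_dil_out hk a1 ht a2
      refine ⟨(nbr (dil k Q) (v + j • t.vec, d) t).1, isFace_nbr a1, ?_, ?_⟩
      · rw [h3, a3, hfv, hd]
      · exact (hCE.trans a4).trans (ReflTransGen.single ⟨t, ht, rfl⟩)
  obtain ⟨E, hE, hEB, hCE⟩ := key (pf k D) (h _ _ (hproj C hC) (hproj D hD))
  exact hCE.trans (fibre hk hE hD hEB)

end conn

section tie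

/-- Faces with a given normal at a lattice point, by patterns. -/
theorem onF_iff {P : Finset Cube} {d : Dir} {v : Cube} : OnF P d v ↔
    ∃ o : Oct, inw o d.axis = d ∧ pat P v o = true ∧ pat P v (flp o d.axis) = false := by
  constructor
  · rintro ⟨⟨w, d'⟩, t, u, ⟨h1, h2⟩, rfl, h3, h4, h5, rfl⟩
    simp only at h1 h2 h3 h4
    have key : ∀ d t u : Dir, Dir.perp d t = true → Dir.perp d u = true → Dir.perp t u = true →
        ∃ o : Oct, inw o d.axis = d ∧ pp d + pp t + pp u + off o = 0 := by decide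
    obtain ⟨o, k1, k2⟩ := key d' t u h3 h4 h5
    have e : crn (w, d') t u + off o = w := by
      unfold crn
      simp only
      have : w + pp d' + pp t + pp u + off o = w + (pp d' + pp t + pp u + off o) := by abel
      rw [this, k2, add_zero]
    refine ⟨o, k1, ?_, ?_⟩
    · unfold pat
      rw [e, decide_eq_true_eq]
      exact h1
    · unfold pat
      rw [← off_inw, ← add_assoc, e, decide_eq_false_iff_not]
      simp only
      rw [k1]
      exact h2
  · rintro ⟨o, k1, h1, h2⟩
    unfold pat at h1 h2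
    rw [decide_eq_true_eq] at h1
    rw [← off_inw, ← add_assoc, decide_eq_false_iff_not, k1] at h2
    have key : ∀ (o : Oct) (d : Dir), inw o d.axis = d → ∃ t u : Dir, Dir.perp d t = true ∧
        Dir.perp d u = true ∧ Dir.perp t u = true ∧ off o + pp d + pp t + pp u = 0 := by decide
    obtain ⟨t, u, a1, a2, a3, a4⟩ := key o d k1
    refine ⟨(v + off o, d), t, u, ⟨h1, h2⟩, rfl, a1, a2, a3, ?_⟩
    unfold crn
    simp only
    have : v + off o + pp d + pp t + pp u = v + (off o + pp d + pp t + pp u) := by abel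
    rw [this, a4, add_zero]

theorem inw_mo {k : ℤ} {v : Cube} {o : Oct} {a : Fin 3} (h : Dv k v a) :
    inw (mo k v o) a = inw o a := by
  unfold Dv cd at h
  obtain ⟨x, y, z⟩ := o
  fin_cases a
  · simp only [Fin.zero_eta, if_true] at h
    unfold mo inw
    simp [h]
  · simp only [Fin.mk_one, Fin.isValue, one_ne_zero, if_false, if_true] at h
    unfold mo inw
    simp [h]
  · have e0 : ((2 : Fin 3) = 0) = False := by simp
    have e1 : ((2 : Fin 3) = 1) = False := by simp
    simp only [Fin.reduceFinMk, e0, e1, if_false] at h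
    unfold mo inw
    simp [h]

theorem onF_dil {k : ℤ} (hk : 0 < k) {Q : Finset Cube} {d : Dir} {v : Cube}
    (h : OnF (dil k Q) d v) : OnF Q d (fl k v) ∧ Dv k v d.axis := by
  rw [onF_iff] at h
  obtain ⟨o, h1, h2, h3⟩ := h
  rw [pat_dil hk] at h2 h3
  by_cases ha : Dv k v d.axis
  · refine ⟨?_, ha⟩
    rw [onF_iff]
    rw [mo_flp ha] at h3
    exact ⟨mo k v o, by rw [inw_mo ha]; exact h1, h2, h3⟩
  · rw [mo_flp' ha, h2] at h3
    exact Bool.noConfusion h3

theorem noOpp_dil {k : ℤ} (hk : 0 < k) {Q : Finset Cube} {d : Dir} (h : NoOpp Q d) :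
    NoOpp (dil k Q) d :=
  fun v h1 h2 => h (fl k v) (onF_dil hk h1).1 (onF_dil hk h2).1

theorem blk_dil (Q : Finset Cube) : Blk (dil 4 Q) := by
  intro v
  rw [mem_dil (by norm_num), mem_dil (by norm_num)]
  unfold fl
  simp only
  rw [Int.mul_ediv_cancel_left _ (by norm_num : (4 : ℤ) ≠ 0)]

theorem flatEven_dil (Q : Finset Cube) : FlatEven (dil 4 Q) := by
  rintro ⟨v, d⟩ hA hW
  have h1 := ((isFace_dil (by norm_num : (0 : ℤ) < 4)).1 hA).1
  unfold Wall at hW
  have hW' : d.axis = 2 := not_not.1 hW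
  clear hW
  cases d <;> first | (exact absurd hW' (by decide)) | skip
  · have h2 : (4 : ℤ) ∣ v.2.2 + 1 := h1
    rw [lev_pz]
    omega
  · have h2 : (4 : ℤ) ∣ v.2.2 := h1
    rw [lev_nz]
    omega

/-- The dilation by four of a polycube of the class. -/
theorem dil_class {Q : Finset Cube} (hman : Man Q) (hsurf : SurfConn Q)
    (heuler : (vertF Q).card + (faceF Q).card = (edgeF Q).card + 2) :
    Man (dil 4 Q) ∧ SurfConn (dil 4 Q) ∧
      (vertF (dil 4 Q)).card + (faceF (dil 4 Q)).card = (edgeF (dil 4 Q)).card + 2 ∧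
      Blk (dil 4 Q) ∧ FlatEven (dil 4 Q) ∧ ∀ d, NoOpp Q d → NoOpp (dil 4 Q) d :=
  ⟨man_dil (by norm_num) hman, surfConn_dil (by norm_num) hsurf,
    euler2_dil (by norm_num) hman heuler, blk_dil Q, flatEven_dil Q,
    fun _ h => noOpp_dil (by norm_num) h⟩

end tie

end Pool.Agent.Helper84.LD
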