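import Pool.Agent.Helper84.LD.BDefs
import Pool.Agent.Helper16.LD.Euler

/-!
# Fields with back steps on surfaces with Euler characteristic two (project LD, MP_409f7f_co)

If equally coloured vertices are connected by monochromatic edges, then the columns of a coloured
direction field with back steps are connected.
-/

set_option autoImplicit false

namespace Pool.Agent.Helper84.LD

open Pool.Agent.Helper17.UF Pool.Agent.Helper16.LD Relation

variable {P : Finset Cube} {σ : Bool} {e : Face → Dir} {c : Cube → Bool}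

/-- The side of `A` in the heading `h` is glued. -/
def GlB (P : Finset Cube) (σ : Bool) (e : Face → Dir) (c : Cube → Bool) (A : Face) :
    Hd → Prop
  | Hd.N => Cmp P σ e A Hd.N ∧ ¬ BackOut σ e c A ∧ ¬ BackIn σ e c (nb P σ e A Hd.N)
  | Hd.S => Cmp P σ e A Hd.S ∧ ¬ BackIn σ e c A ∧ ¬ BackOut σ e c (nb P σ e A Hd.S)
  | Hd.E => c (cr σ e A Hd.S Hd.E) ≠ c (cr σ e A Hd.N Hd.E)
  | Hd.W => c (cr σ e A Hd.S Hd.W) ≠ c (cr σ e A Hd.N Hd.W)

/-- The edge `ε` is a cut edge of the field. -/
def CutB (P : Finset Cube) (σ : Bool) (e : Face → Dir) (c : Cube → Bool) (ε : Sym2 Cube) : Prop :=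
  ∃ A h, IsFace P A ∧ ¬ GlB P σ e c A h ∧ ε = edg σ e A h

theorem IsBField.north (H : IsBField P σ e c) {A : Face} (hA : IsFace P A)
    (hc : Cmp P σ e A Hd.N) :
    cr σ e (nb P σ e A Hd.N) Hd.S Hd.E = cr σ e A Hd.N Hd.E ∧
    cr σ e (nb P σ e A Hd.N) Hd.S Hd.W = cr σ e A Hd.N Hd.W :=
  side_corners (H.perp A hA) (H.perp _ (isFace_nbr hA)) hc

theorem IsBField.east (H : IsBField P σ e c) {A : Face} (hA : IsFace P A)
    (hc : Cmp P σ e A Hd.E) :
    cr σ e (nb P σ e A Hd.E) Hd.S Hd.W = cr σ e A Hd.S Hd.E ∧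
    cr σ e (nb P σ e A Hd.E) Hd.N Hd.W = cr σ e A Hd.N Hd.E := by
  obtain ⟨s1, s2⟩ := side_corners (H.perp A hA) (H.perp _ (isFace_nbr hA)) hc
  simp only [Hd.left, Hd.opp] at s1 s2
  rw [cr_comm σ e _ Hd.W Hd.S, cr_comm σ e A Hd.E Hd.S] at s1
  rw [cr_comm σ e _ Hd.W Hd.N, cr_comm σ e A Hd.E Hd.N] at s2
  exact ⟨s1, s2⟩

theorem IsBField.west (H : IsBField P σ e c) {A : Face} (hA : IsFace P A)
    (hc : Cmp P σ e A Hd.W) :
    cr σ e (nb P σ e A Hd.W) Hd.S Hd.E = cr σ e A Hd.S Hd.W ∧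
    cr σ e (nb P σ e A Hd.W) Hd.N Hd.E = cr σ e A Hd.N Hd.W := by
  obtain ⟨s1, s2⟩ := side_corners (H.perp A hA) (H.perp _ (isFace_nbr hA)) hc
  simp only [Hd.left, Hd.opp] at s1 s2
  rw [cr_comm σ e _ Hd.E Hd.N, cr_comm σ e A Hd.W Hd.N] at s1
  rw [cr_comm σ e _ Hd.E Hd.S, cr_comm σ e A Hd.W Hd.S] at s2
  exact ⟨s2, s1⟩

/-- The neighbour over a glued side is glued from the other side. -/
theorem IsBField.gl_nb (H : IsBField P σ e c) {A : Face} (hA : IsFace P A) {h : Hd}
    (hg : GlB P σ e c A h) : Cmp P σ e A h ∧ GlB P σ e c (nb P σ e A h) h.opp := by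
  cases h with
  | N =>
    obtain ⟨k1, k2⟩ := Cmp.back hA (H.perp A hA) hg.1
    simp only [Hd.opp] at k1 k2
    refine ⟨hg.1, ?_⟩
    change Cmp P σ e _ Hd.S ∧ ¬ BackIn σ e c _ ∧ ¬ BackOut σ e c _
    rw [k2]
    exact ⟨k1, hg.2.2, hg.2.1⟩
  | S =>
    obtain ⟨k1, k2⟩ := Cmp.back hA (H.perp A hA) hg.1
    simp only [Hd.opp] at k1 k2
    refine ⟨hg.1, ?_⟩
    change Cmp P σ e _ Hd.N ∧ ¬ BackOut σ e c _ ∧ ¬ BackIn σ e c _
    rw [k2]
    exact ⟨k1, hg.2.2, hg.2.1⟩
  | E =>
    have hc := H.latE A hA hg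
    obtain ⟨e1, e2⟩ := H.east hA hc
    refine ⟨hc, ?_⟩
    change c (cr σ e _ Hd.S Hd.W) ≠ c (cr σ e _ Hd.N Hd.W)
    rw [e1, e2]; exact hg
  | W =>
    have hc := H.latW A hA hg
    obtain ⟨e1, e2⟩ := H.west hA hc
    refine ⟨hc, ?_⟩
    change c (cr σ e _ Hd.S Hd.E) ≠ c (cr σ e _ Hd.N Hd.E)
    rw [e1, e2]; exact hg

/-- A side is glued. -/
def GlSB (P : Finset Cube) (σ : Bool) (e : Face → Dir) (c : Cube → Bool) (s : Face × Dir) :
    Prop :=
  ∃ h : Hd, s.2 = dA σ e s.1 h ∧ GlB P σ e c s.1 h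

theorem IsBField.glS_nu (H : IsBField P σ e c) {s : Face × Dir} (hs : s ∈ sideF P)
    (hg : GlSB P σ e c s) : GlSB P σ e c (nu P s) := by
  obtain ⟨A, t⟩ := s
  obtain ⟨h, h1, h2⟩ := hg
  simp only at h1 h2
  have hA : IsFace P A := (mem_sideF.1 hs).1
  obtain ⟨h3, h4⟩ := H.gl_nb hA h2
  have h5 : nu P (A, t) = (nb P σ e A h, dA σ e (nb P σ e A h) h.opp) := by
    unfold nu
    simp only
    rw [h1]
    exact Prod.ext rfl h3
  rw [h5]
  exact ⟨h.opp, rfl, h4⟩

theorem IsBField.glS_nu_iff (H : IsBField P σ e c) {s : Face × Dir} (hs : s ∈ sideF P) :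
    GlSB P σ e c (nu P s) ↔ GlSB P σ e c s := by
  constructor
  · intro h
    have := H.glS_nu (nu_mem hs) h
    rwa [nu_nu hs] at this
  · exact H.glS_nu hs

open Classical in
/-- The faces with a glued side in the heading `h`. -/
noncomputable def gB (P : Finset Cube) (σ : Bool) (e : Face → Dir) (c : Cube → Bool) (h : Hd) :
    Finset Face := (faceF P).filter (fun A => GlB P σ e c A h)

theorem mem_gB {A : Face} {h : Hd} : A ∈ gB P σ e c h ↔ IsFace P A ∧ GlB P σ e c A h := by
  classical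
  unfold gB
  rw [Finset.mem_filter, mem_faceF]

theorem IsBField.nb_N_S (H : IsBField P σ e c) {A : Face} (hA : A ∈ gB P σ e c Hd.N) :
    nb P σ e A Hd.N ∈ gB P σ e c Hd.S ∧ nb P σ e (nb P σ e A Hd.N) Hd.S = A := by
  obtain ⟨h1, h2⟩ := mem_gB.1 hA
  obtain ⟨k1, k2⟩ := Cmp.back h1 (H.perp A h1) h2.1
  exact ⟨mem_gB.2 ⟨isFace_nbr h1, (H.gl_nb h1 h2).2⟩, k2⟩

theorem IsBField.nb_S_N (H : IsBField P σ e c) {A : Face} (hA : A ∈ gB P σ e c Hd.S) :
    nb P σ e A Hd.S ∈ gB P σ e c Hd.N ∧ nb P σ e (nb P σ e A Hd.S) Hd.N = A := by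
  obtain ⟨h1, h2⟩ := mem_gB.1 hA
  obtain ⟨k1, k2⟩ := Cmp.back h1 (H.perp A h1) h2.1
  exact ⟨mem_gB.2 ⟨isFace_nbr h1, (H.gl_nb h1 h2).2⟩, k2⟩

/-- Truth value as a number. -/
def tv (b : Bool) : ℤ := if b then 1 else 0

/-- Telescoping along the columns for one of the two lateral sides. -/
theorem count_sideB (F GN GS BO BI : Finset Face) (hN : GN ⊆ F) (hS : GS ⊆ F)
    (hBO : BO ⊆ F \ GN) (hBI : BI ⊆ F \ GS)
    (i j : Face → Face) (hi : ∀ A ∈ GN, i A ∈ GS ∧ j (i A) = A)
    (hj : ∀ A ∈ GS, j A ∈ GN ∧ i (j A) = A) (p q : Face → Bool)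
    (htop : ∀ A ∈ F \ GN, q A = true ↔ A ∉ BO) (hbot : ∀ A ∈ F \ GS, p A = true ↔ A ∈ BI)
    (hstep : ∀ A ∈ GN, p (i A) = q A) :
    ∑ A ∈ F, (tv (q A) - tv (p A)) = (F.card : ℤ) - GN.card - BO.card - BI.card := by
  classical
  have h2 : ∑ A ∈ F, tv (q A) = ∑ A ∈ GN, tv (q A) + (((F \ GN).card : ℤ) - BO.card) := by
    rw [← Finset.sum_sdiff hN, add_comm]
    congr 1
    have e1 : ∀ A ∈ F \ GN, tv (q A) = 1 - (if A ∈ BO then 1 else 0) := by
      intro A hA
      have := htop A hA
      by_cases hb : A ∈ BO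
      · rw [if_pos hb]
        have : ¬ q A = true := fun h => (this.1 h) hb
        unfold tv
        rw [if_neg this]
        norm_num
      · rw [if_neg hb]
        unfold tv
        rw [if_pos (this.2 hb)]
        norm_num
    rw [Finset.sum_congr rfl e1, Finset.sum_sub_distrib, Finset.sum_const, ← Finset.sum_filter,
      Finset.sum_const]
    have e2 : (F \ GN).filter (fun A => A ∈ BO) = BO := by
      ext A
      rw [Finset.mem_filter]
      exact ⟨fun h => h.2, fun h => ⟨hBO h, h⟩⟩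
    rw [e2]
    simp
  have h3 : ∑ A ∈ F, tv (p A) = ∑ A ∈ GS, tv (p A) + BI.card := by
    rw [← Finset.sum_sdiff hS, add_comm]
    congr 1
    have e1 : ∀ A ∈ F \ GS, tv (p A) = (if A ∈ BI then 1 else 0) := by
      intro A hA
      have := hbot A hA
      by_cases hb : A ∈ BI
      · rw [if_pos hb]
        unfold tv
        rw [if_pos (this.2 hb)]
      · rw [if_neg hb]
        have : ¬ p A = true := fun h => hb (this.1 h)
        unfold tv
        rw [if_neg this]
    rw [Finset.sum_congr rfl e1, ← Finset.sum_filter, Finset.sum_const]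
    have e2 : (F \ GS).filter (fun A => A ∈ BI) = BI := by
      ext A
      rw [Finset.mem_filter]
      exact ⟨fun h => h.2, fun h => ⟨hBI h, h⟩⟩
    rw [e2]
    simp
  have h4 : ∑ A ∈ GN, tv (q A) = ∑ A ∈ GS, tv (p A) := by
    refine Finset.sum_nbij' i j (fun A hA => (hi A hA).1) (fun A hA => (hj A hA).1)
      (fun A hA => (hi A hA).2) (fun A hA => (hj A hA).2) (fun A hA => ?_)
    rw [hstep A hA]
  have h5 : (F \ GN).card + GN.card = F.card := Finset.card_sdiff_add_card_eq_card hN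
  have h6 : ((F \ GN).card : ℤ) = F.card - GN.card := by
    rw [← h5]; push_cast; ring
  rw [Finset.sum_sub_distrib, h2, h3, h4, h6]
  ring

theorem card_diff (F D : Finset Face) (p q : Face → Bool)
    (hD : ∀ A, A ∈ D ↔ A ∈ F ∧ p A = true ∧ q A = false) :
    ((F.filter (fun A => p A ≠ q A)).card : ℤ) = ∑ A ∈ F, (tv (q A) - tv (p A)) + 2 * D.card := by
  classical
  have h1 : ((F.filter (fun A => p A ≠ q A)).card : ℤ) =
      ∑ A ∈ F, (if p A ≠ q A then (1 : ℤ) else 0) := by
    rw [← Finset.sum_filter, Finset.sum_const, nsmul_eq_mul, mul_one]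
  have h2 : (D.card : ℤ) = ∑ A ∈ F, (if p A = true ∧ q A = false then (1 : ℤ) else 0) := by
    rw [← Finset.sum_filter, Finset.sum_const, nsmul_eq_mul, mul_one]
    congr 2
    ext A
    rw [Finset.mem_filter, hD]
  rw [h1, h2, Finset.mul_sum, ← Finset.sum_add_distrib]
  refine Finset.sum_congr rfl (fun A _ => ?_)
  unfold tv
  cases p A <;> cases q A <;> simp

/-- The number of glued faces in the four headings. -/
theorem IsBField.count (H : IsBField P σ e c) :
    (gB P σ e c Hd.N).card + (gB P σ e c Hd.S).card + (gB P σ e c Hd.E).card +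
      (gB P σ e c Hd.W).card = 2 * (faceF P).card := by
  classical
  have hNS : (gB P σ e c Hd.N).card = (gB P σ e c Hd.S).card := by
    refine Finset.card_nbij' (fun A => nb P σ e A Hd.N) (fun A => nb P σ e A Hd.S)
      (fun A hA => (H.nb_N_S hA).1) (fun A hA => (H.nb_S_N hA).1)
      (fun A hA => (H.nb_N_S hA).2) (fun A hA => (H.nb_S_N hA).2)
  have hsub : ∀ h, gB P σ e c h ⊆ faceF P := fun h => Finset.filter_subset _ _
  set BO : Finset Face := (faceF P).filter (fun A => BackOut σ e c A) with hBO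
  set BI : Finset Face := (faceF P).filter (fun A => BackIn σ e c A) with hBI
  have mBO : ∀ A, A ∈ BO ↔ IsFace P A ∧ BackOut σ e c A := by
    intro A; rw [hBO, Finset.mem_filter, mem_faceF]
  have mBI : ∀ A, A ∈ BI ↔ IsFace P A ∧ BackIn σ e c A := by
    intro A; rw [hBI, Finset.mem_filter, mem_faceF]
  have sBO : BO ⊆ faceF P \ gB P σ e c Hd.N := by
    intro A hA
    obtain ⟨h1, h2⟩ := (mBO A).1 hA
    rw [Finset.mem_sdiff]
    exact ⟨mem_faceF.2 h1, fun h => (mem_gB.1 h).2.2.1 h2⟩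
  have sBI : BI ⊆ faceF P \ gB P σ e c Hd.S := by
    intro A hA
    obtain ⟨h1, h2⟩ := (mBI A).1 hA
    rw [Finset.mem_sdiff]
    exact ⟨mem_faceF.2 h1, fun h => (mem_gB.1 h).2.2.1 h2⟩
  -- the north sides of the tops
  have htop : ∀ A ∈ faceF P \ gB P σ e c Hd.N,
      (c (cr σ e A Hd.N Hd.E) = true ↔ A ∉ BO) ∧ (c (cr σ e A Hd.N Hd.W) = true ↔ A ∉ BO) := by
    intro A hA
    rw [Finset.mem_sdiff] at hA
    have hF := mem_faceF.1 hA.1
    by_cases hb : BackOut σ e c A
    · have h1 := (H.backOut A hF hb).2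
      have h2 := hb.2
      have h3 : A ∈ BO := (mBO A).2 ⟨hF, hb⟩
      rw [h1, h2]
      simp [h3]
    · have h3 : A ∉ BO := fun h => hb ((mBO A).1 h).2
      have : c (cr σ e A Hd.N Hd.E) = true ∧ c (cr σ e A Hd.N Hd.W) = true := by
        by_cases hc : Cmp P σ e A Hd.N
        · have hI : BackIn σ e c (nb P σ e A Hd.N) := by
            by_contra hn
            exact hA.2 (mem_gB.2 ⟨hF, hc, hb, hn⟩)
          obtain ⟨e1, e2⟩ := H.north hF hc
          rw [← e1, ← e2]
          exact ⟨hI.1, (H.backIn _ (isFace_nbr hF) hI).1⟩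
        · exact ⟨H.topE A hF hc, H.topW A hF hc⟩
      rw [this.1, this.2]
      simp [h3]
  have hbot : ∀ A ∈ faceF P \ gB P σ e c Hd.S,
      (c (cr σ e A Hd.S Hd.E) = true ↔ A ∈ BI) ∧ (c (cr σ e A Hd.S Hd.W) = true ↔ A ∈ BI) := by
    intro A hA
    rw [Finset.mem_sdiff] at hA
    have hF := mem_faceF.1 hA.1
    by_cases hb : BackIn σ e c A
    · have h1 := (H.backIn A hF hb).1
      have h2 := hb.1
      have h3 : A ∈ BI := (mBI A).2 ⟨hF, hb⟩
      rw [h1, h2]
      simp [h3]
    · have h3 : A ∉ BI := fun h => hb ((mBI A).1 h).2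
      have : c (cr σ e A Hd.S Hd.E) = false ∧ c (cr σ e A Hd.S Hd.W) = false := by
        by_cases hc : Cmp P σ e A Hd.S
        · have hI : BackOut σ e c (nb P σ e A Hd.S) := by
            by_contra hn
            exact hA.2 (mem_gB.2 ⟨hF, hc, hb, hn⟩)
          have hF' : IsFace P (nb P σ e A Hd.S) := isFace_nbr hF
          obtain ⟨k1, k2⟩ := Cmp.back hF (H.perp A hF) hc
          simp only [Hd.opp] at k1 k2
          obtain ⟨e1, e2⟩ := H.north hF' k1
          rw [k2] at e1 e2
          rw [e1, e2]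
          exact ⟨(H.backOut _ hF' hI).2, hI.2⟩
        · exact ⟨H.botE A hF hc, H.botW A hF hc⟩
      rw [this.1, this.2]
      simp [h3]
  have hE := count_sideB (faceF P) (gB P σ e c Hd.N) (gB P σ e c Hd.S) BO BI (hsub _) (hsub _)
    sBO sBI (fun A => nb P σ e A Hd.N) (fun A => nb P σ e A Hd.S) (fun A hA => H.nb_N_S hA)
    (fun A hA => H.nb_S_N hA) (fun A => c (cr σ e A Hd.S Hd.E)) (fun A => c (cr σ e A Hd.N Hd.E))
    (fun A hA => (htop A hA).1) (fun A hA => (hbot A hA).1)
    (fun A hA => congrArg c (H.north (mem_gB.1 hA).1 (mem_gB.1 hA).2.1).1)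
  have hW := count_sideB (faceF P) (gB P σ e c Hd.N) (gB P σ e c Hd.S) BO BI (hsub _) (hsub _)
    sBO sBI (fun A => nb P σ e A Hd.N) (fun A => nb P σ e A Hd.S) (fun A hA => H.nb_N_S hA)
    (fun A hA => H.nb_S_N hA) (fun A => c (cr σ e A Hd.S Hd.W)) (fun A => c (cr σ e A Hd.N Hd.W))
    (fun A hA => (htop A hA).2) (fun A hA => (hbot A hA).2)
    (fun A hA => congrArg c (H.north (mem_gB.1 hA).1 (mem_gB.1 hA).2.1).2)
  have eE := card_diff (faceF P) BI (fun A => c (cr σ e A Hd.S Hd.E))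
    (fun A => c (cr σ e A Hd.N Hd.E)) (fun A => by rw [mBI, mem_faceF]; rfl)
  have eW := card_diff (faceF P) BO (fun A => c (cr σ e A Hd.S Hd.W))
    (fun A => c (cr σ e A Hd.N Hd.W)) (fun A => by rw [mBO, mem_faceF]; rfl)
  have fE : (faceF P).filter (fun A => c (cr σ e A Hd.S Hd.E) ≠ c (cr σ e A Hd.N Hd.E)) =
      gB P σ e c Hd.E := by
    ext A
    rw [Finset.mem_filter, mem_gB, mem_faceF]
    rfl
  have fW : (faceF P).filter (fun A => c (cr σ e A Hd.S Hd.W) ≠ c (cr σ e A Hd.N Hd.W)) =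
      gB P σ e c Hd.W := by
    ext A
    rw [Finset.mem_filter, mem_gB, mem_faceF]
    rfl
  rw [fE, hE] at eE
  rw [fW, hW] at eW
  omega

open Classical in
/-- The sides that are not glued. -/
noncomputable def ngB (P : Finset Cube) (σ : Bool) (e : Face → Dir) (c : Cube → Bool) :
    Finset (Face × Dir) := (sideF P).filter (fun s => ¬ GlSB P σ e c s)

/-- The cut edges. -/
noncomputable def cutFB (P : Finset Cube) (σ : Bool) (e : Face → Dir) (c : Cube → Bool) :
    Finset (Sym2 Cube) := (ngB P σ e c).image (fun s => eg s.1 s.2)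

theorem IsBField.glS_iff (H : IsBField P σ e c) {A : Face} (hA : IsFace P A) (h : Hd) :
    GlSB P σ e c (A, dA σ e A h) ↔ GlB P σ e c A h := by
  constructor
  · rintro ⟨k, h1, h2⟩
    have : h = k := dirH_inj σ _ _ (H.perp A hA) _ _ h1
    rw [this]; exact h2
  · intro hg
    exact ⟨h, rfl, hg⟩

theorem IsBField.card_ngB (H : IsBField P σ e c) : (ngB P σ e c).card = 2 * (faceF P).card := by
  classical
  have h1 : ((sideF P).filter (fun s => GlSB P σ e c s)).card = 2 * (faceF P).card := by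
    have h2 : (sideF P).filter (fun s => GlSB P σ e c s) =
        (Finset.univ : Finset Hd).biUnion (fun h => (gB P σ e c h).image
          (fun A => (A, dA σ e A h))) := by
      ext ⟨A, t⟩
      rw [Finset.mem_filter, mem_sideF, Finset.mem_biUnion]
      constructor
      · rintro ⟨⟨h1, h2⟩, h, h3, h4⟩
        simp only at h1 h2 h3 h4
        exact ⟨h, Finset.mem_univ _, Finset.mem_image.2 ⟨A, mem_gB.2 ⟨h1, h4⟩, by rw [← h3]⟩⟩
      · rintro ⟨h, -, h1⟩
        obtain ⟨A', h2, h3⟩ := Finset.mem_image.1 h1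
        obtain ⟨h4, h5⟩ := mem_gB.1 h2
        rw [Prod.mk.injEq] at h3
        obtain ⟨rfl, rfl⟩ := h3
        exact ⟨⟨h4, perp_dirH σ _ _ (H.perp _ h4) h⟩, h, rfl, h5⟩
    rw [h2, Finset.card_biUnion]
    · have h3 : ∀ h : Hd, ((gB P σ e c h).image (fun A => (A, dA σ e A h))).card =
          (gB P σ e c h).card := fun h =>
        Finset.card_image_of_injective _ (fun a b hab => (Prod.mk.inj hab).1)
      have h4 := H.count
      have h5 : (Finset.univ : Finset Hd) = {Hd.E, Hd.N, Hd.W, Hd.S} := by decide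
      rw [h5, Finset.sum_insert (by decide), Finset.sum_insert (by decide),
        Finset.sum_insert (by decide), Finset.sum_singleton, h3, h3, h3, h3]
      omega
    · intro h _ k _ hhk
      rw [Function.onFun, Finset.disjoint_left]
      intro s hs hs'
      obtain ⟨A, hA, rfl⟩ := Finset.mem_image.1 hs
      obtain ⟨B, hB, hB'⟩ := Finset.mem_image.1 hs'
      rw [Prod.mk.injEq] at hB'
      obtain ⟨rfl, hB'⟩ := hB'
      exact hhk (dirH_inj σ _ _ (H.perp _ (mem_gB.1 hB).1) _ _ hB').symm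
  have h6 := Finset.card_filter_add_card_filter_not (s := sideF P)
    (p := fun s => GlSB P σ e c s)
  have h7 := card_sideF P
  have h8 : (ngB P σ e c).card = ((sideF P).filter (fun s => ¬ GlSB P σ e c s)).card := rfl
  omega

theorem IsBField.card_cutFB (H : IsBField P σ e c) (hman : Man P) :
    (cutFB P σ e c).card = (faceF P).card := by
  classical
  have h1 := H.card_ngB
  have h2 := card_image_eg hman (S := ngB P σ e c) (Finset.filter_subset _ _) (by
    intro s hs
    unfold ngB at hs ⊢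
    rw [Finset.mem_filter] at hs ⊢
    exact ⟨nu_mem hs.1, fun h => hs.2 ((H.glS_nu_iff hs.1).1 h)⟩)
  have h3 : (cutFB P σ e c).card = ((ngB P σ e c).image (fun s => eg s.1 s.2)).card := rfl
  omega

theorem IsBField.mem_cutFB (H : IsBField P σ e c) {ε : Sym2 Cube} :
    ε ∈ cutFB P σ e c ↔ CutB P σ e c ε := by
  classical
  unfold cutFB ngB CutB
  rw [Finset.mem_image]
  constructor
  · rintro ⟨⟨A, t⟩, hs, rfl⟩
    rw [Finset.mem_filter, mem_sideF] at hs
    obtain ⟨⟨h1, h2⟩, h3⟩ := hs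
    simp only at h1 h2
    obtain ⟨h, rfl⟩ := exists_hd σ _ _ _ (H.perp A h1) h2
    refine ⟨A, h, h1, fun hg => h3 ((H.glS_iff h1 h).2 hg), ?_⟩
    exact eg_eq_edg (H.perp A h1) h
  · rintro ⟨A, h, hA, hg, rfl⟩
    refine ⟨(A, dA σ e A h), ?_, eg_eq_edg (H.perp A hA) h⟩
    rw [Finset.mem_filter, mem_sideF]
    exact ⟨⟨hA, perp_dirH σ _ _ (H.perp _ hA) h⟩, fun hs => hg ((H.glS_iff hA h).1 hs)⟩

theorem IsBField.hgt_step (H : IsBField P σ e c) {A : Face} (hA : IsFace P A)
    (hc : Cmp P σ e A Hd.N) : hgt P σ e A = hgt P σ e (nb P σ e A Hd.N) + 1 := by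
  classical
  have h1 := H.noRing A hA
  have h2 := H.noRing _ (isFace_nbr (t := dA σ e A Hd.N) hA)
  change ∃ k : ℕ, ¬ Cmp P σ e ((fun B => nb P σ e B Hd.N)^[k] (nb P σ e A Hd.N)) Hd.N at h2
  unfold hgt
  rw [dif_pos h1, dif_pos h2]
  refine le_antisymm ?_ ?_
  · refine Nat.find_min' h1 ?_
    rw [Function.iterate_succ_apply]
    exact Nat.find_spec h2
  · have hpos : Nat.find h1 ≠ 0 := by
      intro h0
      have := Nat.find_spec h1
      rw [h0] at this
      exact this hc
    obtain ⟨m, hm⟩ := Nat.exists_eq_succ_of_ne_zero hpos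
    have h3 := Nat.find_spec h1
    rw [hm, Function.iterate_succ_apply] at h3
    have := Nat.find_min' h2 h3
    omega

theorem IsBField.exists_max (_H : IsBField P σ e c) :
    ∃ M : ℕ, ∀ A, IsFace P A → hgt P σ e A ≤ M := by
  obtain ⟨M, hM⟩ := ((finite_faces P).image (hgt P σ e)).bddAbove
  exact ⟨M, fun A hA => hM ⟨A, hA, rfl⟩⟩

/-- There is a face whose south side is not glued to a north side. -/
theorem IsBField.exists_bot (H : IsBField P σ e c) {A : Face} (hA : IsFace P A) :
    ∃ B, IsFace P B ∧ ¬ Cmp P σ e B Hd.S := by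
  obtain ⟨M, hM⟩ := H.exists_max
  have key : ∀ n : ℕ, ∀ A, IsFace P A → M - hgt P σ e A = n →
      ∃ B, IsFace P B ∧ ¬ Cmp P σ e B Hd.S := by
    intro n
    induction n using Nat.strong_induction_on with
    | _ n ih =>
      intro A hA hn
      by_cases h1 : Cmp P σ e A Hd.S
      · obtain ⟨k1, k2⟩ := Cmp.back hA (H.perp A hA) h1
        simp only [Hd.opp] at k1 k2
        have hA' : IsFace P (nb P σ e A Hd.S) := isFace_nbr hA
        have h3 := H.hgt_step hA' k1
        rw [k2] at h3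
        have h4 := hM _ hA'
        exact ih (M - hgt P σ e (nb P σ e A Hd.S)) (by omega) _ hA' rfl
      · exact ⟨A, hA, h1⟩
  exact key _ A hA rfl

section bypass

/-- Two vertices joined by cut edges. -/
abbrev CP (P : Finset Cube) (σ : Bool) (e : Face → Dir) (c : Cube → Bool) (x y : Cube) : Prop :=
  ReflTransGen (fun x y => CutB P σ e c s(x, y)) x y

theorem CP.symm {x y : Cube} (h : CP P σ e c x y) : CP P σ e c y x := by
  induction h with
  | refl => exact ReflTransGen.refl
  | tail _ h2 ih =>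
    refine ReflTransGen.head ?_ ih
    rw [Sym2.eq_swap]
    exact h2

theorem cp_N {A : Face} (hA : IsFace P A) (h : ¬ GlB P σ e c A Hd.N) :
    CP P σ e c (cr σ e A Hd.N Hd.W) (cr σ e A Hd.N Hd.E) :=
  ReflTransGen.single ⟨A, Hd.N, hA, h, rfl⟩

theorem cp_S {A : Face} (hA : IsFace P A) (h : ¬ GlB P σ e c A Hd.S) :
    CP P σ e c (cr σ e A Hd.S Hd.E) (cr σ e A Hd.S Hd.W) :=
  ReflTransGen.single ⟨A, Hd.S, hA, h, rfl⟩

theorem cp_E {A : Face} (hA : IsFace P A) (h : ¬ GlB P σ e c A Hd.E) :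
    CP P σ e c (cr σ e A Hd.N Hd.E) (cr σ e A Hd.S Hd.E) := by
  refine ReflTransGen.single ⟨A, Hd.E, hA, h, ?_⟩
  unfold edg
  rw [cr_comm σ e A Hd.N Hd.E, cr_comm σ e A Hd.S Hd.E]
  rfl

theorem cp_W {A : Face} (hA : IsFace P A) (h : ¬ GlB P σ e c A Hd.W) :
    CP P σ e c (cr σ e A Hd.S Hd.W) (cr σ e A Hd.N Hd.W) := by
  refine ReflTransGen.single ⟨A, Hd.W, hA, h, ?_⟩
  unfold edg
  rw [cr_comm σ e A Hd.N Hd.W, cr_comm σ e A Hd.S Hd.W]
  rfl

/-- The ends of a white rung are joined by cut edges above it. -/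
theorem IsBField.bypass_up (H : IsBField P σ e c) : ∀ n : ℕ, ∀ A, IsFace P A →
    hgt P σ e A = n → ¬ BackIn σ e c A → c (cr σ e A Hd.S Hd.W) = true →
    c (cr σ e A Hd.S Hd.E) = true →
    CP P σ e c (cr σ e A Hd.S Hd.W) (cr σ e A Hd.S Hd.E) := by
  intro n
  induction n with
  | zero =>
    intro A hA hn hI h1 h2
    have hO : ¬ BackOut σ e c A := fun h => by
      have := (H.backOut A hA h).1
      rw [h2] at this
      exact absurd this (by decide)
    have h3 : c (cr σ e A Hd.N Hd.W) = true := by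
      by_contra h
      exact hO ⟨h1, by simpa using h⟩
    have h4 : c (cr σ e A Hd.N Hd.E) = true := by
      by_contra h
      exact hI ⟨h2, by simpa using h⟩
    have hn' : ¬ GlB P σ e c A Hd.N := by
      rintro ⟨hc, -, -⟩
      have := H.hgt_step hA hc
      omega
    refine (cp_W hA (fun h => h (by rw [h1, h3]))).trans ((cp_N hA hn').trans
      (cp_E hA (fun h => h (by rw [h2, h4]))))
  | succ n ih =>
    intro A hA hn hI h1 h2
    have hO : ¬ BackOut σ e c A := fun h => by
      have := (H.backOut A hA h).1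
      rw [h2] at this
      exact absurd this (by decide)
    have h3 : c (cr σ e A Hd.N Hd.W) = true := by
      by_contra h
      exact hO ⟨h1, by simpa using h⟩
    have h4 : c (cr σ e A Hd.N Hd.E) = true := by
      by_contra h
      exact hI ⟨h2, by simpa using h⟩
    have hmid : CP P σ e c (cr σ e A Hd.N Hd.W) (cr σ e A Hd.N Hd.E) := by
      by_cases hg : GlB P σ e c A Hd.N
      · obtain ⟨e1, e2⟩ := H.north hA hg.1
        have h5 := H.hgt_step hA hg.1
        have := ih (nb P σ e A Hd.N) (isFace_nbr hA) (by omega) hg.2.2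
          (by rw [e2]; exact h3) (by rw [e1]; exact h4)
        rw [e1, e2] at this
        exact this
      · exact cp_N hA hg
    exact (cp_W hA (fun h => h (by rw [h1, h3]))).trans (hmid.trans
      (cp_E hA (fun h => h (by rw [h2, h4]))))

/-- The ends of a black rung are joined by cut edges below it. -/
theorem IsBField.bypass_down (H : IsBField P σ e c) {M : ℕ}
    (hM : ∀ A, IsFace P A → hgt P σ e A ≤ M) : ∀ n : ℕ, ∀ A, IsFace P A →
    M - hgt P σ e A = n → ¬ BackOut σ e c A → c (cr σ e A Hd.N Hd.W) = false →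
    c (cr σ e A Hd.N Hd.E) = false →
    CP P σ e c (cr σ e A Hd.N Hd.W) (cr σ e A Hd.N Hd.E) := by
  intro n
  induction n using Nat.strong_induction_on with
  | _ n ih =>
    intro A hA hn hO h1 h2
    have hI : ¬ BackIn σ e c A := fun h => by
      have := (H.backIn A hA h).2
      rw [h1] at this
      exact absurd this (by decide)
    have h3 : c (cr σ e A Hd.S Hd.W) = false := by
      by_contra h
      exact hO ⟨by simpa using h, h1⟩
    have h4 : c (cr σ e A Hd.S Hd.E) = false := by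
      by_contra h
      exact hI ⟨by simpa using h, h2⟩
    have hmid : CP P σ e c (cr σ e A Hd.S Hd.W) (cr σ e A Hd.S Hd.E) := by
      by_cases hg : GlB P σ e c A Hd.S
      · obtain ⟨k1, k2⟩ := Cmp.back hA (H.perp A hA) hg.1
        simp only [Hd.opp] at k1 k2
        have hA' : IsFace P (nb P σ e A Hd.S) := isFace_nbr hA
        obtain ⟨e1, e2⟩ := H.north hA' k1
        rw [k2] at e1 e2
        have h5 := H.hgt_step hA' k1
        rw [k2] at h5
        have h6 := hM _ hA'
        have := ih (M - hgt P σ e (nb P σ e A Hd.S)) (by omega) (nb P σ e A Hd.S) hA' rfl hg.2.2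
          (by rw [← e2]; exact h3) (by rw [← e1]; exact h4)
        rw [← e1, ← e2] at this
        exact this
      · exact (cp_S hA hg).symm
    exact (cp_W hA (fun h => h (by rw [h1, h3]))).symm.trans (hmid.trans
      (cp_E hA (fun h => h (by rw [h2, h4]))).symm)

/-- The ends of a monochromatic edge are joined by cut edges. -/
theorem IsBField.mono_cp (H : IsBField P σ e c) {A : Face} (hA : IsFace P A) (h : Hd)
    (hm : c (cr σ e A h h.left) = c (cr σ e A h h.left.opp)) :
    CP P σ e c (cr σ e A h h.left) (cr σ e A h h.left.opp) := by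
  obtain ⟨M, hM⟩ := H.exists_max
  by_cases hg : GlB P σ e c A h
  swap
  · exact ReflTransGen.single ⟨A, h, hA, hg, rfl⟩
  -- a glued north side
  have north : ∀ A, IsFace P A → GlB P σ e c A Hd.N →
      c (cr σ e A Hd.N Hd.W) = c (cr σ e A Hd.N Hd.E) →
      CP P σ e c (cr σ e A Hd.N Hd.W) (cr σ e A Hd.N Hd.E) := by
    intro A hA hg hm
    cases hc : c (cr σ e A Hd.N Hd.W) with
    | false => exact H.bypass_down hM _ A hA rfl hg.2.1 hc (by rw [← hm]; exact hc)
    | true =>
      obtain ⟨e1, e2⟩ := H.north hA hg.1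
      have := H.bypass_up _ (nb P σ e A Hd.N) (isFace_nbr hA) rfl hg.2.2
        (by rw [e2]; exact hc) (by rw [e1, ← hm]; exact hc)
      rw [e1, e2] at this
      exact this
  cases h with
  | N => exact north A hA hg hm
  | S =>
    simp only [Hd.left, Hd.opp] at hm ⊢
    obtain ⟨k1, k2⟩ := Cmp.back hA (H.perp A hA) hg.1
    simp only [Hd.opp] at k1 k2
    have hA' : IsFace P (nb P σ e A Hd.S) := isFace_nbr hA
    obtain ⟨e1, e2⟩ := H.north hA' k1
    rw [k2] at e1 e2
    have := north _ hA' (H.gl_nb hA hg).2 (by rw [← e1, ← e2]; exact hm.symm)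
    rw [← e1, ← e2] at this
    exact this.symm
  | E =>
    simp only [Hd.left, Hd.opp] at hm
    rw [cr_comm σ e A Hd.E Hd.N, cr_comm σ e A Hd.E Hd.S] at hm
    exact absurd hm.symm hg
  | W =>
    simp only [Hd.left, Hd.opp] at hm
    rw [cr_comm σ e A Hd.W Hd.N, cr_comm σ e A Hd.W Hd.S] at hm
    exact absurd hm hg

end bypass

/-- The ends of a monochromatic edge of the surface are joined by cut edges. -/
theorem IsBField.edge_cp (H : IsBField P σ e c) {x y : Cube} (he : s(x, y) ∈ edgeF P)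
    (hxy : c x = c y) : CP P σ e c x y := by
  unfold edgeF at he
  rw [Finset.mem_image] at he
  obtain ⟨⟨A, t⟩, hs, heq⟩ := he
  rw [mem_sideF] at hs
  obtain ⟨h1, h2⟩ := hs
  simp only at h1 h2 heq
  obtain ⟨h, rfl⟩ := exists_hd σ _ _ _ (H.perp A h1) h2
  have h3 := eg_eq_edg (σ := σ) (H.perp A h1) h
  unfold dA at h3
  rw [h3] at heq
  unfold edg at heq
  rw [Sym2.eq_iff] at heq
  rcases heq with ⟨rfl, rfl⟩ | ⟨rfl, rfl⟩
  · exact H.mono_cp h1 h hxy
  · exact (H.mono_cp h1 h hxy.symm).symm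

/-- The columns of a field with back steps are connected. -/
theorem IsBField.conn_of_euler (H : IsBField P σ e c) (hman : Man P) (hsurf : SurfConn P)
    (heuler : (vertF P).card + (faceF P).card = (edgeF P).card + 2)
    (hcol : ∀ p ∈ vertF P, ∀ q ∈ vertF P, c p = c q →
      ReflTransGen (fun x y => s(x, y) ∈ edgeF P ∧ c x = c y) p q) :
    ∀ A B, IsFace P A → IsFace P B →
      EqvGen (fun C D => Up P σ e (UB P σ e c) C D ∨
        CrB P σ e (bkB σ e c) (XB P σ e c) C D) A B := by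
  classical
  intro A B hA hB
  have hE := card_edgeF hman
  have hcard : (cutFB P σ e c).card + 2 = (vertF P).card := by
    rw [H.card_cutFB hman]; omega
  have hsub : cutFB P σ e c ⊆ edgeF P := by
    unfold cutFB ngB edgeF
    exact Finset.image_subset_image (Finset.filter_subset _ _)
  have hcr : ∀ D, IsFace P D → ∀ h, h = Hd.N ∨ h = Hd.S → cr σ e D h Hd.E ∈ vertF P := by
    intro D hD h hh
    have key : ∀ (σ : Bool) (d e : Dir), Dir.perp d e = true → ∀ h : Hd, h = Hd.N ∨ h = Hd.S →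
        dirH σ d e Hd.E = Dir.cross d (dirH σ d e h) ∨
        dirH σ d e Hd.E = (Dir.cross d (dirH σ d e h)).neg := by decide
    unfold cr
    rw [← cnr_eq_crn]
    exact cnr_mem_vertF hD (perp_dirH σ _ _ (H.perp D hD) h) (key σ _ _ (H.perp D hD) h hh)
  -- a white vertex
  obtain ⟨w, hw, hwc⟩ : ∃ w ∈ vertF P, c w = true := by
    obtain ⟨k, hk⟩ := H.noRing A hA
    have hF : ∀ k : ℕ, IsFace P ((fun B => nb P σ e B Hd.N)^[k] A) := by
      intro k
      induction k with
      | zero => exact hA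
      | succ k ih => rw [Function.iterate_succ_apply']; exact isFace_nbr ih
    exact ⟨_, hcr _ (hF k) Hd.N (Or.inl rfl), H.topE _ (hF k) hk⟩
  -- a black vertex
  obtain ⟨b, hb, hbc⟩ : ∃ b ∈ vertF P, c b = false := by
    obtain ⟨D, hD, hDc⟩ := H.exists_bot hA
    exact ⟨_, hcr _ hD Hd.S (Or.inr rfl), H.botE _ hD hDc⟩
  have hcol' : ∀ p ∈ vertF P, ∀ q ∈ vertF P, c p = c q →
      ReflTransGen (fun x y => s(x, y) ∈ cutFB P σ e c) p q := by
    intro p hp q hq hpq
    have h1 := hcol p hp q hq hpq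
    have h2 : CP P σ e c p q := by
      clear hpq hq
      induction h1 with
      | refl => exact ReflTransGen.refl
      | tail _ h ih => exact ih.trans (H.edge_cp h.1 h.2)
    exact ReflTransGen.mono (fun x y h => H.mem_cutFB.2 h) _ _ h2
  let X : Finset Face := (faceF P).filter (fun D =>
    EqvGen (fun C D => Up P σ e (UB P σ e c) C D ∨
      CrB P σ e (bkB σ e c) (XB P σ e c) C D) A D)
  have hX := dual_connected hman hsurf hsub hcard c hcol' hw hb (by rw [hwc, hbc]; decide)
    (X := X) ⟨A, Finset.mem_filter.2 ⟨mem_faceF.2 hA, EqvGen.refl _⟩, hA⟩ (by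
      rintro ⟨C, t⟩ hs hCX hcut
      have hC := (mem_sideF.1 hs).1
      have hgl : GlSB P σ e c (C, t) := by
        by_contra hn
        refine hcut ?_
        unfold cutFB ngB
        exact Finset.mem_image_of_mem (fun s : Face × Dir => eg s.1 s.2)
          (Finset.mem_filter.2 ⟨hs, hn⟩)
      obtain ⟨h, h1, h2⟩ := hgl
      simp only at h1 h2 hC
      have h3 : (nu P (C, t)).1 = nb P σ e C h := by
        unfold nu
        simp only
        rw [h1]
        rfl
      rw [h3]
      refine Finset.mem_filter.2 ⟨mem_faceF.2 (isFace_nbr hC), ?_⟩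
      refine (Finset.mem_filter.1 hCX).2.trans _ _ _ ?_
      have hF' : IsFace P (nb P σ e C h) := isFace_nbr hC
      obtain ⟨h4, h5⟩ := H.gl_nb hC h2
      obtain ⟨k1, k2⟩ := Cmp.back hC (H.perp C hC) h4
      -- a side that is left by the curve
      have outE : ∀ D, IsFace P D → c (cr σ e D Hd.S Hd.E) = false →
          c (cr σ e D Hd.N Hd.E) = true → CrB P σ e (bkB σ e c) (XB P σ e c) D
            (nb P σ e D Hd.E) := by
        intro D hD g1 g2
        have hnb : bkB σ e c D = false := by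
          by_contra hb
          have := (H.backOut D hD (bkB_iff.1 (by simpa using hb))).2
          rw [g2] at this
          exact absurd this (by decide)
        refine ⟨⟨hD, Or.inl ⟨g1, g2⟩⟩, ?_⟩
        unfold nxtB hdB
        rw [hnb]
        rfl
      have outW : ∀ D, IsFace P D → BackOut σ e c D →
          CrB P σ e (bkB σ e c) (XB P σ e c) D (nb P σ e D Hd.W) := by
        intro D hD g
        refine ⟨⟨hD, Or.inr g⟩, ?_⟩
        unfold nxtB hdB
        rw [bkB_iff.2 g]
        rfl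
      cases h with
      | N => exact EqvGen.rel _ _ (Or.inl ⟨⟨hC, h2⟩, rfl⟩)
      | S =>
        simp only [Hd.opp] at h5 k2
        exact EqvGen.symm _ _ (EqvGen.rel _ _ (Or.inl ⟨⟨hF', h5⟩, k2⟩))
      | E =>
        simp only [Hd.opp] at h5 k2
        obtain ⟨e1, e2⟩ := H.east hC h4
        cases g1 : c (cr σ e C Hd.S Hd.E) with
        | false =>
          cases g2 : c (cr σ e C Hd.N Hd.E) with
          | false => exact absurd (g1.trans g2.symm) h2
          | true => exact EqvGen.rel _ _ (Or.inr (outE C hC g1 g2))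
        | true =>
          cases g2 : c (cr σ e C Hd.N Hd.E) with
          | true => exact absurd (g1.trans g2.symm) h2
          | false =>
            have := outW _ hF' ⟨by rw [e1]; exact g1, by rw [e2]; exact g2⟩
            rw [k2] at this
            exact EqvGen.symm _ _ (EqvGen.rel _ _ (Or.inr this))
      | W =>
        simp only [Hd.opp] at h5 k2
        obtain ⟨e1, e2⟩ := H.west hC h4
        cases g1 : c (cr σ e C Hd.S Hd.W) with
        | false =>
          cases g2 : c (cr σ e C Hd.N Hd.W) with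
          | false => exact absurd (g1.trans g2.symm) h2
          | true =>
            have := outE _ hF' (by rw [e1]; exact g1) (by rw [e2]; exact g2)
            rw [k2] at this
            exact EqvGen.symm _ _ (EqvGen.rel _ _ (Or.inr this))
        | true =>
          cases g2 : c (cr σ e C Hd.N Hd.W) with
          | true => exact absurd (g1.trans g2.symm) h2
          | false => exact EqvGen.rel _ _ (Or.inr (outW C hC ⟨g1, g2⟩)))
  exact (Finset.mem_filter.1 (hX B hB)).2

end Pool.Agent.Helper84.LD
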