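import Pool.Agent.Helper84.LD.Dil
import Pool.Agent.Helper53.GP.BadZ

/-!
# Dilations and screws (project TIE, MP_409f7f_co)
-/

set_option autoImplicit false

namespace Pool.Agent.Helper84.LD

open Pool.Agent.Helper17.UF Pool.Agent.Helper16.LD Pool.Agent.Helper53.GP Relation

theorem badZ_dil {k : ℤ} (hk : 0 < k) {Q : Finset Cube} (h : BadZ (dil k Q)) : BadZ Q := by
  obtain ⟨c, s1, s2, a1, a2, p0, p1, p2, p3, q1, q2, q3, q4⟩ := h
  have key : ∀ s1 s2 : Dir, s1.axis = 0 → s2.axis = 2 →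
      Dir.perp s1 s2 = true ∧ Dir.perp s2 s1 = true ∧
      Dir.perp (Dir.cross s1 s2) s1 = true ∧ Dir.perp (Dir.cross s1 s2) s2 = true := by decide
  obtain ⟨k12, k21, k31, k32⟩ := key s1 s2 a1 a2
  set s3 := Dir.cross s1 s2 with hs3
  rw [mem_dil hk] at p0 p1 p2 p3 q1 q2 q3 q4
  -- the three block boundaries are crossed
  have h2 : crs k c s2 := by
    by_contra hc
    rw [fl_ncrs hk hc] at q1
    exact q1 p0
  have h3 : crs k c s3 := by
    by_contra hc
    rw [fl_ncrs hk hc] at q2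
    exact q2 p0
  have h1 : crs k c s1 := by
    by_contra hc
    have hc' : ¬ crs k (c + s2.vec) s1 := by rw [crs_perp k12]; exact hc
    rw [show c + s1.vec + s2.vec = c + s2.vec + s1.vec by abel, fl_ncrs hk hc'] at p2
    exact q1 p2
  have e1 := fl_crs hk h1
  have e2 := fl_crs hk h2
  have e3 := fl_crs hk h3
  have e12 : fl k (c + s1.vec + s2.vec) = fl k c + s1.vec + s2.vec := by
    rw [fl_crs hk (by rw [crs_perp k21]; exact h2), e1]
  have e123 : fl k (c + s1.vec + s2.vec + s3.vec) = fl k c + s1.vec + s2.vec + s3.vec := by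
    rw [fl_crs hk (by rw [crs_perp k32, crs_perp k31]; exact h3), e12]
  have e23 : fl k (c + s2.vec + s3.vec) = fl k c + s2.vec + s3.vec := by
    rw [fl_crs hk (by rw [crs_perp k32]; exact h3), e2]
  have e13 : fl k (c + s1.vec + s3.vec) = fl k c + s1.vec + s3.vec := by
    rw [fl_crs hk (by rw [crs_perp k31]; exact h3), e1]
  refine ⟨fl k c, s1, s2, a1, a2, p0, ?_, ?_, ?_, ?_, ?_, ?_, ?_⟩
  · rw [← e1]; exact p1
  · rw [← e12]; exact p2
  · rw [← hs3, ← e123]; exact p3
  · rw [← e2]; exact q1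
  · rw [← hs3, ← e3]; exact q2
  · rw [← hs3, ← e23]; exact q3
  · rw [← hs3, ← e13]; exact q4

end Pool.Agent.Helper84.LD
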