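import Pool.Agent.Helper84.LD.Stretch

/-!
# Screws and phases of stretches (project TIE, MP_409f7f_co)
-/

set_option autoImplicit false

namespace Pool.Agent.Helper84.LD.Str

open Pool.Agent.Helper17.UF Pool.Agent.Helper16.LD Pool.Agent.Helper53.GP
  Pool.Agent.Helper84.LD Relation

/-! ### Screws with vertical middle axis -/

theorem badZ_str {s : Fin 3 → Stp} {Q : Finset Cube} (h : BadZ (str s Q)) : BadZ Q := by
  obtain ⟨c, s1, s2, a1, a2, p0, p1, p2, p3, q1, q2, q3, q4⟩ := h
  have key : ∀ s1 s2 : Dir, s1.axis = 0 → s2.axis = 2 →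
      Dir.perp s1 s2 = true ∧ Dir.perp s2 s1 = true ∧
      Dir.perp (Dir.cross s1 s2) s1 = true ∧ Dir.perp (Dir.cross s1 s2) s2 = true := by decide
  obtain ⟨k12, k21, k31, k32⟩ := key s1 s2 a1 a2
  set s3 := Dir.cross s1 s2 with hs3
  rw [mem_str] at p0 p1 p2 p3 q1 q2 q3 q4
  have h2 : crs s c s2 := by
    by_contra hc
    rw [fl_ncrs hc] at q1
    exact q1 p0
  have h3 : crs s c s3 := by
    by_contra hc
    rw [fl_ncrs hc] at q2
    exact q2 p0
  have h1 : crs s c s1 := by
    by_contra hc
    have hc' : ¬ crs s (c + s2.vec) s1 := by rw [crs_perp k12]; exact hc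
    rw [show c + s1.vec + s2.vec = c + s2.vec + s1.vec by abel, fl_ncrs hc'] at p2
    exact q1 p2
  have e1 := fl_crs h1
  have e2 := fl_crs h2
  have e3 := fl_crs h3
  have e12 : fl s (c + s1.vec + s2.vec) = fl s c + s1.vec + s2.vec := by
    rw [fl_crs (by rw [crs_perp k21]; exact h2), e1]
  have e123 : fl s (c + s1.vec + s2.vec + s3.vec) = fl s c + s1.vec + s2.vec + s3.vec := by
    rw [fl_crs (by rw [crs_perp k32, crs_perp k31]; exact h3), e12]
  have e23 : fl s (c + s2.vec + s3.vec) = fl s c + s2.vec + s3.vec := by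
    rw [fl_crs (by rw [crs_perp k32]; exact h3), e2]
  have e13 : fl s (c + s1.vec + s3.vec) = fl s c + s1.vec + s3.vec := by
    rw [fl_crs (by rw [crs_perp k31]; exact h3), e1]
  refine ⟨fl s c, s1, s2, a1, a2, p0, ?_, ?_, ?_, ?_, ?_, ?_, ?_⟩
  · rw [← e1]; exact p1
  · rw [← e12]; exact p2
  · rw [← hs3, ← e123]; exact p3
  · rw [← e2]; exact q1
  · rw [← hs3, ← e3]; exact q2
  · rw [← hs3, ← e23]; exact q3
  · rw [← hs3, ← e13]; exact q4

/-! ### Opposite faces at a lattice point -/

/-- There is a face with the normal `d` at the vertex, by patterns. -/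
def HasF (p : Oct → Bool) (d : Dir) : Prop :=
  ∃ o : Oct, inw o d.axis = d ∧ p o = true ∧ p (flp o d.axis) = false

instance (p : Oct → Bool) (d : Dir) : Decidable (HasF p d) := by unfold HasF; infer_instance

/-- Two opposite normals at a vertex: a pattern of an edge-manifold polycube that is constant along
some axis does not have them. -/
theorem pat_opp (p : Oct → Bool) (hm : ManP p) (a : Fin 3) (ha : ∀ o, p (flp o a) = p o)
    (d : Dir) (h1 : HasF p d) (h2 : HasF p d.neg) : False := by
  have key : ∀ n < 256, ∀ a : Fin 3, (∀ o, patN n (flp o a) = patN n o) → ManP (patN n) →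
      ∀ d : Dir, ¬ (HasF (patN n) d ∧ HasF (patN n) d.neg) := by
    decide +kernel
  obtain ⟨n, hn, rfl⟩ := exists_patN p
  exact key n hn a ha hm d ⟨h1, h2⟩

/-- Opposite faces of the stretch at a lattice point are at a block vertex. -/
theorem opp_bd {s : Fin 3 → Stp} {Q : Finset Cube} (hman : Man Q) {d : Dir} {v : Cube}
    (h1 : OnF (str s Q) d v) (h2 : OnF (str s Q) d.neg v) (a : Fin 3) : Dv s v a := by
  by_contra ha
  rw [onF_iff] at h1 h2
  refine pat_opp (pat (str s Q) v) (manP_str hman v) a (fun o => ?_) d h1 h2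
  rw [pat_str, pat_str, mo_flp' ha]

/-- Opposite faces of the stretch at `v`: `v` is a block vertex, and the same holds for `Q`. -/
theorem opp_str {s : Fin 3 → Stp} {Q : Finset Cube} (hman : Man Q) {d : Dir} {v : Cube}
    (h1 : OnF (str s Q) d v) (h2 : OnF (str s Q) d.neg v) :
    v = sc s (fl s v) ∧ OnF Q d (fl s v) ∧ OnF Q d.neg (fl s v) :=
  ⟨(sc_fl (opp_bd hman h1 h2)).symm, (onF_str h1).1, (onF_str h2).1⟩

/-- Heights: `v.2.2 = g (height of the block vertex)`. -/
theorem opp_height {s : Fin 3 → Stp} {Q : Finset Cube} (hman : Man Q) {d : Dir} {v : Cube}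
    (h1 : OnF (str s Q) d v) (h2 : OnF (str s Q) d.neg v) : v.2.2 = (s 2).g (fl s v).2.2 := by
  have := congrArg (fun w : Cube => w.2.2) (opp_str hman h1 h2).1
  exact this

/-! ### Construction of partitions -/

theorem g_grow {g : ℤ → ℤ} (hg : ∀ m, g m < g (m + 1)) (m : ℤ) (n : ℕ) : g m + n ≤ g (m + n) := by
  induction n with
  | zero => simp
  | succ n ih =>
    have := hg (m + n)
    push_cast
    rw [← add_assoc m]
    omega

/-- Every strictly increasing sequence defines a partition. -/
theorem exists_stp {g : ℤ → ℤ} (hg : ∀ m, g m < g (m + 1)) : ∃ s : Stp, s.g = g := by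
  have hlt : ∀ a b : ℤ, a < b → g a < g b := by
    intro a b hab
    obtain ⟨n, hn⟩ := Int.eq_ofNat_of_zero_le (show 0 ≤ b - a by omega)
    have := g_grow hg a n
    rw [show a + (n : ℤ) = b by omega] at this
    omega
  have hex : ∀ x : ℤ, ∃ m, g m ≤ x ∧ x < g (m + 1) := by
    intro x
    obtain ⟨m, hm, hmax⟩ := Int.exists_greatest_of_bdd (P := fun m => g m ≤ x)
      ⟨max 0 (x - g 0), by
        intro z hz
        by_contra hc
        rw [not_le] at hc
        obtain ⟨n, hn⟩ := Int.eq_ofNat_of_zero_le (show 0 ≤ z by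
          have := le_max_left 0 (x - g 0); omega)
        have h1 := g_grow hg 0 n
        rw [zero_add, ← hn] at h1
        have := le_max_right 0 (x - g 0)
        omega⟩
      (by
        rcases le_total (g 0) x with h | h
        · exact ⟨0, h⟩
        · obtain ⟨n, hn⟩ := Int.eq_ofNat_of_zero_le (show 0 ≤ g 0 - x by omega)
          have h1 := g_grow hg (-(n : ℤ)) n
          rw [neg_add_cancel] at h1
          exact ⟨-(n : ℤ), by omega⟩)
    refine ⟨m, hm, ?_⟩
    by_contra hc
    have := hmax (m + 1) (not_lt.1 hc)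
    omega
  choose f hf using hex
  refine ⟨⟨f, g, ?_, hg⟩, rfl⟩
  intro x m
  constructor
  · rintro rfl
    exact hf x
  · rintro ⟨h1, h2⟩
    obtain ⟨h3, h4⟩ := hf x
    rcases lt_trichotomy (f x) m with h | h | h
    · have : g (f x + 1) ≤ g m := by
        rcases (show f x + 1 ≤ m by omega).lt_or_eq with h5 | h5
        · exact (hlt _ _ h5).le
        · rw [h5]
      omega
    · exact h
    · have : g (m + 1) ≤ g (f x) := by
        rcases (show m + 1 ≤ f x by omega).lt_or_eq with h5 | h5
        · exact (hlt _ _ h5).le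
        · rw [h5]
      omega

/-- Blocks of length `k`. -/
def Stp.div (k : ℤ) (hk : 0 < k) : Stp where
  f := fun x => x / k
  g := fun m => k * m
  spec := by
    intro x m
    rw [Int.ediv_eq_iff_of_pos hk]
    constructor
    · rintro ⟨h1, h2⟩
      exact ⟨by linarith [mul_comm k m], by linarith [mul_comm k m, mul_add k m 1]⟩
    · rintro ⟨h1, h2⟩
      exact ⟨by linarith [mul_comm k m], by linarith [mul_comm k m, mul_add k m 1]⟩
  lt := by
    intro m
    show k * m < k * (m + 1)
    linarith [mul_add k m 1]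

/-- A partition with prescribed parities of the first elements, intervals of length at most 3. -/
theorem exists_parity (φ : ℤ → Bool) : ∃ s : Stp, ∀ m, (s.g m % 2 = if φ m then 1 else 0) ∧
    1 ≤ s.g (m + 1) - s.g m ∧ s.g (m + 1) - s.g m ≤ 3 := by
  obtain ⟨s, hs⟩ := exists_stp (g := fun m => 2 * m + if φ m then 1 else 0) (by
    intro m
    split_ifs <;> omega)
  refine ⟨s, fun m => ?_⟩
  have e1 : s.g m = 2 * m + if φ m then 1 else 0 := by rw [hs]
  have e2 : s.g (m + 1) = 2 * (m + 1) + if φ (m + 1) then 1 else 0 := by rw [hs]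
  rw [e1, e2]
  refine ⟨?_, ?_, ?_⟩ <;> split_ifs <;> omega

end Pool.Agent.Helper84.LD.Str
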