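import Pool.Agent.Helper84.LD.Back
import Pool.Agent.Helper84.LD.Col

/-!
# Coloured direction fields with back steps: definitions (project LD, MP_409f7f_co)
-/

set_option autoImplicit false

namespace Pool.Agent.Helper84.LD

open Pool.Agent.Helper17.UF Relation

/-- The curve leaves `A` to the west: the west side is white in the south and black in the
north. -/
def BackOut (σ : Bool) (e : Face → Dir) (c : Cube → Bool) (A : Face) : Prop :=
  c (cr σ e A Hd.S Hd.W) = true ∧ c (cr σ e A Hd.N Hd.W) = false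

/-- The curve enters `A` from the east: the east side is white in the south and black in the
north. -/
def BackIn (σ : Bool) (e : Face → Dir) (c : Cube → Bool) (A : Face) : Prop :=
  c (cr σ e A Hd.S Hd.E) = true ∧ c (cr σ e A Hd.N Hd.E) = false

/-- The faces from which the north side is glued. -/
def UB (P : Finset Cube) (σ : Bool) (e : Face → Dir) (c : Cube → Bool) : Set Face :=
  {A | IsFace P A ∧ Cmp P σ e A Hd.N ∧ ¬ BackOut σ e c A ∧ ¬ BackIn σ e c (nb P σ e A Hd.N)}

/-- The exits: a black and white east side or a back step. -/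
def XB (P : Finset Cube) (σ : Bool) (e : Face → Dir) (c : Cube → Bool) : Set Face :=
  {A | IsFace P A ∧ ((c (cr σ e A Hd.S Hd.E) = false ∧ c (cr σ e A Hd.N Hd.E) = true) ∨
    BackOut σ e c A)}

/-- The back steps. -/
def bkB (σ : Bool) (e : Face → Dir) (c : Cube → Bool) (A : Face) : Bool :=
  c (cr σ e A Hd.S Hd.W) && !c (cr σ e A Hd.N Hd.W)

theorem bkB_iff {σ : Bool} {e : Face → Dir} {c : Cube → Bool} {A : Face} :
    bkB σ e c A = true ↔ BackOut σ e c A := by
  unfold bkB BackOut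
  rw [Bool.and_eq_true, Bool.not_eq_true']

/-- The local rules of a coloured direction field with back steps. -/
structure IsBField (P : Finset Cube) (σ : Bool) (e : Face → Dir) (c : Cube → Bool) : Prop where
  perp : ∀ A, IsFace P A → Dir.perp A.2 (e A) = true
  topE : ∀ A, IsFace P A → ¬ Cmp P σ e A Hd.N → c (cr σ e A Hd.N Hd.E) = true
  topW : ∀ A, IsFace P A → ¬ Cmp P σ e A Hd.N → c (cr σ e A Hd.N Hd.W) = true
  botE : ∀ A, IsFace P A → ¬ Cmp P σ e A Hd.S → c (cr σ e A Hd.S Hd.E) = false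
  botW : ∀ A, IsFace P A → ¬ Cmp P σ e A Hd.S → c (cr σ e A Hd.S Hd.W) = false
  backOut : ∀ A, IsFace P A → BackOut σ e c A →
    c (cr σ e A Hd.S Hd.E) = false ∧ c (cr σ e A Hd.N Hd.E) = false
  backIn : ∀ A, IsFace P A → BackIn σ e c A →
    c (cr σ e A Hd.S Hd.W) = true ∧ c (cr σ e A Hd.N Hd.W) = true
  latE : ∀ A, IsFace P A → c (cr σ e A Hd.S Hd.E) ≠ c (cr σ e A Hd.N Hd.E) → Cmp P σ e A Hd.E
  latW : ∀ A, IsFace P A → c (cr σ e A Hd.S Hd.W) ≠ c (cr σ e A Hd.N Hd.W) → Cmp P σ e A Hd.W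
  noRing : ∀ A, IsFace P A →
    ∃ k : ℕ, ¬ Cmp P σ e ((fun B => nb P σ e B Hd.N)^[k] A) Hd.N

end Pool.Agent.Helper84.LD
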