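import Pool.Agent.Helper84.LD.Main

/-!
# Closed ladders with back steps give nets (project LD, MP_409f7f_co)

As `IsLadder`, but a column may be left to the west (a back step).  No two back steps follow each
other, and if a back step is preceded or followed by a step to the east, then the first of the
three columns is strictly below the third one, which lies in the same column of the plane.
-/

set_option autoImplicit false

namespace Pool.Agent.Helper84.LD

open Pool.Agent.Helper17.UF Relation

variable {P : Finset Cube} {σ : Bool} {e : Face → Dir} {U X : Set Face} {bk : Face → Bool}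
  {y : Face → ℤ}

/-- The heading of the exit `A`. -/
def hdB (bk : Face → Bool) (A : Face) : Hd := if bk A then Hd.W else Hd.E

/-- The face behind the exit `A`. -/
def nxtB (P : Finset Cube) (σ : Bool) (e : Face → Dir) (bk : Face → Bool) (A : Face) : Face :=
  nb P σ e A (hdB bk A)

/-- One step across an exit. -/
def CrB (P : Finset Cube) (σ : Bool) (e : Face → Dir) (bk : Face → Bool) (X : Set Face)
    (A B : Face) : Prop :=
  A ∈ X ∧ nxtB P σ e bk A = B

/-- A closed ladder with back steps. -/
structure IsLadderB (P : Finset Cube) (σ : Bool) (e : Face → Dir) (U X : Set Face)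
    (bk : Face → Bool) (y : Face → ℤ) : Prop where
  perp : ∀ A, IsFace P A → Dir.perp A.2 (e A) = true
  up_face : ∀ A ∈ U, IsFace P A
  up_cmp : ∀ A ∈ U, Cmp P σ e A Hd.N
  cr_face : ∀ A ∈ X, IsFace P A
  cr_cmp : ∀ A ∈ X, Cmp P σ e A (hdB bk A)
  ht : ∀ A ∈ U, y (nb P σ e A Hd.N) = y A + 1
  out : ∀ A, IsFace P A → ∃ B ∈ X, EqvGen (Up P σ e U) A B
  uniq_out : ∀ A ∈ X, ∀ B ∈ X, EqvGen (Up P σ e U) A B → A = B
  uniq_in : ∀ A ∈ X, ∀ B ∈ X,
    EqvGen (Up P σ e U) (nxtB P σ e bk A) (nxtB P σ e bk B) → A = B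
  noBB : ∀ A ∈ X, ∀ B ∈ X, EqvGen (Up P σ e U) (nxtB P σ e bk A) B → bk A = true → bk B = false
  order : ∀ A ∈ X, ∀ B ∈ X, EqvGen (Up P σ e U) (nxtB P σ e bk A) B → bk A ≠ bk B →
    ∀ F G, EqvGen (Up P σ e U) F A → EqvGen (Up P σ e U) G (nxtB P σ e bk B) →
      y F < y G + (y A - y (nxtB P σ e bk A)) + (y B - y (nxtB P σ e bk B))
  conn : ∀ A B, IsFace P A → IsFace P B →
    EqvGen (fun C D => Up P σ e U C D ∨ CrB P σ e bk X C D) A B

/-- Faces of one column at the same height coincide. -/
theorem IsLadderB.eq_of_height (h : IsLadderB P σ e U X bk y) {A B : Face}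
    (hAB : EqvGen (Up P σ e U) A B) (hy : y A = y B) : A = B := by
  have hf : ∀ a b c, Up P σ e U a b → Up P σ e U a c → b = c := by
    rintro a b c ⟨-, h1⟩ ⟨-, h2⟩
    exact h1.symm.trans h2
  have hi : ∀ a b c, Up P σ e U a c → Up P σ e U b c → a = b := by
    rintro a b c ⟨ha, h1⟩ ⟨hb, h2⟩
    have e1 := (Cmp.back (h.up_face a ha) (h.perp a (h.up_face a ha)) (h.up_cmp a ha)).2
    have e2 := (Cmp.back (h.up_face b hb) (h.perp b (h.up_face b hb)) (h.up_cmp b hb)).2
    rw [h1] at e1
    rw [h2] at e2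
    exact e1.symm.trans e2
  have mono : ∀ a b, ReflTransGen (Up P σ e U) a b → y a ≤ y b ∧ (y a = y b → a = b) := by
    intro a b hab
    induction hab with
    | refl => exact ⟨le_refl _, fun _ => rfl⟩
    | tail h1 h2 ih =>
      obtain ⟨h3, h4⟩ := h2
      have := h.ht _ h3
      rw [h4] at this
      exact ⟨by linarith [ih.1], fun h5 => by linarith [ih.1]⟩
  rcases eqvGen_comparable hf hi hAB with h1 | h1
  · exact (mono _ _ h1).2 hy
  · exact ((mono _ _ h1).2 hy.symm).symm

/-- Positions on a line, with steps `1` and isolated steps `-1`. -/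
theorem back_seq (x : ℕ → ℤ) (st : ℕ → Bool)
    (hx : ∀ k, x (k + 1) = x k + (if st k then -1 else 1))
    (hb : ∀ k, st k = true → st (k + 1) = false) {i j : ℕ} (hij : i < j) (h : x i = x j) :
    i + 2 ≤ j ∧ x (i + 2) = x i ∧ st i ≠ st (i + 1) := by
  have low : ∀ a d : ℕ, x a - 1 ≤ x (a + d) ∧ (st (a + d) = true → x a ≤ x (a + d)) := by
    intro a d
    induction d with
    | zero => exact ⟨by simp, fun _ => by simp⟩
    | succ d ih =>
      have h1 := hx (a + d)
      rw [show a + (d + 1) = a + d + 1 by ring]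
      by_cases hs : st (a + d) = true
      · rw [hs, if_pos rfl] at h1
        have h2 := ih.2 hs
        refine ⟨by linarith, fun h3 => ?_⟩
        rw [hb _ hs] at h3
        exact Bool.noConfusion h3
      · rw [Bool.not_eq_true] at hs
        rw [hs] at h1
        simp only [Bool.false_eq_true, if_false] at h1
        exact ⟨by linarith [ih.1], fun _ => by linarith [ih.1]⟩
  have h1 := hx i
  have hj1 : j ≠ i + 1 := by
    rintro rfl
    rw [← h] at h1
    split_ifs at h1 <;> linarith
  have h2 := hx (i + 1)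
  refine ⟨by omega, ?_⟩
  cases hs : st i with
  | false =>
    cases hs2 : st (i + 1) with
    | false =>
      exfalso
      rw [hs] at h1
      rw [hs2] at h2
      simp only [Bool.false_eq_true, if_false] at h1 h2
      have h3 := (low (i + 2) (j - (i + 2))).1
      rw [show i + 2 + (j - (i + 2)) = j by omega] at h3
      rw [show i + 1 + 1 = i + 2 by ring] at h2
      linarith
    | true =>
      rw [hs] at h1
      rw [hs2] at h2
      simp only [Bool.false_eq_true, if_false, if_true] at h1 h2
      refine ⟨?_, by simp⟩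
      rw [show i + 1 + 1 = i + 2 by ring] at h2
      linarith
  | true =>
    have hs2 := hb i hs
    rw [hs] at h1
    rw [hs2] at h2
    simp only [Bool.false_eq_true, if_false, if_true] at h1 h2
    refine ⟨?_, by simp [hs2]⟩
    rw [show i + 1 + 1 = i + 2 by ring] at h2
    linarith

/-- A closed ladder with back steps gives a net. -/
theorem IsLadderB.exists_net (h : IsLadderB P σ e U X bk y) : ∃ L : Set Pl, Net P σ L := by
  classical
  by_cases hne : ∃ A, IsFace P A
  swap
  · refine ⟨∅, ?_, ?_, ?_, ?_, ?_⟩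
    · intro A
      constructor
      · intro hA; exact absurd ⟨A, hA⟩ hne
      · rintro ⟨p, hp, -⟩; exact absurd hp (Set.notMem_empty p)
    · intro p hp; exact absurd hp (Set.notMem_empty p)
    · intro p hp; exact absurd hp (Set.notMem_empty p)
    · intro p hp; exact absurd hp (Set.notMem_empty p)
    · intro p hp; exact absurd hp (Set.notMem_empty p)
  obtain ⟨A0, hA0⟩ := hne
  have hXf : X.Finite := (finite_faces P).subset (fun A hA => h.cr_face A hA)
  let C := {A : Face // A ∈ X}
  haveI : Finite C := hXf.to_subtype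
  obtain ⟨B0, hB0, -⟩ := h.out A0 hA0
  let c0 : C := ⟨B0, hB0⟩
  have hoex : ∀ A : Face, ∃ c : C, IsFace P A → EqvGen (Up P σ e U) A c.1 := by
    intro A
    by_cases hA : IsFace P A
    · obtain ⟨B, hB, hAB⟩ := h.out A hA
      exact ⟨⟨B, hB⟩, fun _ => hAB⟩
    · exact ⟨c0, fun h' => absurd h' hA⟩
  choose o ho using hoex
  have col_eq : ∀ A B, IsFace P A → IsFace P B → EqvGen (Up P σ e U) A B → o A = o B := by
    intro A B hA hB hAB
    apply Subtype.ext
    exact h.uniq_out _ (o A).2 _ (o B).2
      (((ho A hA).symm.trans _ _ _ hAB).trans _ _ _ (ho B hB))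
  have oX : ∀ c : C, o c.1 = c := by
    intro c
    apply Subtype.ext
    exact (h.uniq_out _ c.2 _ (o c.1).2 (ho c.1 (h.cr_face _ c.2))).symm
  let s : C → C := fun c => o (nxtB P σ e bk c.1)
  have hnbE : ∀ c : C, IsFace P (nxtB P σ e bk c.1) := fun c => isFace_nbr (h.cr_face _ c.2)
  have hs : Function.Injective s := by
    intro a b hab
    apply Subtype.ext
    refine h.uniq_in _ a.2 _ b.2 ?_
    have h1 := ho _ (hnbE a)
    have h2 := ho _ (hnbE b)
    have h3 : o (nxtB P σ e bk a.1) = o (nxtB P σ e bk b.1) := hab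
    rw [h3] at h1
    exact h1.trans _ _ _ h2.symm
  have hconn : ∀ A B, EqvGen (fun C D => Up P σ e U C D ∨ CrB P σ e bk X C D) A B →
      EqvGen (fun a b => s a = b) (o A) (o B) := by
    intro A B hAB
    induction hAB with
    | rel C D hCD =>
      rcases hCD with hCD | hCD
      · have hC : IsFace P C := h.up_face _ hCD.1
        have hD : IsFace P D := by
          rw [← hCD.2]; exact isFace_nbr hC
        rw [col_eq C D hC hD (EqvGen.rel _ _ hCD)]
        exact EqvGen.refl _
      · obtain ⟨hC, hCD⟩ := hCD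
        have h1 : o C = ⟨C, hC⟩ := oX ⟨C, hC⟩
        refine EqvGen.rel _ _ ?_
        rw [h1, ← hCD]
    | refl x => exact EqvGen.refl _
    | symm _ _ _ ih => exact ih.symm
    | trans _ _ _ _ _ ih1 ih2 => exact ih1.trans _ _ _ ih2
  have hit : ∀ c : C, ∃ k : ℕ, s^[k] c0 = c := by
    intro c
    refine exists_iterate s hs ?_ c0 c
    intro a b
    have := hconn a.1 b.1 (h.conn _ _ (h.cr_face _ a.2) (h.cr_face _ b.2))
    rwa [oX, oX] at this
  let idx : C → ℕ := fun c => Nat.find (hit c)
  have hidx : ∀ c, s^[idx c] c0 = c := fun c => Nat.find_spec (hit c)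
  have hmin : ∀ c k, s^[k] c0 = c → idx c ≤ k := fun c k hk => Nat.find_min' (hit c) hk
  let f : C → ℤ := fun c => y c.1
  let g : C → ℤ := fun c => y (nxtB P σ e bk c.1)
  let z : ℕ → ℤ := shift s c0 f g
  let x : ℕ → ℤ := shift s c0 (fun c => if bk c.1 then -1 else 1) (fun _ => 0)
  have hz : ∀ k, z (k + 1) = z k + f (s^[k] c0) - g (s^[k] c0) := fun k => rfl
  have hx : ∀ k, x (k + 1) = x k + (if bk (s^[k] c0).1 then -1 else 1) := by
    intro k
    show x k + (if bk (s^[k] c0).1 then -1 else 1) - 0 = _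
    ring
  clear_value z x
  have hnxt : ∀ k, EqvGen (Up P σ e U) (nxtB P σ e bk (s^[k] c0).1) (s^[k + 1] c0).1 := by
    intro k
    rw [Function.iterate_succ_apply']
    exact ho _ (hnbE _)
  have hb : ∀ k, bk (s^[k] c0).1 = true → bk (s^[k + 1] c0).1 = false := by
    intro k hk
    exact h.noBB _ (s^[k] c0).2 _ (s^[k + 1] c0).2 (hnxt k) hk
  -- pieces in one column of the plane
  have hord : ∀ n i j : ℕ, j - i ≤ n → i < j → x i = x j → ∀ F G,
      EqvGen (Up P σ e U) F (s^[i] c0).1 → EqvGen (Up P σ e U) G (s^[j] c0).1 →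
      z i + y F < z j + y G := by
    intro n
    induction n with
    | zero => intro i j h1 h2; omega
    | succ n ih =>
      intro i j h1 h2 h3 F G hF hG
      obtain ⟨h4, h5, h6⟩ := back_seq x (fun k => bk (s^[k] c0).1) hx hb h2 h3
      have key : ∀ G', EqvGen (Up P σ e U) G' (s^[i + 2] c0).1 → z i + y F < z (i + 2) + y G' := by
        intro G' hG'
        have h7 := h.order _ (s^[i] c0).2 _ (s^[i + 1] c0).2 (hnxt i) h6 F G' hF
          (hG'.trans _ _ _ (hnxt (i + 1)).symm)
        have h8 := hz i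
        have h9 := hz (i + 1)
        rw [show i + 1 + 1 = i + 2 by ring] at h9
        simp only [f, g] at h8 h9
        linarith
      by_cases hj : j = i + 2
      · subst hj
        exact key G hG
      · refine lt_trans (key (s^[i + 2] c0).1 (EqvGen.refl _)) ?_
        exact ih (i + 2) j (by omega) (by omega) (h5.trans h3) _ G (EqvGen.refl _) hG
  let pos : Face → ℤ × ℤ := fun A => (x (idx (o A)), z (idx (o A)) + y A)
  let pl : Face → Pl := fun A => ⟨A, pos A, e A⟩
  let L : Set Pl := {p | ∃ A, IsFace P A ∧ p = pl A}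
  have hpl : ∀ A, IsFace P A → pl A ∈ L := fun A hA => ⟨A, hA, rfl⟩
  let S : Pl → Pl → Prop := fun x z => x ∈ L ∧ z ∈ L ∧ (Glue P σ x z ∨ Glue P σ z x)
  have Ssymm : ∀ x z, ReflTransGen S x z → ReflTransGen S z x := by
    intro x z hxz
    induction hxz with
    | refl => exact ReflTransGen.refl
    | tail _ h2 ih => exact ReflTransGen.head ⟨h2.2.1, h2.1, h2.2.2.symm⟩ ih
  have hcol : ∀ A B, EqvGen (Up P σ e U) A B → ReflTransGen S (pl A) (pl B) := by
    intro A B hAB
    induction hAB with
    | rel C D hCD =>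
      have hC : IsFace P C := h.up_face _ hCD.1
      have hD : IsFace P D := by
        rw [← hCD.2]; exact isFace_nbr hC
      have hoo : o C = o D := col_eq C D hC hD (EqvGen.rel _ _ hCD)
      refine ReflTransGen.single ⟨hpl C hC, hpl D hD, Or.inl ⟨Hd.N, ?_, ?_⟩⟩
      · have h1 := h.ht C hCD.1
        rw [hCD.2] at h1
        change (x (idx (o D)), z (idx (o D)) + y D) = (x (idx (o C)), z (idx (o C)) + y C) + Hd.N.vec
        rw [← hoo, h1]
        simp only [Hd.vec, Prod.mk_add_mk, add_zero, Prod.mk.injEq, true_and]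
        ring
      · have h1 := h.up_cmp C hCD.1
        have h2 : (nbr P C (dA σ e C Hd.N)).1 = D := hCD.2
        unfold Cmp at h1
        rw [show nb P σ e C Hd.N = D from hCD.2] at h1
        change nbr P C (dirH σ C.2 (e C) Hd.N) = (D, dirH σ D.2 (e D) Hd.S)
        exact Prod.ext h2 h1
    | refl x => exact ReflTransGen.refl
    | symm _ _ _ ih => exact Ssymm _ _ ih
    | trans _ _ _ _ _ ih1 ih2 => exact ih1.trans ih2
  have hbase : ∀ k : ℕ, ∀ c : C, idx c = k → ReflTransGen S (pl c0.1) (pl c.1) := by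
    intro k
    induction k with
    | zero =>
      intro c hc
      have := hidx c
      rw [hc] at this
      have h0 : c0 = c := this
      rw [← h0]
    | succ k ih =>
      intro c hc
      set c' : C := s^[k] c0 with hc'
      have hsc : s c' = c := by
        have := hidx c
        rw [hc, Function.iterate_succ_apply'] at this
        exact this
      have hk' : idx c' = k := by
        apply le_antisymm (hmin c' k rfl)
        have : idx c ≤ idx c' + 1 := by
          refine hmin c _ ?_
          rw [Function.iterate_succ_apply', hidx c', hsc]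
        omega
      refine (ih c' hk').trans ?_
      have hE := hnbE c'
      have hoE : o (nxtB P σ e bk c'.1) = c := hsc
      refine ReflTransGen.trans (b := pl (nxtB P σ e bk c'.1)) (ReflTransGen.single
        ⟨hpl _ (h.cr_face _ c'.2), hpl _ hE, Or.inl ⟨hdB bk c'.1, ?_, ?_⟩⟩) ?_
      · change (x (idx (o (nxtB P σ e bk c'.1))),
            z (idx (o (nxtB P σ e bk c'.1))) + y (nxtB P σ e bk c'.1)) =
          (x (idx (o c'.1)), z (idx (o c'.1)) + y c'.1) + (hdB bk c'.1).vec
        rw [hoE, oX, hk', hc, hx k, hz k, ← hc']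
        unfold hdB
        by_cases hbk : bk c'.1 = true
        · rw [if_pos hbk, if_pos hbk]
          simp only [Hd.vec, Prod.mk_add_mk, Prod.mk.injEq, f, g]
          exact ⟨trivial, by ring⟩
        · rw [if_neg hbk, if_neg hbk]
          simp only [Hd.vec, Prod.mk_add_mk, Prod.mk.injEq, f, g]
          exact ⟨trivial, by ring⟩
      · have h1 := h.cr_cmp c'.1 c'.2
        unfold Cmp at h1
        change nbr P c'.1 (dirH σ c'.1.2 (e c'.1) (hdB bk c'.1)) = (nxtB P σ e bk c'.1,
          dirH σ (nxtB P σ e bk c'.1).2 (e (nxtB P σ e bk c'.1)) (hdB bk c'.1).opp)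
        exact Prod.ext rfl h1
      · have := hcol _ _ (ho _ hE)
        rwa [hoE] at this
  refine ⟨L, ?_, ?_, ?_, ?_, ?_⟩
  · intro A
    constructor
    · intro hA; exact ⟨pl A, hpl A hA, rfl⟩
    · rintro ⟨p, ⟨B, hB, rfl⟩, hp⟩
      have : B = A := hp
      rw [← this]; exact hB
  · rintro p ⟨A, hA, rfl⟩ p' ⟨B, hB, rfl⟩ hAB
    have : A = B := hAB
    rw [this]
  · rintro p ⟨A, hA, rfl⟩ p' ⟨B, hB, rfl⟩ hAB
    have h1 : (x (idx (o A)), z (idx (o A)) + y A) = (x (idx (o B)), z (idx (o B)) + y B) := hAB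
    rw [Prod.mk.injEq] at h1
    obtain ⟨h2, h3⟩ := h1
    have hoA : EqvGen (Up P σ e U) A (s^[idx (o A)] c0).1 := by
      rw [hidx]; exact ho A hA
    have hoB : EqvGen (Up P σ e U) B (s^[idx (o B)] c0).1 := by
      rw [hidx]; exact ho B hB
    rcases lt_trichotomy (idx (o A)) (idx (o B)) with h4 | h4 | h4
    · have := hord _ _ _ le_rfl h4 h2 A B hoA hoB
      exact absurd h3 (ne_of_lt this)
    · rw [h4] at h3
      have h6 : y A = y B := by linarith
      have h7 : EqvGen (Up P σ e U) A B := by
        rw [h4] at hoA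
        exact hoA.trans _ _ _ hoB.symm
      rw [h.eq_of_height h7 h6]
    · have := hord _ _ _ le_rfl h4 h2.symm B A hoB hoA
      exact absurd h3.symm (ne_of_lt this)
  · rintro p ⟨A, hA, rfl⟩
    exact h.perp A hA
  · have hall : ∀ A, IsFace P A → ReflTransGen S (pl c0.1) (pl A) := by
      intro A hA
      exact (hbase _ (o A) rfl).trans (Ssymm _ _ (hcol _ _ (ho A hA)))
    rintro p ⟨A, hA, rfl⟩ p' ⟨B, hB, rfl⟩
    exact (Ssymm _ _ (hall A hA)).trans (hall B hB)

/-- A closed ladder with back steps on the surface of a polycube gives an edge unfolding. -/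
theorem IsLadderB.unfolding (hE : EdgeOK P) (h : IsLadderB P σ e U X bk y) :
    HasEdgeUnfolding P := by
  obtain ⟨L, hL⟩ := h.exists_net
  exact net_unfolding_E hE hL

end Pool.Agent.Helper84.LD
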