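import Pool.Agent.Helper84.LD.Col

/-!
# Coloured direction fields with colours on the corners of faces (project LD, MP_409f7f_co)
-/

namespace Pool.Agent.Helper84.LD

open Pool.Agent.Helper17.UF Relation

/-- The colour of a corner of a face between two headings. -/
def crC (σ : Bool) (e : Face → Dir) (κ : Face → Dir → Dir → Bool) (A : Face) (h k : Hd) : Bool :=
  κ A (dA σ e A h) (dA σ e A k)

/-- A coloured direction field: the colours (true = white) increase along both lateral sides of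
every face, a side at the north that is not a south side of the other face is white, a side at
the south that is not a north side of the other face is black, and there are no rings. -/
structure IsFieldC (P : Finset Cube) (σ : Bool) (e : Face → Dir)
    (κ : Face → Dir → Dir → Bool) : Prop where
  comm : ∀ A t w, κ A t w = κ A w t
  nbr_eq : ∀ A t w, IsFace P A → Dir.perp A.2 t = true → Dir.perp A.2 w = true →
    Dir.perp t w = true → κ (nbr P A t).1 (nbr P A t).2 w = κ A t w
  perp : ∀ A, IsFace P A → Dir.perp A.2 (e A) = true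
  monoE : ∀ A, IsFace P A → crC σ e κ A Hd.S Hd.E = true → crC σ e κ A Hd.N Hd.E = true
  monoW : ∀ A, IsFace P A → crC σ e κ A Hd.S Hd.W = true → crC σ e κ A Hd.N Hd.W = true
  topE : ∀ A, IsFace P A → ¬ Cmp P σ e A Hd.N → crC σ e κ A Hd.N Hd.E = true
  topW : ∀ A, IsFace P A → ¬ Cmp P σ e A Hd.N → crC σ e κ A Hd.N Hd.W = true
  botE : ∀ A, IsFace P A → ¬ Cmp P σ e A Hd.S → crC σ e κ A Hd.S Hd.E = false
  botW : ∀ A, IsFace P A → ¬ Cmp P σ e A Hd.S → crC σ e κ A Hd.S Hd.W = false
  noRing : ∀ A, IsFace P A →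
    ∃ k : ℕ, ¬ Cmp P σ e ((fun B => nb P σ e B Hd.N)^[k] A) Hd.N

/-- The side of `C` in some heading is bichromatic and leads to `D`. -/
def BiC (P : Finset Cube) (σ : Bool) (e : Face → Dir)
    (κ : Face → Dir → Dir → Bool) (C D : Face) : Prop :=
  IsFace P C ∧ ∃ h : Hd, nb P σ e C h = D ∧
    crC σ e κ C h h.left ≠ crC σ e κ C h h.left.opp

/-- Some side of the face is bichromatic. -/
def NonMonoC (σ : Bool) (e : Face → Dir) (κ : Face → Dir → Dir → Bool) (C : Face) : Prop :=
  ∃ h : Hd, crC σ e κ C h h.left ≠ crC σ e κ C h h.left.opp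

variable {P : Finset Cube} {σ : Bool} {e : Face → Dir} {κ : Face → Dir → Dir → Bool}

theorem IsFieldC.crComm (H : IsFieldC P σ e κ) (A : Face) (h k : Hd) :
    crC σ e κ A h k = crC σ e κ A k h := H.comm _ _ _

theorem perp_left : ∀ (σ : Bool) (d e : Dir), Dir.perp d e = true → ∀ h : Hd,
    Dir.perp (dirH σ d e h) (dirH σ d e h.left) = true ∧
    Dir.perp (dirH σ d e h) (dirH σ d e h.left.opp) = true := by decide

/-- If the side of `A` in the heading `h` is the side of `B` in the heading `k`, then the left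
end of one is the right end of the other. -/
theorem IsFieldC.side (H : IsFieldC P σ e κ) {A : Face} {h k : Hd} (hA : IsFace P A)
    (hk : (nbr P A (dA σ e A h)).2 = dA σ e (nb P σ e A h) k) :
    crC σ e κ (nb P σ e A h) k k.left = crC σ e κ A h h.left.opp ∧
    crC σ e κ (nb P σ e A h) k k.left.opp = crC σ e κ A h h.left := by
  have hp := H.perp A hA
  have hq := H.perp _ (isFace_nbr (t := dA σ e A h) hA)
  have hat : Dir.perp A.2 (dA σ e A h) = true := perp_dirH σ _ _ hp h
  have hcr := crσ_nbr (P := P) (v := A.1) σ hat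
  have hAA : (A.1, A.2) = A := rfl
  rw [hAA] at hcr
  have l1 : dA σ e A h.left = crσ σ A.2 (dA σ e A h) := dirH_left σ _ _ hp h
  have l2 : dA σ e (nb P σ e A h) k.left =
      crσ σ (nb P σ e A h).2 (dA σ e (nb P σ e A h) k) := dirH_left σ _ _ hq k
  have l3 : dA σ e (nb P σ e A h) k.left = dA σ e A h.left.opp := by
    rw [l2, ← hk]
    unfold nb
    rw [hcr, ← l1]
    exact (dirH_opp σ A.2 (e A) h.left).symm
  have l4 : dA σ e (nb P σ e A h) k.left.opp = dA σ e A h.left := by
    unfold dA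
    rw [dirH_opp]
    change (dA σ e (nb P σ e A h) k.left).neg = _
    rw [l3]
    unfold dA
    rw [dirH_opp, Dir.neg_neg]
  obtain ⟨q1, q2⟩ := perp_left σ A.2 (e A) hp h
  constructor
  · unfold crC
    rw [l3, ← hk]
    exact H.nbr_eq A _ _ hA hat (perp_dirH σ _ _ hp _) q2
  · unfold crC
    rw [l4, ← hk]
    exact H.nbr_eq A _ _ hA hat (perp_dirH σ _ _ hp _) q1

/-- A bichromatic east side is a west side of the other face. -/
theorem IsFieldC.cmpE (H : IsFieldC P σ e κ) {A : Face} (hA : IsFace P A)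
    (h1 : crC σ e κ A Hd.S Hd.E = false) (h2 : crC σ e κ A Hd.N Hd.E = true) :
    Cmp P σ e A Hd.E := by
  obtain ⟨k, hk⟩ := exists_back (σ := σ) H.perp Hd.E hA
  have hB : IsFace P (nb P σ e A Hd.E) := isFace_nbr hA
  obtain ⟨s1, s2⟩ := H.side hA hk
  simp only [Hd.left, Hd.opp] at s1 s2
  rw [H.crComm A Hd.E Hd.S] at s1
  rw [H.crComm A Hd.E Hd.N] at s2
  cases k with
  | W => exact hk
  | E =>
    exfalso
    have := H.monoE _ hB
    simp only [Hd.left, Hd.opp] at s1 s2
    rw [H.crComm _ Hd.S Hd.E, H.crComm _ Hd.N Hd.E, s1, s2, h1, h2] at this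
    exact absurd (this rfl) (by decide)
  | N =>
    exfalso
    have := H.topW _ hB (not_cmp_back H.perp hA hk (by decide))
    simp only [Hd.left, Hd.opp] at s1 s2
    rw [s1, h1] at this
    exact absurd this (by decide)
  | S =>
    exfalso
    have := H.botW _ hB (not_cmp_back H.perp hA hk (by decide))
    simp only [Hd.left, Hd.opp] at s1 s2
    rw [s2, h2] at this
    exact absurd this (by decide)

/-- A bichromatic west side is an east side of the other face. -/
theorem IsFieldC.cmpW (H : IsFieldC P σ e κ) {A : Face} (hA : IsFace P A)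
    (h1 : crC σ e κ A Hd.S Hd.W = false) (h2 : crC σ e κ A Hd.N Hd.W = true) :
    Cmp P σ e A Hd.W := by
  obtain ⟨k, hk⟩ := exists_back (σ := σ) H.perp Hd.W hA
  have hB : IsFace P (nb P σ e A Hd.W) := isFace_nbr hA
  obtain ⟨s1, s2⟩ := H.side hA hk
  simp only [Hd.left, Hd.opp] at s1 s2
  rw [H.crComm A Hd.W Hd.N] at s1
  rw [H.crComm A Hd.W Hd.S] at s2
  cases k with
  | E => exact hk
  | W =>
    exfalso
    have := H.monoW _ hB
    simp only [Hd.left, Hd.opp] at s1 s2
    rw [H.crComm _ Hd.S Hd.W, H.crComm _ Hd.N Hd.W, s1, s2, h1, h2] at this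
    exact absurd (this rfl) (by decide)
  | N =>
    exfalso
    have := H.topE _ hB (not_cmp_back H.perp hA hk (by decide))
    simp only [Hd.left, Hd.opp] at s1 s2
    rw [s2, h1] at this
    exact absurd this (by decide)
  | S =>
    exfalso
    have := H.botE _ hB (not_cmp_back H.perp hA hk (by decide))
    simp only [Hd.left, Hd.opp] at s1 s2
    rw [s1, h2] at this
    exact absurd this (by decide)

/-- The faces which the curve leaves through the east side. -/
def XC (P : Finset Cube) (σ : Bool) (e : Face → Dir) (κ : Face → Dir → Dir → Bool) : Set Face :=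
  {A | IsFace P A ∧ crC σ e κ A Hd.S Hd.E = false ∧ crC σ e κ A Hd.N Hd.E = true}

theorem IsFieldC.north (H : IsFieldC P σ e κ) {A : Face} (hA : IsFace P A)
    (hc : Cmp P σ e A Hd.N) :
    crC σ e κ (nb P σ e A Hd.N) Hd.S Hd.E = crC σ e κ A Hd.N Hd.E ∧
    crC σ e κ (nb P σ e A Hd.N) Hd.S Hd.W = crC σ e κ A Hd.N Hd.W :=
  H.side hA hc

theorem IsFieldC.east (H : IsFieldC P σ e κ) {A : Face} (hA : IsFace P A)
    (hc : Cmp P σ e A Hd.E) :
    crC σ e κ (nb P σ e A Hd.E) Hd.S Hd.W = crC σ e κ A Hd.S Hd.E ∧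
    crC σ e κ (nb P σ e A Hd.E) Hd.N Hd.W = crC σ e κ A Hd.N Hd.E := by
  obtain ⟨s1, s2⟩ := H.side hA hc
  simp only [Hd.left, Hd.opp] at s1 s2
  rw [H.crComm _ Hd.W Hd.S, H.crComm A Hd.E Hd.S] at s1
  rw [H.crComm _ Hd.W Hd.N, H.crComm A Hd.E Hd.N] at s2
  exact ⟨s1, s2⟩

theorem IsFieldC.hgt_step (H : IsFieldC P σ e κ) {A : Face} (hA : IsFace P A)
    (hc : Cmp P σ e A Hd.N) : hgt P σ e A = hgt P σ e (nb P σ e A Hd.N) + 1 := by
  classical
  have h1 := H.noRing A hA
  have h2 := H.noRing _ (isFace_nbr (t := dA σ e A Hd.N) hA)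
  change ∃ k : ℕ, ¬ Cmp P σ e ((fun B => nb P σ e B Hd.N)^[k] (nb P σ e A Hd.N)) Hd.N at h2
  unfold hgt
  rw [dif_pos h1, dif_pos h2]
  refine le_antisymm ?_ ?_
  · refine Nat.find_min' h1 ?_
    rw [Function.iterate_succ_apply]
    exact Nat.find_spec h2
  · have hpos : Nat.find h1 ≠ 0 := by
      intro h0
      have := Nat.find_spec h1
      rw [h0] at this
      exact this hc
    obtain ⟨m, hm⟩ := Nat.exists_eq_succ_of_ne_zero hpos
    have h3 := Nat.find_spec h1
    rw [hm, Function.iterate_succ_apply] at h3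
    have := Nat.find_min' h2 h3
    omega

/-- Going up from a face whose south-east corner is black leads to a crossing. -/
theorem IsFieldC.exists_out (H : IsFieldC P σ e κ) :
    ∀ n : ℕ, ∀ A, IsFace P A → hgt P σ e A = n → crC σ e κ A Hd.S Hd.E = false →
      ∃ B ∈ XC P σ e κ, EqvGen (Up P σ e (UU P σ e)) A B := by
  intro n
  induction n with
  | zero =>
    intro A hA hn hc
    by_cases h1 : crC σ e κ A Hd.N Hd.E = true
    · exact ⟨A, ⟨hA, hc, h1⟩, EqvGen.refl _⟩
    · exfalso
      by_cases h2 : Cmp P σ e A Hd.N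
      · have := H.hgt_step hA h2
        omega
      · exact h1 (H.topE A hA h2)
  | succ n ih =>
    intro A hA hn hc
    by_cases h1 : crC σ e κ A Hd.N Hd.E = true
    · exact ⟨A, ⟨hA, hc, h1⟩, EqvGen.refl _⟩
    · by_cases h2 : Cmp P σ e A Hd.N
      · have h3 := H.hgt_step hA h2
        obtain ⟨B, hB, hAB⟩ := ih (nb P σ e A Hd.N) (isFace_nbr hA) (by omega) (by
          rw [(H.north hA h2).1]
          simpa using h1)
        exact ⟨B, hB, EqvGen.trans _ _ _ (EqvGen.rel _ _ ⟨⟨hA, h2⟩, rfl⟩) hAB⟩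
      · exact absurd (H.topE A hA h2) h1

/-- Every column has a bottom. -/
theorem IsFieldC.exists_bot (H : IsFieldC P σ e κ) :
    ∃ M : ℕ, (∀ A, IsFace P A → hgt P σ e A ≤ M) ∧
    ∀ n : ℕ, ∀ A, IsFace P A → M - hgt P σ e A = n →
      ∃ B, IsFace P B ∧ ¬ Cmp P σ e B Hd.S ∧ EqvGen (Up P σ e (UU P σ e)) A B := by
  obtain ⟨M, hM⟩ := ((finite_faces P).image (hgt P σ e)).bddAbove
  have hM' : ∀ A, IsFace P A → hgt P σ e A ≤ M := fun A hA => hM ⟨A, hA, rfl⟩
  refine ⟨M, hM', ?_⟩
  intro n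
  induction n using Nat.strong_induction_on with
  | _ n ih =>
    intro A hA hn
    by_cases h1 : Cmp P σ e A Hd.S
    · obtain ⟨k1, k2⟩ := Cmp.back hA (H.perp A hA) h1
      simp only [Hd.opp] at k1 k2
      have hA' : IsFace P (nb P σ e A Hd.S) := isFace_nbr hA
      have h3 := H.hgt_step hA' k1
      rw [k2] at h3
      have h4 := hM' _ hA'
      obtain ⟨B, hB, hBc, hAB⟩ := ih (M - hgt P σ e (nb P σ e A Hd.S)) (by omega) _ hA' rfl
      exact ⟨B, hB, hBc, EqvGen.trans _ _ _
        (EqvGen.symm _ _ (EqvGen.rel _ _ ⟨⟨hA', k1⟩, k2⟩)) hAB⟩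
    · exact ⟨A, hA, h1, EqvGen.refl _⟩

/-- Along a column, once white always white. -/
theorem IsFieldC.white_up (H : IsFieldC P σ e κ) {A B : Face}
    (hAB : ReflTransGen (Up P σ e (UU P σ e)) A B) (hA : IsFace P A) : A = B ∨
    ((crC σ e κ A Hd.N Hd.E = true → crC σ e κ B Hd.S Hd.E = true) ∧
     (crC σ e κ A Hd.N Hd.W = true → crC σ e κ B Hd.S Hd.W = true)) := by
  induction hAB with
  | refl => exact Or.inl rfl
  | tail h1 h2 ih =>
    right
    obtain ⟨⟨hC, hc⟩, rfl⟩ := h2
    obtain ⟨e1, e2⟩ := H.north hC hc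
    rcases ih with rfl | ⟨i1, i2⟩
    · exact ⟨fun h => by rw [e1]; exact h, fun h => by rw [e2]; exact h⟩
    · exact ⟨fun h => by rw [e1]; exact H.monoE _ hC (i1 h),
        fun h => by rw [e2]; exact H.monoW _ hC (i2 h)⟩

theorem IsFieldC.up_inj (H : IsFieldC P σ e κ) :
    ∀ a b d, Up P σ e (UU P σ e) a d → Up P σ e (UU P σ e) b d → a = b := by
  rintro a b d ⟨⟨ha, ha'⟩, h1⟩ ⟨⟨hb, hb'⟩, h2⟩
  have e1 := (Cmp.back ha (H.perp a ha) ha').2
  have e2 := (Cmp.back hb (H.perp b hb) hb').2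
  rw [h1] at e1
  rw [h2] at e2
  exact e1.symm.trans e2

/-- A coloured direction field whose curve is connected is a closed ladder. -/
theorem IsFieldC.isLadder (H : IsFieldC P σ e κ)
    (hconn : ∀ A B, IsFace P A → IsFace P B → NonMonoC σ e κ A → NonMonoC σ e κ B →
      EqvGen (BiC P σ e κ) A B) :
    IsLadder P σ e (UU P σ e) (XC P σ e κ) (fun A => -(hgt P σ e A : ℤ)) := by
  have hout : ∀ A, IsFace P A → ∃ B ∈ XC P σ e κ, EqvGen (Up P σ e (UU P σ e)) A B := by
    intro A hA
    obtain ⟨M, -, hb⟩ := H.exists_bot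
    obtain ⟨B, hB, hBc, hAB⟩ := hb _ A hA rfl
    obtain ⟨D, hD, hBD⟩ := H.exists_out _ B hB rfl (H.botE B hB hBc)
    exact ⟨D, hD, hAB.trans _ _ _ hBD⟩
  have hX : ∀ A, A ∈ XC P σ e κ → NonMonoC σ e κ A := by
    intro A hA
    refine ⟨Hd.E, ?_⟩
    simp only [Hd.left, Hd.opp]
    rw [H.crComm A Hd.E Hd.N, H.crComm A Hd.E Hd.S, hA.2.1, hA.2.2]
    decide
  have hBi : ∀ C D, BiC P σ e κ C D →
      EqvGen (fun C D => Up P σ e (UU P σ e) C D ∨ Cr P σ e (XC P σ e κ) C D) C D := by
    rintro C D ⟨hC, h, hD, hne⟩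
    cases h with
    | N =>
      simp only [Hd.left, Hd.opp] at hne
      by_cases hc : Cmp P σ e C Hd.N
      · exact EqvGen.rel _ _ (Or.inl ⟨⟨hC, hc⟩, hD⟩)
      · exact absurd ((H.topW C hC hc).trans (H.topE C hC hc).symm) hne
    | S =>
      simp only [Hd.left, Hd.opp] at hne
      by_cases hc : Cmp P σ e C Hd.S
      · obtain ⟨k1, k2⟩ := Cmp.back hC (H.perp C hC) hc
        rw [hD] at k1 k2
        exact EqvGen.symm _ _ (EqvGen.rel _ _ (Or.inl ⟨⟨by rw [← hD]; exact isFace_nbr hC, k1⟩,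
          k2⟩))
      · exact absurd ((H.botE C hC hc).trans (H.botW C hC hc).symm) hne
    | E =>
      simp only [Hd.left, Hd.opp] at hne
      rw [H.crComm C Hd.E Hd.N, H.crComm C Hd.E Hd.S] at hne
      have hm := H.monoE C hC
      cases h1 : crC σ e κ C Hd.S Hd.E with
      | true => exact absurd ((hm h1).trans h1.symm) hne
      | false =>
        cases h2 : crC σ e κ C Hd.N Hd.E with
        | false => exact absurd (h2.trans h1.symm) hne
        | true => exact EqvGen.rel _ _ (Or.inr ⟨⟨hC, h1, h2⟩, hD⟩)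
    | W =>
      simp only [Hd.left, Hd.opp] at hne
      rw [H.crComm C Hd.W Hd.N, H.crComm C Hd.W Hd.S] at hne
      have hm := H.monoW C hC
      cases h1 : crC σ e κ C Hd.S Hd.W with
      | true => exact absurd (h1.trans (hm h1).symm) hne
      | false =>
        cases h2 : crC σ e κ C Hd.N Hd.W with
        | false => exact absurd (h1.trans h2.symm) hne
        | true =>
          have hcW := H.cmpW hC h1 h2
          obtain ⟨k1, k2⟩ := Cmp.back hC (H.perp C hC) hcW
          simp only [Hd.opp] at k1 k2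
          have hD' : IsFace P (nb P σ e C Hd.W) := isFace_nbr hC
          obtain ⟨e1, e2⟩ := H.east hD' k1
          rw [k2] at e1 e2
          rw [hD] at e1 e2 k1 k2 hD'
          exact EqvGen.symm _ _ (EqvGen.rel _ _ (Or.inr ⟨⟨hD', by rw [← e1]; exact h1,
            by rw [← e2]; exact h2⟩, k2⟩))
  constructor
  · exact H.perp
  · exact fun A hA => hA.1
  · exact fun A hA => hA.2
  · exact fun A hA => hA.1
  · exact fun A hA => H.cmpE hA.1 hA.2.1 hA.2.2
  · intro A hA
    have := H.hgt_step hA.1 hA.2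
    change -(hgt P σ e (nb P σ e A Hd.N) : ℤ) = -(hgt P σ e A : ℤ) + 1
    rw [this]
    push_cast
    ring
  · exact hout
  · intro A hA B hB hAB
    rcases eqvGen_comparable up_func H.up_inj hAB with h | h
    · rcases H.white_up h hA.1 with h1 | ⟨h1, -⟩
      · exact h1
      · exact absurd ((h1 hA.2.2).symm.trans hB.2.1) (by decide)
    · rcases H.white_up h hB.1 with h1 | ⟨h1, -⟩
      · exact h1.symm
      · exact absurd ((h1 hB.2.2).symm.trans hA.2.1) (by decide)
  · intro A hA B hB hAB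
    have hcA := H.cmpE hA.1 hA.2.1 hA.2.2
    have hcB := H.cmpE hB.1 hB.2.1 hB.2.2
    obtain ⟨a1, a2⟩ := H.east hA.1 hcA
    obtain ⟨b1, b2⟩ := H.east hB.1 hcB
    have hFA : IsFace P (nb P σ e A Hd.E) := isFace_nbr hA.1
    have hFB : IsFace P (nb P σ e B Hd.E) := isFace_nbr hB.1
    have heq : nb P σ e A Hd.E = nb P σ e B Hd.E := by
      rcases eqvGen_comparable up_func H.up_inj hAB with h | h
      · rcases H.white_up h hFA with h1 | ⟨-, h1⟩
        · exact h1
        · rw [a2, b1] at h1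
          exact absurd ((h1 hA.2.2).symm.trans hB.2.1) (by decide)
      · rcases H.white_up h hFB with h1 | ⟨-, h1⟩
        · exact h1.symm
        · rw [b2, a1] at h1
          exact absurd ((h1 hB.2.2).symm.trans hA.2.1) (by decide)
    have e1 := (Cmp.back hA.1 (H.perp A hA.1) hcA).2
    have e2 := (Cmp.back hB.1 (H.perp B hB.1) hcB).2
    rw [heq] at e1
    exact e1.symm.trans e2
  · intro A B hA hB
    obtain ⟨A', hA', hAA'⟩ := hout A hA
    obtain ⟨B', hB', hBB'⟩ := hout B hB
    have h1 : EqvGen (fun C D => Up P σ e (UU P σ e) C D ∨ Cr P σ e (XC P σ e κ) C D) A' B' := by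
      have := hconn A' B' hA'.1 hB'.1 (hX _ hA') (hX _ hB')
      clear hAA' hBB' hA' hB'
      induction this with
      | rel x y h => exact hBi x y h
      | refl => exact EqvGen.refl _
      | symm _ _ _ ih => exact EqvGen.symm _ _ ih
      | trans _ _ _ _ _ ih1 ih2 => exact EqvGen.trans _ _ _ ih1 ih2
    exact ((eqvGen_mono' (fun _ _ h => Or.inl h) hAA').trans _ _ _ h1).trans _ _ _
      (eqvGen_mono' (fun _ _ h => Or.inl h) hBB').symm

/-- A coloured direction field with a connected curve gives an edge unfolding. -/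
theorem IsFieldC.unfolding (hE : EdgeOK P) (H : IsFieldC P σ e κ)
    (hconn : ∀ A B, IsFace P A → IsFace P B → NonMonoC σ e κ A → NonMonoC σ e κ B →
      EqvGen (BiC P σ e κ) A B) : HasEdgeUnfolding P :=
  (H.isLadder hconn).unfolding hE

end Pool.Agent.Helper84.LD
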