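import Pool.Agent.Helper16.LD.Count

/-!
# The Euler characteristic as a sum over the vertices (project LD, MP_409f7f_co)

`pat P v` is the pattern of the eight cubes at the lattice point `v`.  The number of boundary
faces with the corner `v` depends only on the pattern, and `4 V - 4 F` is the sum of
`4 - (number of faces at v)` over the vertices.
-/

set_option autoImplicit false

namespace Pool.Agent.Helper84.LD

open Pool.Agent.Helper17.UF Pool.Agent.Helper16.LD

/-- The octants at a lattice point (`true`: positive side). -/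
abbrev Oct := Bool × Bool × Bool

/-- Position of the cube in an octant. -/
def off (o : Oct) : Cube :=
  (if o.1 then 0 else -1, if o.2.1 then 0 else -1, if o.2.2 then 0 else -1)

/-- The cubes at the lattice point `v`. -/
def pat (P : Finset Cube) (v : Cube) (o : Oct) : Bool := decide (v + off o ∈ P)

/-- The octant on the other side along the axis `a`. -/
def flp (o : Oct) (a : Fin 3) : Oct :=
  if a = 0 then (!o.1, o.2.1, o.2.2) else if a = 1 then (o.1, !o.2.1, o.2.2)
  else (o.1, o.2.1, !o.2.2)

/-- The direction along the axis `a` that leads into the other octant. -/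
def inw (o : Oct) (a : Fin 3) : Dir :=
  if a = 0 then (if o.1 then Dir.nx else Dir.px)
  else if a = 1 then (if o.2.1 then Dir.ny else Dir.py)
  else (if o.2.2 then Dir.nz else Dir.pz)

theorem off_inw : ∀ (o : Oct) (a : Fin 3), off o + (inw o a).vec = off (flp o a) := by decide

theorem inw_axis : ∀ (o : Oct) (a : Fin 3), (inw o a).axis = a := by decide

theorem off_inj : ∀ o o' : Oct, off o = off o' → o = o' := by decide

/-- Number of faces at a vertex with the given pattern. -/
def nF (p : Oct → Bool) : ℕ :=
  ((Finset.univ : Finset (Oct × Fin 3)).filter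
    (fun x => p x.1 = true ∧ p (flp x.1 x.2) = false)).card

/-- The corners of a face. -/
def corners (A : Face) : Finset Cube :=
  ((Finset.univ : Finset Dir).filter (fun t => Dir.perp A.2 t = true)).image
    (fun t => cnr A t (Dir.cross A.2 t))

theorem card_corners (A : Face) : (corners A).card = 4 := by
  unfold corners
  rw [Finset.card_image_of_injOn]
  · have key : ∀ d : Dir, ((Finset.univ : Finset Dir).filter
      (fun t => Dir.perp d t = true)).card = 4 := by decide
    exact key A.2
  · intro t ht t' ht' h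
    rw [Finset.mem_coe, Finset.mem_filter] at ht ht'
    have key : ∀ d t t' : Dir, Dir.perp d t = true → Dir.perp d t' = true →
        up d + up t + up (Dir.cross d t) = up d + up t' + up (Dir.cross d t') → t = t' := by
      decide
    refine key A.2 t t' ht.2 ht'.2 ?_
    simp only [cnr] at h
    exact add_left_cancel h

theorem mem_corners {A : Face} {v : Cube} :
    v ∈ corners A ↔ ∃ t, Dir.perp A.2 t = true ∧ cnr A t (Dir.cross A.2 t) = v := by
  unfold corners
  rw [Finset.mem_image]
  constructor
  · rintro ⟨t, h1, h2⟩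
    rw [Finset.mem_filter] at h1
    exact ⟨t, h1.2, h2⟩
  · rintro ⟨t, h1, h2⟩
    exact ⟨t, Finset.mem_filter.2 ⟨Finset.mem_univ _, h1⟩, h2⟩

theorem mem_vertF {P : Finset Cube} {v : Cube} :
    v ∈ vertF P ↔ ∃ A, IsFace P A ∧ v ∈ corners A := by
  unfold vertF
  rw [Finset.mem_image]
  constructor
  · rintro ⟨⟨A, t⟩, h1, h2⟩
    rw [mem_sideF] at h1
    exact ⟨A, h1.1, mem_corners.2 ⟨t, h1.2, h2⟩⟩
  · rintro ⟨A, h1, h2⟩
    obtain ⟨t, h3, h4⟩ := mem_corners.1 h2
    exact ⟨(A, t), mem_sideF.2 ⟨h1, h3⟩, h4⟩

/-- The faces at a lattice point. -/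
def fAt (P : Finset Cube) (v : Cube) : Finset Face := (faceF P).filter (fun A => v ∈ corners A)

theorem fAt_eq (P : Finset Cube) (v : Cube) : fAt P v =
    ((Finset.univ : Finset (Oct × Fin 3)).filter
      (fun x => pat P v x.1 = true ∧ pat P v (flp x.1 x.2) = false)).image
      (fun x => (v + off x.1, inw x.1 x.2)) := by
  ext ⟨w, d⟩
  unfold fAt
  rw [Finset.mem_filter, Finset.mem_image, mem_faceF, mem_corners]
  constructor
  · rintro ⟨⟨h1, h2⟩, t, h3, h4⟩
    simp only at h1 h2 h3 h4
    have key : ∀ d t : Dir, Dir.perp d t = true → ∃ o : Oct,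
        off o + (up d + up t + up (Dir.cross d t)) = 0 ∧ inw o d.axis = d := by decide
    obtain ⟨o, k1, k2⟩ := key d t h3
    have hw : w = v + off o := by
      rw [← h4]
      unfold cnr
      simp only
      rw [add_assoc, add_comm (up d + up t + up (Dir.cross d t)), k1, add_zero]
    refine ⟨(o, d.axis), ?_, ?_⟩
    · rw [Finset.mem_filter]
      refine ⟨Finset.mem_univ _, ?_, ?_⟩
      · unfold pat
        rw [decide_eq_true_eq, ← hw]
        exact h1
      · unfold pat
        rw [decide_eq_false_iff_not, ← off_inw, k2, ← add_assoc, ← hw]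
        exact h2
    · simp only
      rw [k2, ← hw]
  · rintro ⟨⟨o, a⟩, h1, h2⟩
    rw [Finset.mem_filter] at h1
    obtain ⟨-, h3, h4⟩ := h1
    simp only [Prod.mk.injEq] at h2 h3 h4
    obtain ⟨rfl, rfl⟩ := h2
    unfold pat at h3 h4
    rw [decide_eq_true_eq] at h3
    rw [decide_eq_false_iff_not, ← off_inw, ← add_assoc] at h4
    refine ⟨⟨h3, h4⟩, ?_⟩
    have key : ∀ (o : Oct) (a : Fin 3), ∃ t : Dir, Dir.perp (inw o a) t = true ∧
        off o + (up (inw o a) + up t + up (Dir.cross (inw o a) t)) = 0 := by decide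
    obtain ⟨t, k1, k2⟩ := key o a
    refine ⟨t, k1, ?_⟩
    unfold cnr
    simp only
    rw [add_assoc, k2, add_zero]

theorem card_fAt (P : Finset Cube) (v : Cube) : (fAt P v).card = nF (pat P v) := by
  rw [fAt_eq, Finset.card_image_of_injective]
  · rfl
  · rintro ⟨o, a⟩ ⟨o', a'⟩ h
    simp only [Prod.mk.injEq] at h
    obtain ⟨h1, h2⟩ := h
    have h3 := off_inj _ _ (add_left_cancel h1)
    subst h3
    have h4 : a = a' := by
      rw [← inw_axis o a, ← inw_axis o a', h2]
    rw [h4]

theorem mem_vertF_iff {P : Finset Cube} {v : Cube} : v ∈ vertF P ↔ nF (pat P v) ≠ 0 := by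
  rw [← card_fAt, Finset.card_ne_zero, mem_vertF]
  constructor
  · rintro ⟨A, h1, h2⟩
    exact ⟨A, Finset.mem_filter.2 ⟨mem_faceF.2 h1, h2⟩⟩
  · rintro ⟨A, hA⟩
    unfold fAt at hA
    rw [Finset.mem_filter, mem_faceF] at hA
    exact ⟨A, hA.1, hA.2⟩

/-- A lattice point is a vertex iff its pattern is not constant. -/
theorem nF_eq_zero_iff (p : Oct → Bool) : nF p = 0 ↔ ∀ o o', p o = p o' := by
  unfold nF
  rw [Finset.card_eq_zero, Finset.filter_eq_empty_iff]
  constructor
  · intro h
    have step : ∀ o a, p o = p (flp o a) := by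
      intro o a
      have h1 := h (x := (o, a)) (Finset.mem_univ _)
      have h2 := h (x := (flp o a, a)) (Finset.mem_univ _)
      have key : ∀ (o : Oct) (a : Fin 3), flp (flp o a) a = o := by decide
      simp only [key] at h1 h2
      cases h3 : p o <;> cases h4 : p (flp o a)
      · rfl
      · exact absurd ⟨h4, h3⟩ h2
      · exact absurd ⟨h3, h4⟩ h1
      · rfl
    have e1 : ∀ a b c, p (a, b, c) = p (true, b, c) := by
      intro a b c
      cases a
      · exact step (false, b, c) 0
      · rfl
    have e2 : ∀ b c, p (true, b, c) = p (true, true, c) := by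
      intro b c
      cases b
      · exact step (true, false, c) 1
      · rfl
    have e3 : ∀ c, p (true, true, c) = p (true, true, true) := by
      intro c
      cases c
      · exact step (true, true, false) 2
      · rfl
    rintro ⟨a, b, c⟩ ⟨a', b', c'⟩
    rw [e1, e2, e3, e1 a', e2 b', e3 c']
  · rintro h x - ⟨h1, h2⟩
    rw [h x.1 (flp x.1 x.2), h2] at h1
    exact Bool.noConfusion h1

/-- The local contribution of a pattern. -/
def loc (p : Oct → Bool) : ℤ := if nF p = 0 then 0 else 4 - (nF p : ℤ)

/-- Four times `V - F` is the sum of the local contributions. -/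
theorem sum_loc {P : Finset Cube} {S : Finset Cube} (hS : vertF P ⊆ S) :
    ∑ v ∈ S, loc (pat P v) = 4 * ((vertF P).card : ℤ) - 4 * ((faceF P).card : ℤ) := by
  classical
  have h1 : ∑ v ∈ S, loc (pat P v) = ∑ v ∈ vertF P, loc (pat P v) := by
    symm
    refine Finset.sum_subset hS (fun v _ hv => ?_)
    rw [mem_vertF_iff, not_not] at hv
    unfold loc
    rw [if_pos hv]
  have h2 : ∑ v ∈ vertF P, loc (pat P v) =
      ∑ v ∈ vertF P, ((4 : ℤ) - ((fAt P v).card : ℤ)) := by
    refine Finset.sum_congr rfl (fun v hv => ?_)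
    rw [mem_vertF_iff] at hv
    unfold loc
    rw [if_neg hv, card_fAt]
  have h3 : ∑ v ∈ vertF P, (fAt P v).card = 4 * (faceF P).card := by
    unfold fAt
    have h4 := Finset.sum_card_bipartiteAbove_eq_sum_card_bipartiteBelow
      (s := vertF P) (t := faceF P) (fun v A => v ∈ corners A)
    have h5 : ∀ v, Finset.bipartiteAbove (fun v A => v ∈ corners A) (faceF P) v =
        (faceF P).filter (fun A => v ∈ corners A) := fun v => rfl
    have h6 : ∀ A ∈ faceF P, (Finset.bipartiteBelow (fun v A => v ∈ corners A) (vertF P) A).card =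
        4 := by
      intro A hA
      have : Finset.bipartiteBelow (fun v A => v ∈ corners A) (vertF P) A = corners A := by
        ext v
        unfold Finset.bipartiteBelow
        rw [Finset.mem_filter]
        exact ⟨fun h => h.2, fun h => ⟨mem_vertF.2 ⟨A, mem_faceF.1 hA, h⟩, h⟩⟩
      rw [this, card_corners]
    rw [Finset.sum_congr rfl h6, Finset.sum_const, smul_eq_mul, mul_comm] at h4
    rw [← h4]
    exact Finset.sum_congr rfl (fun v _ => by rw [h5])
  have h7 : ∑ v ∈ vertF P, ((fAt P v).card : ℤ) = 4 * ((faceF P).card : ℤ) := by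
    rw [← Nat.cast_sum, h3]
    push_cast
    ring
  rw [h1, h2, Finset.sum_sub_distrib, h7, Finset.sum_const, nsmul_eq_mul]
  ring

end Pool.Agent.Helper84.LD
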