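import Pool.Agent.Helper84.LD.Main

/-!
# Closed ladders give nets: a prescribed crossing is cut (project LD, MP_409f7f_co)
-/

namespace Pool.Agent.Helper84.LD

open Pool.Agent.Helper17.UF Relation

variable {P : Finset Cube} {σ : Bool} {e : Face → Dir} {U X : Set Face} {y : Face → ℤ}

/-- A closed ladder gives a net in which only one prescribed crossing is cut. -/
theorem IsLadder.exists_net_at (h : IsLadder P σ e U X y) {B1 : Face} (hB1 : B1 ∈ X) :
    ∃ pos : Face → ℤ × ℤ, Net P σ {p | ∃ A, IsFace P A ∧ p = ⟨A, pos A, e A⟩} ∧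
      (∀ A ∈ U, pos (nb P σ e A Hd.N) = pos A + (0, 1)) ∧
      (∀ A ∈ X, A ≠ B1 → pos (nb P σ e A Hd.E) = pos A + (1, 0)) := by
  classical
  have hXf : X.Finite := (finite_faces P).subset (fun A hA => h.cr_face A hA)
  let C := {A : Face // A ∈ X}
  haveI : Finite C := hXf.to_subtype
  obtain ⟨B0, hB0, hB0c⟩ := h.out (nb P σ e B1 Hd.E) (isFace_nbr (h.cr_face _ hB1))
  let c0 : C := ⟨B0, hB0⟩
  let c1 : C := ⟨B1, hB1⟩
  have hoex : ∀ A : Face, ∃ c : C, IsFace P A → EqvGen (Up P σ e U) A c.1 := by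
    intro A
    by_cases hA : IsFace P A
    · obtain ⟨B, hB, hAB⟩ := h.out A hA
      exact ⟨⟨B, hB⟩, fun _ => hAB⟩
    · exact ⟨c0, fun h' => absurd h' hA⟩
  choose o ho using hoex
  have col_eq : ∀ A B, IsFace P A → IsFace P B → EqvGen (Up P σ e U) A B → o A = o B := by
    intro A B hA hB hAB
    apply Subtype.ext
    exact h.uniq_out _ (o A).2 _ (o B).2
      (((ho A hA).symm.trans _ _ _ hAB).trans _ _ _ (ho B hB))
  have oX : ∀ c : C, o c.1 = c := by
    intro c
    apply Subtype.ext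
    exact (h.uniq_out _ c.2 _ (o c.1).2 (ho c.1 (h.cr_face _ c.2))).symm
  let s : C → C := fun c => o (nb P σ e c.1 Hd.E)
  have hnbE : ∀ c : C, IsFace P (nb P σ e c.1 Hd.E) := fun c => isFace_nbr (h.cr_face _ c.2)
  have hs : Function.Injective s := by
    intro a b hab
    apply Subtype.ext
    refine h.uniq_in _ a.2 _ b.2 ?_
    have h1 := ho _ (hnbE a)
    have h2 := ho _ (hnbE b)
    have h3 : o (nb P σ e a.1 Hd.E) = o (nb P σ e b.1 Hd.E) := hab
    rw [h3] at h1
    exact h1.trans _ _ _ h2.symm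
  have hs1 : s c1 = c0 := by
    apply Subtype.ext
    refine h.uniq_out _ (s c1).2 _ hB0 ?_
    exact (ho _ (hnbE c1)).symm.trans _ _ _ hB0c
  have hconn : ∀ A B, EqvGen (fun C D => Up P σ e U C D ∨ Cr P σ e X C D) A B →
      EqvGen (fun a b => s a = b) (o A) (o B) := by
    intro A B hAB
    induction hAB with
    | rel C D hCD =>
      rcases hCD with hCD | hCD
      · have hC : IsFace P C := h.up_face _ hCD.1
        have hD : IsFace P D := by
          rw [← hCD.2]; exact isFace_nbr hC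
        rw [col_eq C D hC hD (EqvGen.rel _ _ hCD)]
        exact EqvGen.refl _
      · obtain ⟨hC, hCD⟩ := hCD
        have h1 : o C = ⟨C, hC⟩ := oX ⟨C, hC⟩
        refine EqvGen.rel _ _ ?_
        rw [h1, ← hCD]
    | refl x => exact EqvGen.refl _
    | symm _ _ _ ih => exact ih.symm
    | trans _ _ _ _ _ ih1 ih2 => exact ih1.trans _ _ _ ih2
  have hit : ∀ c : C, ∃ k : ℕ, s^[k] c0 = c := by
    intro c
    refine exists_iterate s hs ?_ c0 c
    intro a b
    have := hconn a.1 b.1 (h.conn _ _ (h.cr_face _ a.2) (h.cr_face _ b.2))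
    rwa [oX, oX] at this
  let idx : C → ℕ := fun c => Nat.find (hit c)
  have hidx : ∀ c, s^[idx c] c0 = c := fun c => Nat.find_spec (hit c)
  have hmin : ∀ c k, s^[k] c0 = c → idx c ≤ k := fun c k hk => Nat.find_min' (hit c) hk
  have hsucc : ∀ c : C, c ≠ c1 → idx (s c) = idx c + 1 := by
    intro c hc
    apply le_antisymm
    · refine hmin _ _ ?_
      rw [Function.iterate_succ_apply', hidx]
    · have hne0 : idx (s c) ≠ 0 := by
        intro h0
        have := hidx (s c)
        rw [h0] at this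
        have h00 : c0 = s c := this
        rw [← hs1] at h00
        exact hc (hs h00.symm)
      obtain ⟨j, hj⟩ := Nat.exists_eq_succ_of_ne_zero hne0
      have := hidx (s c)
      rw [hj, Nat.succ_eq_add_one, Function.iterate_succ_apply'] at this
      have h1 := hmin c j (hs this)
      omega
  let f : C → ℤ := fun c => y c.1
  let g : C → ℤ := fun c => y (nb P σ e c.1 Hd.E)
  let pos : Face → ℤ × ℤ := fun A => ((idx (o A) : ℤ), shift s c0 f g (idx (o A)) + y A)
  let pl : Face → Pl := fun A => ⟨A, pos A, e A⟩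
  let L : Set Pl := {p | ∃ A, IsFace P A ∧ p = pl A}
  have hpl : ∀ A, IsFace P A → pl A ∈ L := fun A hA => ⟨A, hA, rfl⟩
  let S : Pl → Pl → Prop := fun x z => x ∈ L ∧ z ∈ L ∧ (Glue P σ x z ∨ Glue P σ z x)
  have Ssymm : ∀ x z, ReflTransGen S x z → ReflTransGen S z x := by
    intro x z hxz
    induction hxz with
    | refl => exact ReflTransGen.refl
    | tail _ h2 ih => exact ReflTransGen.head ⟨h2.2.1, h2.1, h2.2.2.symm⟩ ih
  have hcol : ∀ A B, EqvGen (Up P σ e U) A B → ReflTransGen S (pl A) (pl B) := by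
    intro A B hAB
    induction hAB with
    | rel C D hCD =>
      have hC : IsFace P C := h.up_face _ hCD.1
      have hD : IsFace P D := by
        rw [← hCD.2]; exact isFace_nbr hC
      have hoo : o C = o D := col_eq C D hC hD (EqvGen.rel _ _ hCD)
      refine ReflTransGen.single ⟨hpl C hC, hpl D hD, Or.inl ⟨Hd.N, ?_, ?_⟩⟩
      · have h1 := h.ht C hCD.1
        rw [hCD.2] at h1
        change (((idx (o D) : ℕ) : ℤ), shift s c0 f g (idx (o D)) + y D) =
          (((idx (o C) : ℕ) : ℤ), shift s c0 f g (idx (o C)) + y C) + Hd.N.vec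
        rw [← hoo, h1]
        simp only [Hd.vec, Prod.mk_add_mk, add_zero, Prod.mk.injEq, true_and]
        ring
      · have h1 := h.up_cmp C hCD.1
        have h2 : (nbr P C (dA σ e C Hd.N)).1 = D := hCD.2
        unfold Cmp at h1
        rw [show nb P σ e C Hd.N = D from hCD.2] at h1
        change nbr P C (dirH σ C.2 (e C) Hd.N) = (D, dirH σ D.2 (e D) Hd.S)
        exact Prod.ext h2 h1
    | refl x => exact ReflTransGen.refl
    | symm _ _ _ ih => exact Ssymm _ _ ih
    | trans _ _ _ _ _ ih1 ih2 => exact ih1.trans ih2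
  have hbase : ∀ k : ℕ, ∀ c : C, idx c = k → ReflTransGen S (pl c0.1) (pl c.1) := by
    intro k
    induction k with
    | zero =>
      intro c hc
      have := hidx c
      rw [hc] at this
      have h0 : c0 = c := this
      rw [← h0]
    | succ k ih =>
      intro c hc
      set c' : C := s^[k] c0 with hc'
      have hsc : s c' = c := by
        have := hidx c
        rw [hc, Function.iterate_succ_apply'] at this
        exact this
      have hk' : idx c' = k := by
        apply le_antisymm (hmin c' k rfl)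
        have : idx c ≤ idx c' + 1 := by
          refine hmin c _ ?_
          rw [Function.iterate_succ_apply', hidx c', hsc]
        omega
      refine (ih c' hk').trans ?_
      have hE := hnbE c'
      have hoE : o (nb P σ e c'.1 Hd.E) = c := hsc
      refine ReflTransGen.trans (b := pl (nb P σ e c'.1 Hd.E)) (ReflTransGen.single
        ⟨hpl _ (h.cr_face _ c'.2), hpl _ hE, Or.inl ⟨Hd.E, ?_, ?_⟩⟩) ?_
      · change (((idx (o (nb P σ e c'.1 Hd.E)) : ℕ) : ℤ),
            shift s c0 f g (idx (o (nb P σ e c'.1 Hd.E))) + y (nb P σ e c'.1 Hd.E)) =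
          (((idx (o c'.1) : ℕ) : ℤ), shift s c0 f g (idx (o c'.1)) + y c'.1) + Hd.E.vec
        rw [hoE, oX, hk', hc]
        simp only [Hd.vec, Prod.mk_add_mk, shift, Prod.mk.injEq]
        refine ⟨by push_cast; ring, ?_⟩
        simp only [f, g, ← hc']
        ring
      · have h1 := h.cr_cmp c'.1 c'.2
        unfold Cmp at h1
        change nbr P c'.1 (dirH σ c'.1.2 (e c'.1) Hd.E) = (nb P σ e c'.1 Hd.E,
          dirH σ (nb P σ e c'.1 Hd.E).2 (e (nb P σ e c'.1 Hd.E)) Hd.W)
        exact Prod.ext rfl h1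
      · have := hcol _ _ (ho _ hE)
        rwa [hoE] at this
  refine ⟨pos, ⟨?_, ?_, ?_, ?_, ?_⟩, ?_, ?_⟩
  · intro A
    constructor
    · intro hA; exact ⟨pl A, hpl A hA, rfl⟩
    · rintro ⟨p, ⟨B, hB, rfl⟩, hp⟩
      have : B = A := hp
      rw [← this]; exact hB
  · rintro p ⟨A, hA, rfl⟩ p' ⟨B, hB, rfl⟩ hAB
    have : A = B := hAB
    rw [this]
  · rintro p ⟨A, hA, rfl⟩ p' ⟨B, hB, rfl⟩ hAB
    have h1 : (((idx (o A) : ℕ) : ℤ), shift s c0 f g (idx (o A)) + y A) =
      (((idx (o B) : ℕ) : ℤ), shift s c0 f g (idx (o B)) + y B) := hAB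
    rw [Prod.mk.injEq] at h1
    obtain ⟨h2, h3⟩ := h1
    have h4 : idx (o A) = idx (o B) := by exact_mod_cast h2
    have h5 : o A = o B := by rw [← hidx (o A), ← hidx (o B), h4]
    rw [h4] at h3
    have h6 : y A = y B := by linarith
    have h7 : EqvGen (Up P σ e U) A B := by
      have := ho A hA
      rw [h5] at this
      exact this.trans _ _ _ (ho B hB).symm
    rw [h.eq_of_height h7 h6]
  · rintro p ⟨A, hA, rfl⟩
    exact h.perp A hA
  · have hall : ∀ A, IsFace P A → ReflTransGen S (pl c0.1) (pl A) := by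
      intro A hA
      exact (hbase _ (o A) rfl).trans (Ssymm _ _ (hcol _ _ (ho A hA)))
    rintro p ⟨A, hA, rfl⟩ p' ⟨B, hB, rfl⟩
    exact (Ssymm _ _ (hall A hA)).trans (hall B hB)
  · intro A hA
    have hC := h.up_face A hA
    have hD : IsFace P (nb P σ e A Hd.N) := isFace_nbr hC
    have hoo : o A = o (nb P σ e A Hd.N) := col_eq _ _ hC hD (EqvGen.rel _ _ ⟨hA, rfl⟩)
    have h1 := h.ht A hA
    change (((idx (o (nb P σ e A Hd.N)) : ℕ) : ℤ),
      shift s c0 f g (idx (o (nb P σ e A Hd.N))) + y (nb P σ e A Hd.N)) =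
      (((idx (o A) : ℕ) : ℤ), shift s c0 f g (idx (o A)) + y A) + (0, 1)
    rw [← hoo, h1]
    simp only [Prod.mk_add_mk, add_zero, Prod.mk.injEq, true_and]
    ring
  · intro A hA hne
    have hoA : o A = ⟨A, hA⟩ := oX ⟨A, hA⟩
    have hc : (⟨A, hA⟩ : C) ≠ c1 := fun hh => hne (congrArg Subtype.val hh)
    have hk := hsucc _ hc
    have hsA : s ⟨A, hA⟩ = o (nb P σ e A Hd.E) := rfl
    change (((idx (o (nb P σ e A Hd.E)) : ℕ) : ℤ),
        shift s c0 f g (idx (o (nb P σ e A Hd.E))) + y (nb P σ e A Hd.E)) =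
      (((idx (o A) : ℕ) : ℤ), shift s c0 f g (idx (o A)) + y A) + (1, 0)
    rw [← hsA, hk, hoA]
    simp only [Prod.mk_add_mk, shift, Prod.mk.injEq]
    rw [hidx]
    refine ⟨by push_cast; ring, ?_⟩
    simp only [f, g]
    ring

end Pool.Agent.Helper84.LD
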