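import Pool.Agent.Helper84.LD.Unfold

/-!
# Closed ladders give nets (project LD, MP_409f7f_co)
-/

namespace Pool.Agent.Helper84.LD

open Pool.Agent.Helper17.UF

/-- Crossing a side twice leads back. -/
theorem nbr_nbr {P : Finset Cube} {A : Face} {t : Dir} (hA : IsFace P A)
    (ht : Dir.perp A.2 t = true) : nbr P (nbr P A t).1 (nbr P A t).2 = (A, t) := by
  obtain ⟨v, d⟩ := A
  obtain ⟨hv, hvd⟩ := hA
  simp only at hv hvd ht
  rcases nbr_cases P v d t with ⟨g1, e⟩ | ⟨g1, g2, e⟩ | ⟨g1, g2, e⟩
  · rw [e]
    simp only [nbr, Dir.vec_neg, Dir.neg_neg]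
    rw [show v + t.vec + d.vec + -d.vec + -t.vec = v by abel]
    simp [hv]
  · rw [e]
    simp only [nbr, Dir.vec_neg, Dir.neg_neg]
    rw [show v + t.vec + -t.vec + d.vec = v + d.vec by abel,
      show v + t.vec + -t.vec = v by abel]
    simp [hv, hvd]
  · rw [e]
    simp only [nbr]
    rw [show v + d.vec + t.vec = v + t.vec + d.vec by abel]
    simp [g1, hvd]

/-- The neighbour of a boundary face is a boundary face. -/
theorem isFace_nbr {P : Finset Cube} {A : Face} {t : Dir} (hA : IsFace P A) :
    IsFace P (nbr P A t).1 := by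
  obtain ⟨v, d⟩ := A
  obtain ⟨hv, hvd⟩ := hA
  simp only at hv hvd
  rcases nbr_cases P v d t with ⟨g1, e⟩ | ⟨g1, g2, e⟩ | ⟨g1, g2, e⟩
  · rw [e]
    refine ⟨g1, ?_⟩
    simp only [Dir.vec_neg]
    rw [show v + t.vec + d.vec + -t.vec = v + d.vec by abel]
    exact hvd
  · rw [e]
    exact ⟨g2, g1⟩
  · rw [e]
    exact ⟨hv, g2⟩

/-- The set of boundary faces is finite. -/
theorem finite_faces (P : Finset Cube) : {A : Face | IsFace P A}.Finite := by
  refine Set.Finite.subset (Set.Finite.prod (Finset.finite_toSet P) (Set.finite_univ (α := Dir)))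
    ?_
  rintro ⟨v, d⟩ h
  exact ⟨h.1, Set.mem_univ _⟩

/-- The direction of space of a heading on a face with east direction `e A`. -/
def dA (σ : Bool) (e : Face → Dir) (A : Face) (h : Hd) : Dir := dirH σ A.2 (e A) h

/-- The neighbour in a heading. -/
def nb (P : Finset Cube) (σ : Bool) (e : Face → Dir) (A : Face) (h : Hd) : Face :=
  (nbr P A (dA σ e A h)).1

/-- The side of `A` in the heading `h` is seen from the other face as its side in the opposite
heading. -/
def Cmp (P : Finset Cube) (σ : Bool) (e : Face → Dir) (A : Face) (h : Hd) : Prop :=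
  (nbr P A (dA σ e A h)).2 = dA σ e (nb P σ e A h) h.opp

theorem Cmp.back {P : Finset Cube} {σ : Bool} {e : Face → Dir} {A : Face} {h : Hd}
    (hA : IsFace P A) (hp : Dir.perp A.2 (e A) = true) (hc : Cmp P σ e A h) :
    Cmp P σ e (nb P σ e A h) h.opp ∧ nb P σ e (nb P σ e A h) h.opp = A := by
  have hd : Dir.perp A.2 (dA σ e A h) = true := perp_dirH σ _ _ hp h
  have key := nbr_nbr hA hd
  rw [hc] at key
  have k1 : nb P σ e (nb P σ e A h) h.opp = A := congrArg Prod.fst key
  refine ⟨?_, k1⟩
  unfold Cmp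
  rw [k1, Hd.opp_opp]
  exact congrArg Prod.snd key

/-- One step up. -/
def Up (P : Finset Cube) (σ : Bool) (e : Face → Dir) (U : Set Face) (A B : Face) : Prop :=
  A ∈ U ∧ nb P σ e A Hd.N = B

/-- One step east. -/
def Cr (P : Finset Cube) (σ : Bool) (e : Face → Dir) (X : Set Face) (A B : Face) : Prop :=
  A ∈ X ∧ nb P σ e A Hd.E = B

/-- The closure of a functional and injective relation is comparable. -/
theorem eqvGen_comparable {α : Type*} {R : α → α → Prop}
    (hf : ∀ a b c, R a b → R a c → b = c) (hi : ∀ a b c, R a c → R b c → a = b) {a b : α}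
    (h : Relation.EqvGen R a b) : Relation.ReflTransGen R a b ∨ Relation.ReflTransGen R b a := by
  have cmp1 : ∀ a b c, Relation.ReflTransGen R a b → Relation.ReflTransGen R a c →
      Relation.ReflTransGen R b c ∨ Relation.ReflTransGen R c b := by
    intro a b c hab
    induction hab using Relation.ReflTransGen.head_induction_on with
    | refl => intro h; exact Or.inl h
    | head h1 h2 ih =>
      intro hac
      rcases Relation.ReflTransGen.cases_head hac with h | ⟨d, h3, h4⟩
      · right
        rw [← h]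
        exact Relation.ReflTransGen.head h1 h2
      · have := hf _ _ _ h1 h3
        subst this
        exact ih h4
  have cmp2 : ∀ a b c, Relation.ReflTransGen R a c → Relation.ReflTransGen R b c →
      Relation.ReflTransGen R a b ∨ Relation.ReflTransGen R b a := by
    intro a b c hac
    induction hac with
    | refl => intro h; exact Or.inr h
    | tail h1 h2 ih =>
      intro hbc
      rcases Relation.ReflTransGen.cases_tail hbc with h | ⟨d, h3, h4⟩
      · left
        rw [← h]
        exact Relation.ReflTransGen.tail h1 h2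
      · have := hi _ _ _ h2 h4
        subst this
        exact ih h3
  induction h with
  | rel _ _ h => exact Or.inl (Relation.ReflTransGen.single h)
  | refl => exact Or.inl Relation.ReflTransGen.refl
  | symm _ _ _ ih => exact ih.symm
  | trans _ _ _ _ _ ih1 ih2 =>
    rcases ih1 with h1 | h1
    · rcases ih2 with h2 | h2
      · exact Or.inl (h1.trans h2)
      · exact cmp2 _ _ _ h1 h2
    · rcases ih2 with h2 | h2
      · exact cmp1 _ _ _ h1 h2
      · exact Or.inr (h2.trans h1)

/-- A closed ladder. -/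
structure IsLadder (P : Finset Cube) (σ : Bool) (e : Face → Dir) (U X : Set Face)
    (y : Face → ℤ) : Prop where
  perp : ∀ A, IsFace P A → Dir.perp A.2 (e A) = true
  up_face : ∀ A ∈ U, IsFace P A
  up_cmp : ∀ A ∈ U, Cmp P σ e A Hd.N
  cr_face : ∀ A ∈ X, IsFace P A
  cr_cmp : ∀ A ∈ X, Cmp P σ e A Hd.E
  ht : ∀ A ∈ U, y (nb P σ e A Hd.N) = y A + 1
  out : ∀ A, IsFace P A → ∃ B ∈ X, Relation.EqvGen (Up P σ e U) A B
  uniq_out : ∀ A ∈ X, ∀ B ∈ X, Relation.EqvGen (Up P σ e U) A B → A = B
  uniq_in : ∀ A ∈ X, ∀ B ∈ X,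
    Relation.EqvGen (Up P σ e U) (nb P σ e A Hd.E) (nb P σ e B Hd.E) → A = B
  conn : ∀ A B, IsFace P A → IsFace P B →
    Relation.EqvGen (fun C D => Up P σ e U C D ∨ Cr P σ e X C D) A B

theorem eqvGen_mono' {α : Type*} {R S : α → α → Prop} (h : ∀ a b, R a b → S a b) {a b : α}
    (hab : Relation.EqvGen R a b) : Relation.EqvGen S a b := by
  induction hab with
  | rel _ _ h' => exact Relation.EqvGen.rel _ _ (h _ _ h')
  | refl => exact Relation.EqvGen.refl _
  | symm _ _ _ ih => exact Relation.EqvGen.symm _ _ ih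
  | trans _ _ _ _ _ ih1 ih2 => exact Relation.EqvGen.trans _ _ _ ih1 ih2

/-- Faces of one column at the same height coincide. -/
theorem IsLadder.eq_of_height {P : Finset Cube} {σ : Bool} {e : Face → Dir} {U X : Set Face}
    {y : Face → ℤ} (h : IsLadder P σ e U X y) {A B : Face}
    (hAB : Relation.EqvGen (Up P σ e U) A B) (hy : y A = y B) : A = B := by
  have hf : ∀ a b c, Up P σ e U a b → Up P σ e U a c → b = c := by
    rintro a b c ⟨-, h1⟩ ⟨-, h2⟩
    exact h1.symm.trans h2
  have hi : ∀ a b c, Up P σ e U a c → Up P σ e U b c → a = b := by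
    rintro a b c ⟨ha, h1⟩ ⟨hb, h2⟩
    have e1 := (Cmp.back (h.up_face a ha) (h.perp a (h.up_face a ha)) (h.up_cmp a ha)).2
    have e2 := (Cmp.back (h.up_face b hb) (h.perp b (h.up_face b hb)) (h.up_cmp b hb)).2
    rw [h1] at e1
    rw [h2] at e2
    exact e1.symm.trans e2
  have mono : ∀ a b, Relation.ReflTransGen (Up P σ e U) a b → y a ≤ y b ∧ (y a = y b → a = b) := by
    intro a b hab
    induction hab with
    | refl => exact ⟨le_refl _, fun _ => rfl⟩
    | tail h1 h2 ih =>
      obtain ⟨h3, h4⟩ := h2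
      have := h.ht _ h3
      rw [h4] at this
      exact ⟨by linarith [ih.1], fun h5 => by linarith [ih.1]⟩
  rcases eqvGen_comparable hf hi hAB with h1 | h1
  · exact (mono _ _ h1).2 hy
  · exact ((mono _ _ h1).2 hy.symm).symm

/-- An injective map of a finite type that connects everything is transitive. -/
theorem exists_iterate {C : Type*} [Finite C] (s : C → C) (hs : Function.Injective s)
    (hc : ∀ a b, Relation.EqvGen (fun a b => s a = b) a b) (a b : C) : ∃ k : ℕ, s^[k] a = b := by
  classical
  haveI := Fintype.ofFinite C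
  let f : Equiv.Perm C := Equiv.ofBijective s (Finite.injective_iff_bijective.1 hs)
  have key : ∀ a b, Relation.EqvGen (fun a b => s a = b) a b → f.SameCycle a b := by
    intro a b h
    induction h with
    | rel x y h => exact ⟨1, by simpa [f] using h⟩
    | refl => exact Equiv.Perm.SameCycle.refl _ _
    | symm _ _ _ ih => exact ih.symm
    | trans _ _ _ _ _ ih1 ih2 => exact ih1.trans ih2
  obtain ⟨k, -, hk⟩ := (key a b (hc a b)).exists_pow_eq'
  refine ⟨k, ?_⟩
  rw [← hk]
  have : ∀ k : ℕ, ∀ a, s^[k] a = (f ^ k) a := by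
    intro k
    induction k with
    | zero => intro a; rfl
    | succ k ih => intro a; rw [Function.iterate_succ_apply, ih, pow_succ]; rfl
  exact this k a

end Pool.Agent.Helper84.LD
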