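import Pool.Agent.Helper84.LD.Dil
import Pool.Agent.Helper53.GP.BadZ

/-!
# Stretches of polycubes (project TIE, MP_409f7f_co)

A generalisation of the dilations: in each of the three axes the blocks may have different
lengths. `str s Q` consists of the unit cubes whose block belongs to `Q`.
-/

set_option autoImplicit false

namespace Pool.Agent.Helper84.LD.Str

open Pool.Agent.Helper17.UF Pool.Agent.Helper16.LD Pool.Agent.Helper53.GP
  Pool.Agent.Helper84.LD Relation

/-- A partition of the integers into intervals: `f x` is the number of the interval of `x`, `g m`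
the first element of the interval `m`. -/
structure Stp where
  f : ℤ → ℤ
  g : ℤ → ℤ
  spec : ∀ x m, f x = m ↔ g m ≤ x ∧ x < g (m + 1)
  lt : ∀ m, g m < g (m + 1)

namespace Stp

variable (s : Stp)

/-- `x` is the first element of an interval. -/
def B (x : ℤ) : Prop := s.g (s.f x) = x

instance (x : ℤ) : Decidable (s.B x) := by unfold B; infer_instance

theorem f_g (m : ℤ) : s.f (s.g m) = m := (s.spec _ _).2 ⟨le_rfl, s.lt m⟩

theorem B_g (m : ℤ) : s.B (s.g m) := by unfold B; rw [f_g]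

theorem g_le (x : ℤ) : s.g (s.f x) ≤ x := ((s.spec x _).1 rfl).1

theorem lt_g (x : ℤ) : x < s.g (s.f x + 1) := ((s.spec x _).1 rfl).2

theorem succ_B {a : ℤ} (h : s.B (a + 1)) : s.f (a + 1) = s.f a + 1 := by
  by_cases h1 : a + 1 < s.g (s.f a + 1)
  · exfalso
    have h2 : s.f (a + 1) = s.f a := (s.spec _ _).2 ⟨by linarith [s.g_le a], h1⟩
    unfold B at h
    rw [h2] at h
    have := s.g_le a
    omega
  · have h2 : a + 1 = s.g (s.f a + 1) := le_antisymm (s.lt_g a) (not_lt.1 h1)
    rw [h2, f_g]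

theorem succ_nB {a : ℤ} (h : ¬ s.B (a + 1)) : s.f (a + 1) = s.f a := by
  by_cases h1 : a + 1 < s.g (s.f a + 1)
  · exact (s.spec _ _).2 ⟨by linarith [s.g_le a], h1⟩
  · exfalso
    have h2 : a + 1 = s.g (s.f a + 1) := le_antisymm (s.lt_g a) (not_lt.1 h1)
    apply h
    rw [h2]
    exact s.B_g _

theorem pred_B {a : ℤ} (h : s.B a) : s.f (a + -1) = s.f a + -1 := by
  have := s.succ_B (a := a + -1) (by rw [neg_add_cancel_right]; exact h)
  rw [neg_add_cancel_right] at this
  linarith

theorem pred_nB {a : ℤ} (h : ¬ s.B a) : s.f (a + -1) = s.f a := by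
  have := s.succ_nB (a := a + -1) (by rw [neg_add_cancel_right]; exact h)
  rw [neg_add_cancel_right] at this
  exact this.symm

theorem off_f (a : ℤ) (b : Bool) : s.f (a + (if b then 0 else -1)) =
    s.f a + (if (if s.B a then b else true) = true then 0 else -1) := by
  cases b with
  | true => simp
  | false =>
    simp only [Bool.false_eq_true, if_false]
    by_cases h : s.B a
    · rw [if_pos h, if_neg (by decide)]
      exact s.pred_B h
    · rw [if_neg h, if_pos rfl, add_zero]
      exact s.pred_nB h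

theorem B_succ_iff {a : ℤ} : s.B (a + 1) ↔ s.g (s.f a + 1) - 1 - a = 0 := by
  constructor
  · intro h
    have h1 := s.succ_B h
    unfold B at h
    rw [h1] at h
    omega
  · intro h
    have h1 : a + 1 = s.g (s.f a + 1) := by omega
    rw [h1]
    exact s.B_g _

end Stp

/-- The block of a cube. -/
def fl (s : Fin 3 → Stp) (v : Cube) : Cube := ((s 0).f v.1, (s 1).f v.2.1, (s 2).f v.2.2)

/-- The stretch of a polycube. -/
noncomputable def str (s : Fin 3 → Stp) (Q : Finset Cube) : Finset Cube :=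
  Q.biUnion (fun q => Finset.Ico ((s 0).g q.1) ((s 0).g (q.1 + 1)) ×ˢ
    (Finset.Ico ((s 1).g q.2.1) ((s 1).g (q.2.1 + 1)) ×ˢ
      Finset.Ico ((s 2).g q.2.2) ((s 2).g (q.2.2 + 1))))

theorem mem_str {s : Fin 3 → Stp} {Q : Finset Cube} {v : Cube} : v ∈ str s Q ↔ fl s v ∈ Q := by
  unfold str fl
  rw [Finset.mem_biUnion]
  constructor
  · rintro ⟨q, hq, h⟩
    rw [Finset.mem_product, Finset.mem_product, Finset.mem_Ico, Finset.mem_Ico, Finset.mem_Ico,
      ← (s 0).spec, ← (s 1).spec, ← (s 2).spec] at h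
    obtain ⟨h1, h2, h3⟩ := h
    rw [h1, h2, h3]
    exact hq
  · intro h
    refine ⟨_, h, ?_⟩
    rw [Finset.mem_product, Finset.mem_product, Finset.mem_Ico, Finset.mem_Ico, Finset.mem_Ico,
      ← (s 0).spec, ← (s 1).spec, ← (s 2).spec]
    exact ⟨rfl, rfl, rfl⟩

/-- The octant of the block vertex that contains the octant `o` of `v`. -/
def mo (s : Fin 3 → Stp) (v : Cube) (o : Oct) : Oct :=
  (if (s 0).B v.1 then o.1 else true, if (s 1).B v.2.1 then o.2.1 else true,
    if (s 2).B v.2.2 then o.2.2 else true)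

theorem fl_off {s : Fin 3 → Stp} (v : Cube) (o : Oct) :
    fl s (v + off o) = fl s v + off (mo s v o) := by
  obtain ⟨a, b, c⟩ := v
  obtain ⟨x, y, z⟩ := o
  unfold fl off mo
  simp only [Prod.mk_add_mk, Prod.mk.injEq]
  exact ⟨(s 0).off_f a x, (s 1).off_f b y, (s 2).off_f c z⟩

/-- The pattern of a lattice point of the stretch. -/
theorem pat_str {s : Fin 3 → Stp} (Q : Finset Cube) (v : Cube) (o : Oct) :
    pat (str s Q) v o = pat Q (fl s v) (mo s v o) := by
  unfold pat
  rw [decide_eq_decide, mem_str, fl_off]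

/-- The plane through `v` orthogonal to the axis `a` is a boundary plane of the blocks. -/
def Dv (s : Fin 3 → Stp) (v : Cube) (a : Fin 3) : Prop := (s a).B (cd v a)

theorem mo_flp {s : Fin 3 → Stp} {v : Cube} {o : Oct} {a : Fin 3} (h : Dv s v a) :
    mo s v (flp o a) = flp (mo s v o) a := by
  unfold Dv cd at h
  obtain ⟨x, y, z⟩ := o
  fin_cases a
  · simp only [Fin.zero_eta, if_true] at h
    unfold mo flp
    simp [h]
  · simp only [Fin.mk_one, Fin.isValue, one_ne_zero, if_false, if_true] at h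
    unfold mo flp
    simp [h]
  · have e0 : ((2 : Fin 3) = 0) = False := by simp
    have e1 : ((2 : Fin 3) = 1) = False := by simp
    simp only [Fin.reduceFinMk, e0, e1, if_false] at h
    unfold mo flp
    simp [h]

theorem mo_flp' {s : Fin 3 → Stp} {v : Cube} {o : Oct} {a : Fin 3} (h : ¬ Dv s v a) :
    mo s v (flp o a) = mo s v o := by
  unfold Dv cd at h
  obtain ⟨x, y, z⟩ := o
  fin_cases a
  · simp only [Fin.zero_eta, if_true] at h
    unfold mo flp
    simp [h]
  · simp only [Fin.mk_one, Fin.isValue, one_ne_zero, if_false, if_true] at h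
    unfold mo flp
    simp [h]
  · have e0 : ((2 : Fin 3) = 0) = False := by simp
    have e1 : ((2 : Fin 3) = 1) = False := by simp
    simp only [Fin.reduceFinMk, e0, e1, if_false] at h
    unfold mo flp
    simp [h]

theorem manP_str {s : Fin 3 → Stp} {Q : Finset Cube} (h : Man Q) (v : Cube) :
    ManP (pat (str s Q) v) := by
  intro o a b hab h1 h2 h3
  rw [pat_str] at h1 h2 h3 ⊢
  by_cases ha : Dv s v a
  · by_cases hb : Dv s v b
    · rw [mo_flp ha] at h2
      rw [mo_flp hb] at h3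
      rw [mo_flp hb, mo_flp ha]
      exact manP_pat h _ _ a b hab h1 h2 h3
    · rw [mo_flp' hb, h1] at h3
      exact Bool.noConfusion h3
  · rw [mo_flp' ha, h1] at h2
    exact Bool.noConfusion h2

/-- Dilations of edge-manifold polycubes are edge-manifold. -/
theorem man_str {s : Fin 3 → Stp} {Q : Finset Cube} (h : Man Q) : Man (str s Q) :=
  man_of_manP (manP_str h)

/-- The lattice point of a block vertex. -/
def sc (s : Fin 3 → Stp) (v : Cube) : Cube := ((s 0).g v.1, (s 1).g v.2.1, (s 2).g v.2.2)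

theorem fl_sc {s : Fin 3 → Stp} (v : Cube) : fl s (sc s v) = v := by
  unfold fl sc
  simp only [Stp.f_g]

theorem mo_sc (s : Fin 3 → Stp) (v : Cube) (o : Oct) : mo s (sc s v) o = o := by
  unfold mo sc
  simp only [Stp.B_g, if_true]

theorem pat_sc {s : Fin 3 → Stp} (Q : Finset Cube) (v : Cube) :
    pat (str s Q) (sc s v) = pat Q v := by
  funext o
  rw [pat_str, fl_sc, mo_sc]

theorem sc_fl {s : Fin 3 → Stp} {v : Cube} (h : ∀ a, Dv s v a) : sc s (fl s v) = v := by
  obtain ⟨x, y, z⟩ := v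
  have h0 : (s 0).g ((s 0).f x) = x := h 0
  have h1 : (s 1).g ((s 1).f y) = y := h 1
  have h2 : (s 2).g ((s 2).f z) = z := h 2
  unfold sc fl
  simp only
  rw [h0, h1, h2]

/-- `V - F` does not change under stretch. -/
theorem euler_str {s : Fin 3 → Stp} {Q : Finset Cube} (h : Man Q) :
    ((vertF (str s Q)).card : ℤ) - (faceF (str s Q)).card = (vertF Q).card - (faceF Q).card := by
  classical
  have h1 := sum_loc (P := str s Q) (S := vertF (str s Q) ∪ (vertF Q).image (sc s))
    Finset.subset_union_left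
  have h2 := sum_loc (P := Q) (S := vertF Q) (Finset.Subset.refl _)
  have h3 : ∑ v ∈ (vertF Q).image (sc s), loc (pat (str s Q) v) =
      ∑ v ∈ vertF (str s Q) ∪ (vertF Q).image (sc s), loc (pat (str s Q) v) := by
    refine Finset.sum_subset Finset.subset_union_right (fun v _ hv => ?_)
    by_cases hd : ∀ a, Dv s v a
    · have h4 : fl s v ∉ vertF Q := fun h5 => hv (Finset.mem_image.2 ⟨_, h5, sc_fl hd⟩)
      rw [← sc_fl hd, pat_sc]
      rw [mem_vertF_iff, not_not] at h4
      unfold loc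
      rw [if_pos h4]
    · rw [not_forall] at hd
      obtain ⟨a, ha⟩ := hd
      refine loc_edge _ (manP_str h v) a (fun o => ?_)
      rw [pat_str, pat_str, mo_flp' ha]
  have h4 : ∑ v ∈ (vertF Q).image (sc s), loc (pat (str s Q) v) =
      ∑ v ∈ vertF Q, loc (pat Q v) := by
    rw [Finset.sum_image]
    · exact Finset.sum_congr rfl (fun v _ => by rw [pat_sc])
    · intro v _ w _ hvw
      rw [← fl_sc (s := s) v, ← fl_sc (s := s) w, hvw]
  rw [← h3, h4, h2] at h1
  linarith

/-- The Euler characteristic of the stretch. -/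
theorem euler2_str {s : Fin 3 → Stp} {Q : Finset Cube} (h : Man Q)
    (he : (vertF Q).card + (faceF Q).card = (edgeF Q).card + 2) :
    (vertF (str s Q)).card + (faceF (str s Q)).card = (edgeF (str s Q)).card + 2 := by
  have h1 := euler_str (s := s) h
  have h2 := card_edgeF h
  have h3 := card_edgeF (man_str (s := s) h)
  omega

section conn

/-- The step from `v` in the direction leaves the block of `v`. -/
def crs (s : Fin 3 → Stp) (v : Cube) : Dir → Prop
  | Dir.px => (s 0).B (v.1 + 1) | Dir.nx => (s 0).B v.1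
  | Dir.py => (s 1).B (v.2.1 + 1) | Dir.ny => (s 1).B v.2.1
  | Dir.pz => (s 2).B (v.2.2 + 1) | Dir.nz => (s 2).B v.2.2

/-- Number of steps inside the block. -/
def msr (s : Fin 3 → Stp) (v : Cube) : Dir → ℤ
  | Dir.px => (s 0).g ((s 0).f v.1 + 1) - 1 - v.1 | Dir.nx => v.1 - (s 0).g ((s 0).f v.1)
  | Dir.py => (s 1).g ((s 1).f v.2.1 + 1) - 1 - v.2.1
  | Dir.ny => v.2.1 - (s 1).g ((s 1).f v.2.1)
  | Dir.pz => (s 2).g ((s 2).f v.2.2 + 1) - 1 - v.2.2
  | Dir.nz => v.2.2 - (s 2).g ((s 2).f v.2.2)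

theorem fl_crs {s : Fin 3 → Stp} {v : Cube} {d : Dir} (h : crs s v d) :
    fl s (v + d.vec) = fl s v + d.vec := by
  obtain ⟨x, y, z⟩ := v
  cases d <;> simp only [crs] at h <;>
    simp only [fl, Dir.vec, Prod.mk_add_mk, add_zero, Prod.mk.injEq, true_and, and_true]
  · exact (s 0).succ_B h
  · exact (s 0).pred_B h
  · exact (s 1).succ_B h
  · exact (s 1).pred_B h
  · exact (s 2).succ_B h
  · exact (s 2).pred_B h

theorem fl_ncrs {s : Fin 3 → Stp} {v : Cube} {d : Dir} (h : ¬ crs s v d) :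
    fl s (v + d.vec) = fl s v := by
  obtain ⟨x, y, z⟩ := v
  cases d <;> simp only [crs] at h <;>
    simp only [fl, Dir.vec, Prod.mk_add_mk, add_zero, Prod.mk.injEq, true_and, and_true]
  · exact (s 0).succ_nB h
  · exact (s 0).pred_nB h
  · exact (s 1).succ_nB h
  · exact (s 1).pred_nB h
  · exact (s 2).succ_nB h
  · exact (s 2).pred_nB h

theorem crs_perp {s : Fin 3 → Stp} {v : Cube} {d t : Dir} (h : Dir.perp d t = true) :
    crs s (v + t.vec) d ↔ crs s v d := by
  obtain ⟨x, y, z⟩ := v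
  cases d <;> cases t <;> first | (exact absurd h (by decide)) | skip
  all_goals simp [crs, Dir.vec]

theorem msr_nonneg {s : Fin 3 → Stp} (v : Cube) (t : Dir) : 0 ≤ msr s v t := by
  have h0 := (s 0).g_le v.1
  have h1 := (s 1).g_le v.2.1
  have h2 := (s 2).g_le v.2.2
  have g0 := (s 0).lt_g v.1
  have g1 := (s 1).lt_g v.2.1
  have g2 := (s 2).lt_g v.2.2
  cases t <;> simp only [msr] <;> omega

theorem crs_iff {s : Fin 3 → Stp} (v : Cube) (t : Dir) : crs s v t ↔ msr s v t = 0 := by
  cases t <;> simp only [crs, msr]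
  · exact (s 0).B_succ_iff
  · unfold Stp.B; constructor <;> intro h <;> omega
  · exact (s 1).B_succ_iff
  · unfold Stp.B; constructor <;> intro h <;> omega
  · exact (s 2).B_succ_iff
  · unfold Stp.B; constructor <;> intro h <;> omega

theorem msr_step {s : Fin 3 → Stp} {v : Cube} {t : Dir} (h : ¬ crs s v t) :
    msr s (v + t.vec) t = msr s v t - 1 := by
  obtain ⟨x, y, z⟩ := v
  cases t <;> simp only [crs] at h <;> simp only [msr, Dir.vec, Prod.mk_add_mk, add_zero]
  · rw [(s 0).succ_nB h]; ring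
  · rw [(s 0).pred_nB h]; ring
  · rw [(s 1).succ_nB h]; ring
  · rw [(s 1).pred_nB h]; ring
  · rw [(s 2).succ_nB h]; ring
  · rw [(s 2).pred_nB h]; ring

theorem isFace_str {s : Fin 3 → Stp} {Q : Finset Cube} {v : Cube} {d : Dir} :
    IsFace (str s Q) (v, d) ↔ crs s v d ∧ IsFace Q (fl s v, d) := by
  unfold IsFace
  simp only
  rw [mem_str, mem_str]
  constructor
  · rintro ⟨h1, h2⟩
    by_cases hc : crs s v d
    · rw [fl_crs hc] at h2
      exact ⟨hc, h1, h2⟩
    · rw [fl_ncrs hc] at h2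
      exact absurd h1 h2
  · rintro ⟨hc, h1, h2⟩
    refine ⟨h1, ?_⟩
    rw [fl_crs hc]
    exact h2

/-- The block face of a face. -/
def pf (s : Fin 3 → Stp) (A : Face) : Face := (fl s A.1, A.2)

theorem nbr_str_in {s : Fin 3 → Stp} {Q : Finset Cube} {v : Cube} {d t : Dir}
    (hF : IsFace (str s Q) (v, d)) (ht : Dir.perp d t = true) (hc : ¬ crs s v t) :
    nbr (str s Q) (v, d) t = ((v + t.vec, d), t.neg) := by
  obtain ⟨h1, h2, h3⟩ := (isFace_str).1 hF
  simp only at h2 h3
  have e1 : v + t.vec + d.vec ∉ str s Q := by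
    rw [mem_str, fl_crs ((crs_perp ht).2 h1), fl_ncrs hc]
    exact h3
  have e2 : v + t.vec ∈ str s Q := by
    rw [mem_str, fl_ncrs hc]
    exact h2
  unfold nbr
  simp only
  rw [if_neg e1, if_pos e2]

theorem nbr_str_out {s : Fin 3 → Stp} {Q : Finset Cube} {v : Cube} {d t : Dir}
    (hF : IsFace (str s Q) (v, d)) (ht : Dir.perp d t = true) (hc : crs s v t) :
    pf s (nbr (str s Q) (v, d) t).1 = (nbr Q (fl s v, d) t).1 := by
  obtain ⟨h1, h2, h3⟩ := (isFace_str).1 hF
  have f1 : fl s (v + t.vec + d.vec) = fl s v + t.vec + d.vec := by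
    rw [fl_crs ((crs_perp ht).2 h1), fl_crs hc]
  have f2 : fl s (v + t.vec) = fl s v + t.vec := fl_crs hc
  have e1 : v + t.vec + d.vec ∈ str s Q ↔ fl s v + t.vec + d.vec ∈ Q := by
    rw [mem_str, f1]
  have e2 : v + t.vec ∈ str s Q ↔ fl s v + t.vec ∈ Q := by
    rw [mem_str, f2]
  unfold nbr pf
  simp only
  by_cases g1 : v + t.vec + d.vec ∈ str s Q
  · rw [if_pos g1, if_pos (e1.1 g1)]
    simp only
    rw [f1]
  · rw [if_neg g1, if_neg (fun h => g1 (e1.2 h))]
    by_cases g2 : v + t.vec ∈ str s Q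
    · rw [if_pos g2, if_pos (e2.1 g2)]
      simp only
      rw [f2]
    · rw [if_neg g2, if_neg (fun h => g2 (e2.2 h))]

/-- Moving inside the block to its end. -/
theorem move {s : Fin 3 → Stp} {Q : Finset Cube} {d t : Dir} (ht : Dir.perp d t = true) :
    ∀ (n : ℕ) (v : Cube), msr s v t = n → IsFace (str s Q) (v, d) →
    ∃ j : ℕ, IsFace (str s Q) (v + j • t.vec, d) ∧ crs s (v + j • t.vec) t ∧
      fl s (v + j • t.vec) = fl s v ∧
      ReflTransGen (St (str s Q)) (v, d) (v + j • t.vec, d) := by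
  intro n
  induction n with
  | zero =>
    intro v hv hF
    refine ⟨0, ?_, ?_, ?_, ?_⟩
    · rw [zero_smul, add_zero]; exact hF
    · rw [zero_smul, add_zero, crs_iff]; exact_mod_cast hv
    · rw [zero_smul, add_zero]
    · rw [zero_smul, add_zero]
  | succ n ih =>
    intro v hv hF
    have hc : ¬ crs s v t := by
      rw [crs_iff, hv]
      intro h
      have : ((n : ℤ) + 1) = 0 := by exact_mod_cast h
      omega
    have h1 := nbr_str_in hF ht hc
    have h2 : IsFace (str s Q) (v + t.vec, d) := by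
      have : IsFace (str s Q) (nbr (str s Q) (v, d) t).1 := isFace_nbr hF
      rw [h1] at this
      exact this
    obtain ⟨j, k1, k2, k3, k4⟩ := ih (v + t.vec) (by
      rw [msr_step hc, hv]; push_cast; ring) h2
    have e : v + t.vec + j • t.vec = v + (j + 1) • t.vec := by
      rw [add_smul, one_smul]; abel
    rw [e] at k1 k2 k3 k4
    refine ⟨j + 1, k1, k2, k3.trans (fl_ncrs hc), ReflTransGen.head ⟨t, ht, ?_⟩ k4⟩
    rw [h1]

theorem crs_perp_smul {s : Fin 3 → Stp} {v : Cube} {d t : Dir} (h : Dir.perp d t = true) (j : ℕ) :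
    crs s (v + j • t.vec) d ↔ crs s v d := by
  induction j with
  | zero => rw [zero_smul, add_zero]
  | succ j ih =>
    rw [add_smul, one_smul, ← add_assoc, crs_perp h, ih]

theorem crs_cd {s : Fin 3 → Stp} {v w : Cube} {d : Dir} (hv : crs s v d) (hw : crs s w d)
    (h : fl s v = fl s w) : cd v d.axis = cd w d.axis := by
  have hs : ∀ (r : Stp) (a b : ℤ), r.B (a + 1) → r.B (b + 1) → r.f a = r.f b → a = b := by
    intro r a b ha hb hab
    have h1 := r.B_succ_iff.1 ha
    have h2 := r.B_succ_iff.1 hb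
    rw [hab] at h1
    omega
  have hp : ∀ (r : Stp) (a b : ℤ), r.B a → r.B b → r.f a = r.f b → a = b := by
    intro r a b ha hb hab
    unfold Stp.B at ha hb
    rw [← ha, ← hb, hab]
  obtain ⟨x, y, z⟩ := v
  obtain ⟨x', y', z'⟩ := w
  unfold fl at h
  simp only [Prod.mk.injEq] at h
  obtain ⟨h1, h2, h3⟩ := h
  cases d <;> simp only [crs] at hv hw
  · exact hs _ _ _ hv hw h1
  · exact hp _ _ _ hv hw h1
  · exact hs _ _ _ hv hw h2
  · exact hp _ _ _ hv hw h2
  · exact hs _ _ _ hv hw h3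
  · exact hp _ _ _ hv hw h3

/-- Faces in the same block face are connected. -/
theorem fibre {s : Fin 3 → Stp} {Q : Finset Cube} {C D : Face} (hC : IsFace (str s Q) C)
    (hD : IsFace (str s Q) D) (h : pf s C = pf s D) : ReflTransGen (St (str s Q)) C D := by
  obtain ⟨v, d⟩ := C
  obtain ⟨w, d'⟩ := D
  unfold pf at h
  simp only [Prod.mk.injEq] at h
  obtain ⟨h1, rfl⟩ := h
  have key : ∀ d : Dir, ∃ t u : Dir, Dir.perp d t = true ∧ Dir.perp d u = true ∧
      Dir.perp t u = true ∧ ∀ a : Fin 3, a = d.axis ∨ a = t.axis ∨ a = u.axis := by decide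
  obtain ⟨t, u, k1, k2, k3, k4⟩ := key d
  have go : ∀ v : Cube, IsFace (str s Q) (v, d) → ∃ w : Cube, IsFace (str s Q) (w, d) ∧
      crs s w t ∧ crs s w u ∧ fl s w = fl s v ∧ ReflTransGen (St (str s Q)) (v, d) (w, d) := by
    intro v hv
    obtain ⟨m, hm⟩ := Int.eq_ofNat_of_zero_le (msr_nonneg v t)
    obtain ⟨j, a1, a2, a3, a4⟩ := move k1 m v hm hv
    obtain ⟨m', hm'⟩ := Int.eq_ofNat_of_zero_le (msr_nonneg (v + j • t.vec) u)
    obtain ⟨i, b1, b2, b3, b4⟩ := move k2 m' _ hm' a1
    exact ⟨_, b1, (crs_perp_smul k3 i).2 a2, b2, b3.trans a3, a4.trans b4⟩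
  obtain ⟨v', a1, a2, a3, a4, a5⟩ := go v hC
  obtain ⟨w', b1, b2, b3, b4, b5⟩ := go w hD
  have hfl : fl s v' = fl s w' := by rw [a4, b4, h1]
  have he : v' = w' := by
    refine cd_ext (fun a => ?_)
    rcases k4 a with rfl | rfl | rfl
    · exact crs_cd ((isFace_str).1 a1).1 ((isFace_str).1 b1).1 hfl
    · exact crs_cd a2 b2 hfl
    · exact crs_cd a3 b3 hfl
  rw [← he] at b5
  exact a5.trans (rtg_symm b5 hD)

/-- The surface of the stretch is connected. -/
theorem surfConn_str {s : Fin 3 → Stp} {Q : Finset Cube} (h : SurfConn Q) :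
    SurfConn (str s Q) := by
  have hproj : ∀ A, IsFace (str s Q) A → IsFace Q (pf s A) := fun A hA =>
    ((isFace_str (v := A.1) (d := A.2)).1 hA).2
  intro C D hC hD
  have key : ∀ B, ReflTransGen (St Q) (pf s C) B →
      (∃ E, IsFace (str s Q) E ∧ pf s E = B ∧ ReflTransGen (St (str s Q)) C E) := by
    intro B hB
    induction hB with
    | refl => exact ⟨C, hC, rfl, ReflTransGen.refl⟩
    | @tail B B' _ h2 ih =>
      obtain ⟨⟨v, d⟩, hE, hEB, hCE⟩ := ih
      obtain ⟨t, ht, rfl⟩ := h2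
      have hd : d = B.2 := congrArg Prod.snd hEB
      have hfv : fl s v = B.1 := congrArg Prod.fst hEB
      rw [← hd] at ht
      obtain ⟨m, hm⟩ := Int.eq_ofNat_of_zero_le (msr_nonneg v t)
      obtain ⟨j, a1, a2, a3, a4⟩ := move ht m v hm hE
      have h3 := nbr_str_out a1 ht a2
      refine ⟨(nbr (str s Q) (v + j • t.vec, d) t).1, isFace_nbr a1, ?_, ?_⟩
      · rw [h3, a3, hfv, hd]
      · exact (hCE.trans a4).trans (ReflTransGen.single ⟨t, ht, rfl⟩)
  obtain ⟨E, hE, hEB, hCE⟩ := key (pf s D) (h _ _ (hproj C hC) (hproj D hD))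
  exact hCE.trans (fibre hE hD hEB)

end conn

section tie

theorem inw_mo {s : Fin 3 → Stp} {v : Cube} {o : Oct} {a : Fin 3} (h : Dv s v a) :
    inw (mo s v o) a = inw o a := by
  unfold Dv cd at h
  obtain ⟨x, y, z⟩ := o
  fin_cases a
  · simp only [Fin.zero_eta, if_true] at h
    unfold mo inw
    simp [h]
  · simp only [Fin.mk_one, Fin.isValue, one_ne_zero, if_false, if_true] at h
    unfold mo inw
    simp [h]
  · have e0 : ((2 : Fin 3) = 0) = False := by simp
    have e1 : ((2 : Fin 3) = 1) = False := by simp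
    simp only [Fin.reduceFinMk, e0, e1, if_false] at h
    unfold mo inw
    simp [h]

theorem onF_str {s : Fin 3 → Stp} {Q : Finset Cube} {d : Dir} {v : Cube}
    (h : OnF (str s Q) d v) : OnF Q d (fl s v) ∧ Dv s v d.axis := by
  rw [onF_iff] at h
  obtain ⟨o, h1, h2, h3⟩ := h
  rw [pat_str] at h2 h3
  by_cases ha : Dv s v d.axis
  · refine ⟨?_, ha⟩
    rw [onF_iff]
    rw [mo_flp ha] at h3
    exact ⟨mo s v o, by rw [inw_mo ha]; exact h1, h2, h3⟩
  · rw [mo_flp' ha, h2] at h3
    exact Bool.noConfusion h3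

theorem noOpp_str {s : Fin 3 → Stp} {Q : Finset Cube} {d : Dir} (h : NoOpp Q d) :
    NoOpp (str s Q) d :=
  fun v h1 h2 => h (fl s v) (onF_str h1).1 (onF_str h2).1


end tie

end Pool.Agent.Helper84.LD.Str
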