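import Pool.Agent.Helper17.UF.Develop

/-!
# Nets of polycubes whose boundary has good edges (project LD, MP_409f7f_co)
-/

namespace Pool.Agent.Helper84.LD

open Pool.Agent.Helper17.UF

/-- Two cubes of `P` that share exactly an edge have a common neighbour in `P`. -/
def EdgeOK (P : Finset Cube) : Prop :=
  ∀ y ∈ P, ∀ u v : Dir, Dir.perp u v = true → y + u.vec ∉ P → y + v.vec ∉ P →
    y + u.vec + v.vec ∉ P

/-- An edge lies on at most two boundary squares. -/
theorem faces_of_side_E {P : Finset Cube} (hgood : EdgeOK P) {v : Cube} {d t : Dir}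
    (h : Dir.perp d t = true) (hF : IsFace P (v, d)) {B : Face} (hB : IsFace P B)
    (hs : sideOf (v, d) t ⊆ square B) : B = (v, d) ∨ B = (nbr P (v, d) t).1 := by
  obtain ⟨w, u⟩ := B
  obtain ⟨hv, hvd⟩ := hF
  obtain ⟨hw, hwu⟩ := hB
  simp only at hv hvd hw hwu
  have c1 := cube_of_side h (hs.trans (fun _ hx => hx.1))
  have c2 := cube_of_side h (hs.trans (fun _ hx => hx.2))
  simp only at c1 c2
  have hvd' : v + t.vec + d.vec = v + d.vec + t.vec := by abel
  -- combinatorics of the four cubes
  have inj : ∀ a b : Dir, a.vec = b.vec → a = b := fun a b hab => vec_injective hab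
  have e0 : ∀ u : Dir, u.vec ≠ 0 := by decide
  have ed : w + u.vec = v → w = v + t.vec + d.vec → False := by
    intro h1 h2
    have : u.vec + t.vec + d.vec = 0 := by
      rw [h2] at h1
      have := congrArg (fun z => z - v) h1
      simp only [sub_self] at this
      rw [← this]; abel
    revert this h
    have key : ∀ u t d : Dir, Dir.perp d t = true → u.vec + t.vec + d.vec = 0 → False := by decide
    exact fun h this => key u t d h this
  have good1 := hgood v hv d t h
  rcases nbr_cases P v d t with ⟨g1, e⟩ | ⟨g1, g2, e⟩ | ⟨g1, g2, e⟩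
  · -- concave edge
    have hvt : v + t.vec ∈ P := by
      by_contra hc
      have := good1 hvd hc
      rw [← hvd'] at this
      exact this g1
    have hwu' : w + u.vec = v + d.vec := by
      rcases c2 with c2 | c2 | c2 | c2
      · rw [c2] at hwu; exact absurd hv hwu
      · exact c2
      · rw [c2] at hwu; exact absurd hvt hwu
      · rw [c2] at hwu; exact absurd g1 hwu
    rw [e]
    rcases c1 with c1 | c1 | c1 | c1
    · left
      rw [c1] at hwu' ⊢
      rw [inj u d (add_left_cancel hwu')]
    · rw [c1] at hw; exact absurd hw hvd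
    · exfalso
      rw [c1] at hwu'
      have : t.vec + u.vec - d.vec = 0 := by
        have := congrArg (fun z => z - v - d.vec) hwu'
        rw [show v + d.vec - v - d.vec = 0 by abel] at this
        rw [← this]; abel
      have key : ∀ u t d : Dir, Dir.perp d t = true → t.vec + u.vec - d.vec = 0 → False := by
        decide
      exact key u t d h this
    · right
      rw [c1] at hwu' ⊢
      have : u.vec = t.neg.vec := by
        rw [Dir.vec_neg]
        have := congrArg (fun z => z - v - t.vec - d.vec) hwu'
        rw [show v + t.vec + d.vec + u.vec - v - t.vec - d.vec = u.vec by abel] at this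
        rw [this]; abel
      rw [inj u t.neg this]
  · -- flat edge
    rw [e]
    rcases c1 with c1 | c1 | c1 | c1
    · left
      subst c1
      rcases c2 with c2 | c2 | c2 | c2
      · exact absurd (by simpa using c2) (e0 u)
      · rw [inj u d (add_left_cancel c2)]
      · rw [c2] at hwu; exact absurd g2 hwu
      · exfalso
        have : u.vec - t.vec - d.vec = 0 := by
          have := congrArg (fun z => z - w - t.vec - d.vec) c2
          rw [show w + t.vec + d.vec - w - t.vec - d.vec = 0 by abel] at this
          rw [← this]; abel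
        have key : ∀ u t d : Dir, Dir.perp d t = true → u.vec - t.vec - d.vec = 0 → False := by
          decide
        exact key u t d h this
    · rw [c1] at hw; exact absurd hw hvd
    · right
      rw [c1] at c2 hwu ⊢
      have hu : u = d := by
        rcases c2 with c2 | c2 | c2 | c2
        · rw [c2] at hwu; exact absurd hv hwu
        · exfalso
          have : t.vec + u.vec - d.vec = 0 := by
            have := congrArg (fun z => z - v - d.vec) c2
            rw [show v + d.vec - v - d.vec = 0 by abel] at this
            rw [← this]; abel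
          have key : ∀ u t d : Dir, Dir.perp d t = true → t.vec + u.vec - d.vec = 0 → False := by
            decide
          exact key u t d h this
        · exact absurd (by simpa using c2) (e0 u)
        · exact inj u d (add_left_cancel c2)
      rw [hu]
    · rw [c1] at hw; exact absurd hw g1
  · -- convex edge
    rw [e]
    rcases c1 with c1 | c1 | c1 | c1
    · subst c1
      rcases c2 with c2 | c2 | c2 | c2
      · exact absurd (by simpa using c2) (e0 u)
      · left
        rw [inj u d (add_left_cancel c2)]
      · right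
        rw [inj u t (add_left_cancel c2)]
      · exfalso
        have : u.vec - t.vec - d.vec = 0 := by
          have := congrArg (fun z => z - w - t.vec - d.vec) c2
          rw [show w + t.vec + d.vec - w - t.vec - d.vec = 0 by abel] at this
          rw [← this]; abel
        have key : ∀ u t d : Dir, Dir.perp d t = true → u.vec - t.vec - d.vec = 0 → False := by
          decide
        exact key u t d h this
    · rw [c1] at hw; exact absurd hw hvd
    · rw [c1] at hw; exact absurd hw g2
    · rw [c1] at hw; exact absurd hw g1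

/-- A combinatorial net gives an edge unfolding. -/
theorem net_unfolding_E {P : Finset Cube} (hgood : EdgeOK P) {σ : Bool} {L : Set Pl}
    (hL : Net P σ L) : HasEdgeUnfolding P := by
  classical
  obtain ⟨h1, h2, h3, h4, h5⟩ := hL
  -- the placed face of a boundary face
  have hex : ∀ A, IsFace P A → ∃ p ∈ L, p.face = A := fun A hA => (h1 A).1 hA
  set φ : Face → E3 → E2 := fun A => if h : ∃ p ∈ L, p.face = A then plc σ h.choose else
    fun _ => 0 with hφ
  have hφp : ∀ p ∈ L, φ p.face = plc σ p := by
    intro p hp
    have hh : ∃ p' ∈ L, p'.face = p.face := ⟨p, hp, rfl⟩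
    have : hh.choose = p := h2 _ hh.choose_spec.1 _ hp hh.choose_spec.2
    simp only [hφ]
    rw [dif_pos hh, this]
  -- uncut edges
  let U : Set (Set E3) := {e | ∃ a ∈ L, ∃ b ∈ L, ∃ h : Hd, b.pos = a.pos + h.vec ∧
    nbr P a.face (dirOf σ a h) = (b.face, dirOf σ b h.opp) ∧ e = sideOf a.face (dirOf σ a h)}
  have hUout : ∀ e, IsEdge P e → e ∉ {e | IsEdge P e ∧ e ∉ U} → e ∈ U := by
    intro e he hn
    by_contra hc
    exact hn ⟨he, hc⟩
  refine ⟨{e | IsEdge P e ∧ e ∉ U}, φ, fun e he => he.1, ?_, ?_, ?_, ?_⟩
  · intro A hA x hx y hy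
    obtain ⟨p, hp, rfl⟩ := hex A hA
    rw [hφp p hp]
    exact plc_isometry (h4 p hp) hx hy
  · intro A B hA hB e he hne heA heB x hx
    obtain ⟨a, ha, b, hb, h, hpos, hn, rfl⟩ := hUout e he hne
    have hat : Dir.perp a.face.2 (dirOf σ a h) = true := perp_dirH σ _ _ (h4 a ha) h
    have hFa : IsFace P a.face := (h1 _).2 ⟨a, ha, rfl⟩
    have hg := glue_eq (h4 a ha) (h4 b hb) hpos hn hx
    have key : ∀ C, IsFace P C → sideOf a.face (dirOf σ a h) ⊆ square C →
        φ C x = plc σ a x := by
      intro C hC hs
      rcases faces_of_side_E hgood hat hFa hC hs with hCe | hCe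
      · have : C = a.face := hCe
        rw [this, hφp a ha]
      · have hn' : nbr P (a.face.1, a.face.2) (dirOf σ a h) = (b.face, dirOf σ b h.opp) := hn
        rw [hn'] at hCe
        simp only at hCe
        rw [hCe, hφp b hb, hg]
    rw [key A hA heA, key B hB heB]
  · intro A B hA hB hAB
    obtain ⟨p, hp, rfl⟩ := hex A hA
    obtain ⟨p', hp', rfl⟩ := hex B hB
    rw [hφp p hp, hφp p' hp']
    refine disjoint_cells (q := p.pos) (q' := p'.pos) ?_ (fun z hz => plc_cell hz)
      (fun z hz => plc_cell hz)
    intro he
    exact hAB (by rw [h3 p hp p' hp' he])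
  · intro A B hA hB
    obtain ⟨p, hp, rfl⟩ := hex A hA
    obtain ⟨p', hp', rfl⟩ := hex B hB
    have hstep : ∀ a ∈ L, ∀ b ∈ L, Glue P σ a b → ∃ e, IsEdge P e ∧
        e ∉ {e | IsEdge P e ∧ e ∉ U} ∧ e ⊆ square a.face ∧ e ⊆ square b.face := by
      intro a ha b hb hg
      obtain ⟨h, hpos, hn⟩ := hg
      have hat : Dir.perp a.face.2 (dirOf σ a h) = true := perp_dirH σ _ _ (h4 a ha) h
      have hFa : IsFace P a.face := (h1 _).2 ⟨a, ha, rfl⟩
      have hU : sideOf a.face (dirOf σ a h) ∈ U := ⟨a, ha, b, hb, h, hpos, hn, rfl⟩
      refine ⟨sideOf a.face (dirOf σ a h), ⟨a.face, _, hFa, hat, rfl⟩, fun hc => hc.2 hU,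
        side_subset _ _, ?_⟩
      have hside := side_nbr (P := P) (v := a.face.1) hat
      have hn' : nbr P (a.face.1, a.face.2) (dirOf σ a h) = (b.face, dirOf σ b h.opp) := hn
      rw [hn'] at hside
      simp only at hside
      have hse : sideOf a.face (dirOf σ a h) = sideOf b.face (dirOf σ b h.opp) := hside.symm
      rw [hse]
      exact side_subset _ _
    refine Relation.ReflTransGen.lift Pl.face ?_ _ _ (h5 p hp p' hp')
    rintro a b ⟨ha, hb, hg⟩
    refine ⟨(h1 _).2 ⟨a, ha, rfl⟩, (h1 _).2 ⟨b, hb, rfl⟩, ?_⟩
    rcases hg with hg | hg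
    · exact hstep a ha b hb hg
    · obtain ⟨e, e1, e2, e3, e4⟩ := hstep b hb a ha hg
      exact ⟨e, e1, e2, e4, e3⟩

end Pool.Agent.Helper84.LD
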