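import Pool.Agent.Helper84.LD.Unfold

/-!
# Nets with a description of the cut edges (project OT, MP_409f7f_co)
-/

namespace Pool.Agent.Helper84.LD

open Pool.Agent.Helper17.UF

/-- The edges at which the development of a net is consistent. -/
def Uset (P : Finset Cube) (σ : Bool) (L : Set Pl) : Set (Set E3) :=
  {e | ∃ a ∈ L, ∃ b ∈ L, ∃ h : Hd, b.pos = a.pos + h.vec ∧
    nbr P a.face (dirOf σ a h) = (b.face, dirOf σ b h.opp) ∧ e = sideOf a.face (dirOf σ a h)}

/-- A combinatorial net gives an edge unfolding; only the edges at which the development is not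
consistent are cut. -/
theorem net_unfolding_T {P : Finset Cube} (hgood : EdgeOK P) {σ : Bool} {L : Set Pl}
    (hL : Net P σ L) : ∃ (φ : Face → E3 → E2),
    (∀ A, IsFace P A → ∀ x ∈ square A, ∀ y ∈ square A, dist (φ A x) (φ A y) = dist x y) ∧
    (∀ A B, IsFace P A → IsFace P B → ∀ e, IsEdge P e → e ∉ {e | IsEdge P e ∧ e ∉ Uset P σ L} →
      e ⊆ square A → e ⊆ square B → ∀ x ∈ e, φ A x = φ B x) ∧
    (∀ A B, IsFace P A → IsFace P B → A ≠ B →
      Disjoint (interior (φ A '' square A)) (interior (φ B '' square B))) ∧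
    (∀ A B, IsFace P A → IsFace P B → Relation.ReflTransGen
      (fun C D => IsFace P C ∧ IsFace P D ∧
        ∃ e, IsEdge P e ∧ e ∉ {e | IsEdge P e ∧ e ∉ Uset P σ L} ∧ e ⊆ square C ∧ e ⊆ square D)
      A B) := by
  classical
  obtain ⟨h1, h2, h3, h4, h5⟩ := hL
  -- the placed face of a boundary face
  have hex : ∀ A, IsFace P A → ∃ p ∈ L, p.face = A := fun A hA => (h1 A).1 hA
  set φ : Face → E3 → E2 := fun A => if h : ∃ p ∈ L, p.face = A then plc σ h.choose else
    fun _ => 0 with hφ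
  have hφp : ∀ p ∈ L, φ p.face = plc σ p := by
    intro p hp
    have hh : ∃ p' ∈ L, p'.face = p.face := ⟨p, hp, rfl⟩
    have : hh.choose = p := h2 _ hh.choose_spec.1 _ hp hh.choose_spec.2
    simp only [hφ]
    rw [dif_pos hh, this]
  -- uncut edges
  set U : Set (Set E3) := Uset P σ L with hU
  have hUout : ∀ e, IsEdge P e → e ∉ {e | IsEdge P e ∧ e ∉ U} → e ∈ U := by
    intro e he hn
    by_contra hc
    exact hn ⟨he, hc⟩
  refine ⟨φ, ?_, ?_, ?_, ?_⟩
  · intro A hA x hx y hy
    obtain ⟨p, hp, rfl⟩ := hex A hA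
    rw [hφp p hp]
    exact plc_isometry (h4 p hp) hx hy
  · intro A B hA hB e he hne heA heB x hx
    obtain ⟨a, ha, b, hb, h, hpos, hn, rfl⟩ := hUout e he hne
    have hat : Dir.perp a.face.2 (dirOf σ a h) = true := perp_dirH σ _ _ (h4 a ha) h
    have hFa : IsFace P a.face := (h1 _).2 ⟨a, ha, rfl⟩
    have hg := glue_eq (h4 a ha) (h4 b hb) hpos hn hx
    have key : ∀ C, IsFace P C → sideOf a.face (dirOf σ a h) ⊆ square C →
        φ C x = plc σ a x := by
      intro C hC hs
      rcases faces_of_side_E hgood hat hFa hC hs with hCe | hCe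
      · have : C = a.face := hCe
        rw [this, hφp a ha]
      · have hn' : nbr P (a.face.1, a.face.2) (dirOf σ a h) = (b.face, dirOf σ b h.opp) := hn
        rw [hn'] at hCe
        simp only at hCe
        rw [hCe, hφp b hb, hg]
    rw [key A hA heA, key B hB heB]
  · intro A B hA hB hAB
    obtain ⟨p, hp, rfl⟩ := hex A hA
    obtain ⟨p', hp', rfl⟩ := hex B hB
    rw [hφp p hp, hφp p' hp']
    refine disjoint_cells (q := p.pos) (q' := p'.pos) ?_ (fun z hz => plc_cell hz)
      (fun z hz => plc_cell hz)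
    intro he
    exact hAB (by rw [h3 p hp p' hp' he])
  · intro A B hA hB
    obtain ⟨p, hp, rfl⟩ := hex A hA
    obtain ⟨p', hp', rfl⟩ := hex B hB
    have hstep : ∀ a ∈ L, ∀ b ∈ L, Glue P σ a b → ∃ e, IsEdge P e ∧
        e ∉ {e | IsEdge P e ∧ e ∉ U} ∧ e ⊆ square a.face ∧ e ⊆ square b.face := by
      intro a ha b hb hg
      obtain ⟨h, hpos, hn⟩ := hg
      have hat : Dir.perp a.face.2 (dirOf σ a h) = true := perp_dirH σ _ _ (h4 a ha) h
      have hFa : IsFace P a.face := (h1 _).2 ⟨a, ha, rfl⟩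
      have hU : sideOf a.face (dirOf σ a h) ∈ U := ⟨a, ha, b, hb, h, hpos, hn, rfl⟩
      refine ⟨sideOf a.face (dirOf σ a h), ⟨a.face, _, hFa, hat, rfl⟩, fun hc => hc.2 hU,
        side_subset _ _, ?_⟩
      have hside := side_nbr (P := P) (v := a.face.1) hat
      have hn' : nbr P (a.face.1, a.face.2) (dirOf σ a h) = (b.face, dirOf σ b h.opp) := hn
      rw [hn'] at hside
      simp only at hside
      have hse : sideOf a.face (dirOf σ a h) = sideOf b.face (dirOf σ b h.opp) := hside.symm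
      rw [hse]
      exact side_subset _ _
    refine Relation.ReflTransGen.lift Pl.face ?_ _ _ (h5 p hp p' hp')
    rintro a b ⟨ha, hb, hg⟩
    refine ⟨(h1 _).2 ⟨a, ha, rfl⟩, (h1 _).2 ⟨b, hb, rfl⟩, ?_⟩
    rcases hg with hg | hg
    · exact hstep a ha b hb hg
    · obtain ⟨e, e1, e2, e3, e4⟩ := hstep b hb a ha hg
      exact ⟨e, e1, e2, e4, e3⟩


end Pool.Agent.Helper84.LD
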